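import Mathlib

/-!
# Lower central series with the classical numbering, and coordinates

`gm G i` is the `i`-th term of the lower central series (`gm G 1 = G`).
-/

namespace Pool.TKB

open Subgroup

variable {G : Type*} [Group G]

/-- The lower central series with the classical numbering: `gm G 1 = G`,
`gm G (i + 1) = [gm G i, G]` for `i ≥ 1` (and `gm G 0 = G`). -/
def gm (G : Type*) [Group G] (i : ℕ) : Subgroup G := (⊤ : Subgroup G).lowerCentralSeries (i - 1)

lemma gm_zero : gm G 0 = ⊤ := rfl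

lemma gm_one : gm G 1 = ⊤ := rfl

lemma gm_succ {i : ℕ} (hi : 1 ≤ i) : gm G (i + 1) = ⁅gm G i, (⊤ : Subgroup G)⁆ := by
  obtain ⟨k, rfl⟩ : ∃ k, i = k + 1 := ⟨i - 1, by omega⟩
  rfl

instance gm_normal (i : ℕ) : (gm G i).Normal := by
  unfold gm
  infer_instance

lemma gm_anti {i j : ℕ} (h : i ≤ j) : gm G j ≤ gm G i :=
  Subgroup.lowerCentralSeries_antitone (⊤ : Subgroup G) (Nat.sub_le_sub_right h 1)

lemma three {A B C N : Subgroup G} [N.Normal] (h1 : ⁅⁅B, C⁆, A⁆ ≤ N) (h2 : ⁅⁅C, A⁆, B⁆ ≤ N) :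
    ⁅⁅A, B⁆, C⁆ ≤ N := by
  have key : ∀ H : Subgroup G, H.map (QuotientGroup.mk' N) = ⊥ ↔ H ≤ N := by
    intro H
    rw [Subgroup.map_eq_bot_iff, QuotientGroup.ker_mk']
  rw [← key, map_commutator, map_commutator]
  apply commutator_commutator_eq_bot_of_rotate
  · rw [← map_commutator, ← map_commutator, key]
    exact h1
  · rw [← map_commutator, ← map_commutator, key]
    exact h2

/-- Propagation of a commutator estimate away from the diagonal. -/
lemma spread (j δ c : ℕ) (hj : 1 ≤ j)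
    (hd : ∀ k, j < k → ⁅gm G k, gm G k⁆ ≤ gm G (min (2 * k + 1 + δ) (c + 1))) :
    ∀ (d a : ℕ), j < a → ⁅gm G a, gm G (a + d)⁆ ≤ gm G (min (a + (a + d) + δ) (c + 1)) := by
  intro d
  induction d using Nat.strong_induction_on with
  | _ d ih =>
    intro a ha
    rcases Nat.lt_or_ge d 2 with h | h
    · calc ⁅gm G a, gm G (a + d)⁆ ≤ ⁅gm G a, gm G a⁆ := commutator_mono le_rfl (gm_anti (by omega))
        _ ≤ gm G (min (2 * a + 1 + δ) (c + 1)) := hd a ha
        _ ≤ _ := gm_anti (by omega)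
    · obtain ⟨e, rfl⟩ : ∃ e, d = e + 2 := ⟨d - 2, by omega⟩
      have e1 : a + (e + 2) = (a + e + 1) + 1 := by ring
      rw [e1, gm_succ (show 1 ≤ a + e + 1 by omega), commutator_comm]
      apply three
      · rw [commutator_comm ⊤ (gm G a), ← gm_succ (show 1 ≤ a by omega)]
        have := ih e (by omega) (a + 1) (by omega)
        have e2 : a + 1 + e = a + e + 1 := by ring
        rw [e2] at this
        exact this.trans (gm_anti (by omega))
      · have h3 := ih (e + 1) (by omega) a ha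
        have e2 : a + (e + 1) = a + e + 1 := by ring
        rw [e2] at h3
        calc ⁅⁅gm G a, gm G (a + e + 1)⁆, (⊤ : Subgroup G)⁆
            ≤ ⁅gm G (min (a + (a + e + 1) + δ) (c + 1)), (⊤ : Subgroup G)⁆ :=
              commutator_mono h3 le_rfl
          _ = gm G (min (a + (a + e + 1) + δ) (c + 1) + 1) := by
              rw [gm_succ]
              omega
          _ ≤ _ := gm_anti (by omega)

lemma spread' {j δ c : ℕ} (hj : 1 ≤ j)
    (hd : ∀ k, j < k → ⁅gm G k, gm G k⁆ ≤ gm G (min (2 * k + 1 + δ) (c + 1)))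
    {a b : ℕ} (ha : j < a) (hb : j < b) :
    ⁅gm G a, gm G b⁆ ≤ gm G (min (a + b + δ) (c + 1)) := by
  rcases Nat.le_total a b with h | h
  · obtain ⟨d, rfl⟩ := Nat.exists_eq_add_of_le h
    exact spread j δ c hj hd d a ha
  · obtain ⟨d, rfl⟩ := Nat.exists_eq_add_of_le h
    rw [commutator_comm]
    have := spread j δ c hj hd d b hb
    exact this.trans (gm_anti (by omega))

/-- `[γ_a, γ_b] ≤ γ_(a+b)`. -/
lemma gm_comm : ∀ (b a : ℕ), 1 ≤ a → 1 ≤ b → ⁅gm G a, gm G b⁆ ≤ gm G (a + b) := by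
  intro b
  induction b with
  | zero => intro a _ h; omega
  | succ b ih =>
    intro a ha _
    rcases Nat.eq_zero_or_pos b with hb | hb
    · subst hb
      rw [show (0 + 1 : ℕ) = 1 from rfl, gm_one, ← gm_succ ha]
    · rw [gm_succ hb, commutator_comm]
      apply three
      · rw [commutator_comm ⊤ (gm G a), ← gm_succ ha]
        exact (ih (a + 1) (by omega) hb).trans (gm_anti (by omega))
      · calc ⁅⁅gm G a, gm G b⁆, (⊤ : Subgroup G)⁆ ≤ ⁅gm G (a + b), (⊤ : Subgroup G)⁆ :=
              commutator_mono (ih a ha hb) le_rfl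
          _ = gm G (a + b + 1) := by rw [gm_succ (by omega)]
          _ ≤ _ := gm_anti (by omega)

end Pool.TKB
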