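import Pool.Agent.TKB.Coord

/-!
# The core estimate

Leading structure constants satisfy the shift recursion and the Jacobi identity; a late
start of the leading part forces many jumps of the function `k ↦ [γ_k, γ_k]`.
-/

namespace Pool.TKB

open Subgroup
open scoped commutatorElement

namespace Coords

variable {G : Type*} [Group G] {p c : ℕ} (C : Coords G p c)

include C

lemma hw_co {m : ℕ} (h2 : 2 ≤ m) (hc : m ≤ c) {a b d : G} (h1 : ⁅⁅a⁻¹, b⁆, d⁆ ∈ gm G m)
    (h2' : ⁅⁅d⁻¹, a⁆, b⁆ ∈ gm G m) (h3 : ⁅⁅b⁻¹, d⁆, a⁆ ∈ gm G m) :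
    C.co m ⁅⁅a⁻¹, b⁆, d⁆ + C.co m ⁅⁅d⁻¹, a⁆, b⁆ + C.co m ⁅⁅b⁻¹, d⁆, a⁆ = 0 := by
  have hw := conj_commutatorElement_left_commutatorElement_mul a b d
  have hw' : (a * ⁅⁅a⁻¹, b⁆, d⁆ * a⁻¹) * ((d * ⁅⁅d⁻¹, a⁆, b⁆ * d⁻¹) *
      (b * ⁅⁅b⁻¹, d⁆, a⁆ * b⁻¹)) = 1 := by
    rw [← hw]
    simp only [mul_assoc]
  have m1 := (gm_normal (G := G) m).conj_mem _ h1 a
  have m2 := (gm_normal (G := G) m).conj_mem _ h2' d
  have m3 := (gm_normal (G := G) m).conj_mem _ h3 b
  have := C.co_one h2 hc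
  rw [← hw', C.co_mul m h2 hc _ m1 _ (mul_mem m2 m3), C.co_mul m h2 hc _ m2 _ m3,
    C.co_conj h2 hc h1, C.co_conj h2 hc h2', C.co_conj h2 hc h3] at this
  rw [← this]
  ring

end Coords

/-- Data for the leading part: a base `j`, a shift `δ`, a truncation level `c'`. -/
structure Lead (G : Type*) [Group G] (c j δ c' : ℕ) : Prop where
  hj : 1 ≤ j
  hc' : c' ≤ c
  hd : ∀ k, j < k → ⁅gm G k, gm G k⁆ ≤ gm G (min (2 * k + 1 + δ) (c' + 1))

namespace Lead

variable {G : Type*} [Group G] {p c j δ c' : ℕ} (C : Coords G p c) (D : Lead G c j δ c')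

include D in
lemma comm_le {a b : ℕ} (ha : j < a) (hb : j < b) :
    ⁅gm G a, gm G b⁆ ≤ gm G (min (a + b + δ) (c' + 1)) :=
  spread' D.hj D.hd ha hb

include D in
lemma comm_mem {a b : ℕ} (ha : j < a) (hb : j < b) (hab : a + b + δ ≤ c' + 1) {u v : G}
    (hu : u ∈ gm G a) (hv : v ∈ gm G b) : ⁅u, v⁆ ∈ gm G (a + b + δ) := by
  have h := D.comm_le ha hb
  rw [min_eq_left hab] at h
  exact h (commutator_mem_commutator hu hv)

variable [NeZero p]

include D in
lemma pair {a b : ℕ} (ha : j < a) (hb : j < b) (hab : a + b + δ ≤ c') {u v : G}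
    (hu : u ∈ gm G a) (hv : v ∈ gm G b) :
    C.co (a + b + δ) ⁅u, v⁆ = C.co a u * C.co b v * C.al δ a b := by
  have hj := D.hj
  have hc' := D.hc'
  apply C.pair_gen (by omega) (by omega) (by omega) (by omega) (by omega) (by omega) _ _ _ hu hv
  · have h := D.comm_le ha hb
    rwa [min_eq_left (by omega)] at h
  · have h := D.comm_le (show j < a + 1 by omega) hb
    exact h.trans (gm_anti (by omega))
  · have h := D.comm_le ha (show j < b + 1 by omega)
    exact h.trans (gm_anti (by omega))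

include D in
lemma al_self {a : ℕ} (ha : j < a) (hab : a + a + δ ≤ c') : C.al δ a a = 0 := by
  have hj := D.hj
  have hc' := D.hc'
  unfold Coords.al
  rw [commutatorElement_self]
  exact C.co_one (by omega) (by omega)

include D in
lemma al_anti {a b : ℕ} (ha : j < a) (hb : j < b) (hab : a + b + δ ≤ c') :
    C.al δ b a = - C.al δ a b := by
  have hj := D.hj
  have hc' := D.hc'
  unfold Coords.al
  rw [← commutatorElement_inv, show b + a + δ = a + b + δ by ring]
  exact C.co_inv (by omega) (by omega) (D.comm_mem ha hb (by omega)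
    (C.y_mem a (by omega) (by omega)) (C.y_mem b (by omega) (by omega)))

include D in
lemma al_rec {a b : ℕ} (ha : j < a) (hb : j < b) (hab : a + b + 1 + δ ≤ c') :
    C.al δ a b = C.al δ (a + 1) b + C.al δ a (b + 1) := by
  have hj := D.hj
  have hc' := D.hc'
  have hya := C.y_mem a (by omega) (by omega)
  have hyb := C.y_mem b (by omega) (by omega)
  have hm2 : 2 ≤ a + b + δ + 1 := by omega
  have hmc : a + b + δ + 1 ≤ c := by omega
  -- first term
  have w1 : ⁅(C.y a)⁻¹, C.y b⁆ ∈ gm G (a + b + δ) := D.comm_mem ha hb (by omega) (inv_mem hya) hyb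
  have t1 : C.co (a + b + δ + 1) ⁅⁅(C.y a)⁻¹, C.y b⁆, C.x⁆ = - C.al δ a b := by
    rw [C.co_x (by omega) hmc w1, D.pair C ha hb (by omega) (inv_mem hya) hyb,
      C.co_inv (by omega) (by omega) hya, C.co_y a (by omega) (by omega),
      C.co_y b (by omega) (by omega)]
    ring
  have m1 : ⁅⁅(C.y a)⁻¹, C.y b⁆, C.x⁆ ∈ gm G (a + b + δ + 1) := C.comm_top_mem (by omega) w1 _
  -- second term
  have hyx : ⁅C.y a, C.x⁆ ∈ gm G (a + 1) := C.comm_top_mem (by omega) hya _
  have w2 : ⁅C.x⁻¹, C.y a⁆ ∈ gm G (a + 1) := C.comm_top_mem' (by omega) hya _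
  have c2 : C.co (a + 1) ⁅C.x⁻¹, C.y a⁆ = 1 := by
    rw [commutatorElement_inv_left, C.co_conj' (by omega) (by omega) hyx,
      C.co_x (by omega) (by omega) hya, C.co_y a (by omega) (by omega)]
  have e2 : a + 1 + b + δ = a + b + δ + 1 := by ring
  have t2 : C.co (a + b + δ + 1) ⁅⁅C.x⁻¹, C.y a⁆, C.y b⁆ = C.al δ (a + 1) b := by
    have := D.pair C (show j < a + 1 by omega) hb (by omega) w2 hyb
    rw [e2, c2, C.co_y b (by omega) (by omega)] at this
    rw [this]
    ring
  have m2 : ⁅⁅C.x⁻¹, C.y a⁆, C.y b⁆ ∈ gm G (a + b + δ + 1) := by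
    have := D.comm_mem (show j < a + 1 by omega) hb (by omega) w2 hyb
    rwa [e2] at this
  -- third term
  have w3 : ⁅(C.y b)⁻¹, C.x⁆ ∈ gm G (b + 1) := C.comm_top_mem (by omega) (inv_mem hyb) _
  have c3 : C.co (b + 1) ⁅(C.y b)⁻¹, C.x⁆ = -1 := by
    rw [C.co_x (by omega) (by omega) (inv_mem hyb), C.co_inv (by omega) (by omega) hyb,
      C.co_y b (by omega) (by omega)]
  have e3 : b + 1 + a + δ = a + b + δ + 1 := by ring
  have t3 : C.co (a + b + δ + 1) ⁅⁅(C.y b)⁻¹, C.x⁆, C.y a⁆ = C.al δ a (b + 1) := by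
    have := D.pair C (show j < b + 1 by omega) ha (by omega) w3 hya
    rw [e3, c3, C.co_y a (by omega) (by omega)] at this
    rw [this, D.al_anti C ha (show j < b + 1 by omega) (by omega)]
    ring
  have m3 : ⁅⁅(C.y b)⁻¹, C.x⁆, C.y a⁆ ∈ gm G (a + b + δ + 1) := by
    have := D.comm_mem (show j < b + 1 by omega) ha (by omega) w3 hya
    rwa [e3] at this
  have hw := C.hw_co hm2 hmc m1 m2 m3
  rw [t1, t2, t3] at hw
  linear_combination -hw

include D in
lemma al_jac {a b d : ℕ} (ha : j < a) (hb : j < b) (hd : j < d)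
    (habd : a + b + d + δ + δ ≤ c') :
    C.al δ a b * C.al δ (a + b + δ) d + C.al δ d a * C.al δ (d + a + δ) b +
      C.al δ b d * C.al δ (b + d + δ) a = 0 := by
  have hj := D.hj
  have hc' := D.hc'
  -- one term
  have term : ∀ a b d : ℕ, j < a → j < b → j < d → a + b + d + δ + δ ≤ c' →
      C.co (a + b + d + δ + δ) ⁅⁅(C.y a)⁻¹, C.y b⁆, C.y d⁆
        = - (C.al δ a b * C.al δ (a + b + δ) d) ∧
      ⁅⁅(C.y a)⁻¹, C.y b⁆, C.y d⁆ ∈ gm G (a + b + d + δ + δ) := by
    intro a b d ha hb hd habd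
    have hya := C.y_mem a (by omega) (by omega)
    have hyb := C.y_mem b (by omega) (by omega)
    have hyd := C.y_mem d (by omega) (by omega)
    have w1 : ⁅(C.y a)⁻¹, C.y b⁆ ∈ gm G (a + b + δ) :=
      D.comm_mem ha hb (by omega) (inv_mem hya) hyb
    have c1 : C.co (a + b + δ) ⁅(C.y a)⁻¹, C.y b⁆ = - C.al δ a b := by
      rw [D.pair C ha hb (by omega) (inv_mem hya) hyb, C.co_inv (by omega) (by omega) hya,
        C.co_y a (by omega) (by omega), C.co_y b (by omega) (by omega)]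
      ring
    have e : a + b + δ + d + δ = a + b + d + δ + δ := by ring
    constructor
    · have := D.pair C (show j < a + b + δ by omega) hd (by omega) w1 hyd
      rw [e, c1, C.co_y d (by omega) (by omega)] at this
      rw [this]
      ring
    · have := D.comm_mem (show j < a + b + δ by omega) hd (by omega) w1 hyd
      rwa [e] at this
  have T1 := term a b d ha hb hd habd
  have T2 := term d a b hd ha hb (by omega)
  have T3 := term b d a hb hd ha (by omega)
  have e2 : d + a + b + δ + δ = a + b + d + δ + δ := by ring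
  have e3 : b + d + a + δ + δ = a + b + d + δ + δ := by ring
  rw [e2] at T2
  rw [e3] at T3
  have hw := C.hw_co (show 2 ≤ a + b + d + δ + δ by omega) (by omega) T1.2 T2.2 T3.2
  rw [T1.1, T2.1, T3.1] at hw
  linear_combination -hw

end Lead

/-- The core estimate in a group with coordinates. -/
theorem core {G : Type*} [Group G] {p c : ℕ} [Fact p.Prime] (C : Coords G p c) (hcp : c < p)
    {j δ c' κ A : ℕ} (hj : 1 ≤ j) (hc' : c' ≤ c)
    (hd : ∀ k, j < k → ⁅gm G k, gm G k⁆ ≤ gm G (min (2 * k + 1 + δ) (c' + 1)))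
    (hlow : ∀ k, j < k → k < κ → ⁅gm G k, gm G k⁆ ≤ gm G (min (2 * k + 2 + δ) (c' + 1)))
    (hκ : ¬ ⁅gm G κ, gm G κ⁆ ≤ gm G (2 * κ + 2 + δ)) (hjκ : j + A < κ)
    (hA : 2 * κ + 1 + δ + δ + j + A ≤ c') :
    ∃ K : Finset ℕ, A + 1 ≤ K.card ∧
      ∀ k ∈ K, κ ≤ k ∧ 2 * k + 1 + δ ≤ c' ∧ ¬ ⁅gm G k, gm G k⁆ ≤ gm G (2 * k + 2 + δ) := by
  have D : Lead G c j δ c' := ⟨hj, hc', hd⟩
  have hP : ∀ m : ℕ, 0 < m → m < p → (m : ZMod p) ≠ 0 := by
    intro m h0 hm h
    rw [ZMod.natCast_eq_zero_iff] at h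
    exact absurd (Nat.le_of_dvd h0 h) (by omega)
  have h0 : ∀ a, j < a → a + a ≤ c' - δ → C.al δ a a = 0 := by
    intro a ha hL
    exact D.al_self C ha (by omega)
  have hrec : ∀ a b, j < a → a < b → a + b + 1 ≤ c' - δ →
      C.al δ a b = C.al δ (a + 1) b + C.al δ a (b + 1) := by
    intro a b ha hab hL
    exact D.al_rec C ha (by omega) (by omega)
  have hlow' : ∀ k, j < k → k < κ → C.al δ k (k + 1) = 0 := by
    intro k hjk hkκ
    have hyk := C.y_mem k (by omega) (by omega)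
    have hyk1 := C.y_mem (k + 1) (by omega) (by omega)
    have h1 := hlow k hjk hkκ (commutator_mem_commutator hyk (gm_anti (by omega) hyk1))
    have h2 := D.comm_mem hjk (show j < k + 1 by omega) (by omega) hyk hyk1
    unfold Coords.al
    rw [C.co_zero _ (by omega) (by omega) _ h2]
    exact gm_anti (by omega) h1
  have hκ' : C.al δ κ (κ + 1) ≠ 0 := by
    intro hzero
    apply hκ
    have hdκ : ⁅gm G κ, gm G κ⁆ ≤ gm G (2 * κ + 1 + δ) := by
      have := hd κ (by omega)
      rwa [min_eq_left (by omega)] at this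
    have hyκ := C.y_mem κ (by omega) (by omega)
    have mem : ∀ {s t : G}, s ∈ gm G κ → t ∈ gm G κ → ⁅s, t⁆ ∈ gm G (2 * κ + 1 + δ) :=
      fun hs ht => hdκ (commutator_mem_commutator hs ht)
    have hm2 : 2 ≤ 2 * κ + 1 + δ := by omega
    have hmc : 2 * κ + 1 + δ ≤ c := by omega
    -- pairing with one entry one step deeper vanishes
    have e1 : κ + (κ + 1) + δ = 2 * κ + 1 + δ := by ring
    have z1 : ∀ s ∈ gm G κ, ∀ t ∈ gm G (κ + 1), C.co (2 * κ + 1 + δ) ⁅s, t⁆ = 0 := by
      intro s hs t ht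
      have := D.pair C (show j < κ by omega) (show j < κ + 1 by omega) (by omega) hs ht
      rw [e1, hzero] at this
      rw [this]
      ring
    have z2 : ∀ s ∈ gm G (κ + 1), ∀ t ∈ gm G κ, C.co (2 * κ + 1 + δ) ⁅s, t⁆ = 0 := by
      intro s hs t ht
      rw [← commutatorElement_inv, C.co_inv hm2 hmc (mem ht (gm_anti (by omega) hs)),
        z1 t ht s hs, neg_zero]
    rw [commutator_le]
    intro u hu v hv
    have key : C.co (2 * κ + 1 + δ) ⁅u, v⁆ = 0 := by
      have h1 : C.co (2 * κ + 1 + δ) ⁅u, v⁆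
          = C.co κ u * C.co (2 * κ + 1 + δ) ⁅C.y κ, v⁆ := by
        apply C.co_unique (by omega) (by omega) (fun w => C.co (2 * κ + 1 + δ) ⁅w, v⁆) _ _ hu
        · intro s hs t ht
          exact C.co_comm_mul_left hm2 hmc (mem hs hv) (mem ht hv)
        · intro s hs
          exact z2 s hs v hv
      have h2 : C.co (2 * κ + 1 + δ) ⁅C.y κ, v⁆
          = C.co κ v * C.co (2 * κ + 1 + δ) ⁅C.y κ, C.y κ⁆ := by
        apply C.co_unique (by omega) (by omega) (fun w => C.co (2 * κ + 1 + δ) ⁅C.y κ, w⁆) _ _ hv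
        · intro s hs t ht
          exact C.co_comm_mul_right hm2 hmc (mem hyκ hs) (mem hyκ ht)
        · intro s hs
          exact z1 _ hyκ s hs
      rw [h1, h2, commutatorElement_self, C.co_one hm2 hmc]
      ring
    have := (C.co_zero _ hm2 hmc _ (mem hu hv)).mp key
    exact gm_anti (by omega) this
  -- small values before the start vanish
  have hsmall : ∀ a b, j < a → a < b → a + b + δ ≤ c' → (b ≤ κ ∨ b = κ + 1) → a < κ →
      C.al δ a b = 0 := by
    intro a b ha hab hL hb haκ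
    have he := expand (C.al δ) j (c' - δ) h0 hrec (b - a) a ha (by omega)
    have e1 : a + (b - a) = b := by omega
    rw [e1] at he
    rw [he]
    apply Finset.sum_eq_zero
    intro k hk
    rw [Finset.mem_Ico] at hk
    rcases Nat.lt_or_ge k κ with h | h
    · rw [hlow' k (by omega) h]
      ring
    · rw [Nat.choose_eq_zero_of_lt (by omega)]
      simp
  have hvan : ∀ a, j < a → a ≤ j + A → C.al δ a (2 * κ + 1 + δ) = 0 := by
    intro a ha haA
    have hJ := D.al_jac C (show j < κ by omega) (show j < κ + 1 by omega) ha (by omega)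
    have s1 : C.al δ a κ = 0 := hsmall a κ ha (by omega) (by omega) (Or.inl le_rfl) (by omega)
    have s2 : C.al δ (κ + 1) a = 0 := by
      rw [D.al_anti C ha (show j < κ + 1 by omega) (by omega),
        hsmall a (κ + 1) ha (by omega) (by omega) (Or.inr rfl) (by omega), neg_zero]
    rw [s1, s2, zero_mul, zero_mul, add_zero, add_zero] at hJ
    have e1 : κ + (κ + 1) + δ = 2 * κ + 1 + δ := by ring
    rw [e1] at hJ
    have h3 := (mul_eq_zero.mp hJ).resolve_left hκ'
    have h4 := D.al_anti C (show j < 2 * κ + 1 + δ by omega) ha (by omega)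
    rw [h4, h3, neg_zero]
  obtain ⟨K, hK1, hK2⟩ := core_count hP (C.al δ) j (c' - δ) κ (2 * κ + 1 + δ) A h0 hrec hlow' hκ'
    (by omega) (by omega) hvan hjκ (by omega) (by omega)
  refine ⟨K, hK1, ?_⟩
  intro k hk
  obtain ⟨h1, h2, h3⟩ := hK2 k hk
  refine ⟨h1, by omega, ?_⟩
  intro hle
  apply h3
  have hyk := C.y_mem k (by omega) (by omega)
  have hyk1 := C.y_mem (k + 1) (by omega) (by omega)
  have h5 := D.comm_mem (show j < k by omega) (show j < k + 1 by omega) (by omega) hyk hyk1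
  unfold Coords.al
  rw [C.co_zero _ (by omega) (by omega) _ h5]
  have h6 := hle (commutator_mem_commutator hyk (gm_anti (by omega) hyk1))
  exact gm_anti (by omega) h6

end Pool.TKB
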