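import Mathlib

/-!
# The numerical argument

From the core estimate to a logarithmic bound on the number of iterates.
-/

namespace Pool.TKB

/-- The abstract situation: `f k` is the position of `[γ_k, γ_k]` (truncated at `c + 1`). -/
structure Pos (f : ℕ → ℕ) (c S : ℕ) : Prop where
  mono : Monotone f
  low : ∀ k, 2 ≤ k → 2 * k + 1 ≤ f k ∨ c < f k
  card : ∀ V : Finset ℕ, (∀ v ∈ V, v ≤ c ∧ ∃ k, 2 ≤ k ∧ f k = v) → V.card ≤ S
  core : ∀ j κ δ A c', 1 ≤ j → j + A < κ → f κ = 2 * κ + 1 + δ → c' ≤ c →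
    f κ + δ + j + A ≤ c' → (∀ k, j < k → 2 * k + 1 + δ ≤ f k ∨ c' < f k) →
    (∀ k, j < k → k < κ → 2 * k + 2 + δ ≤ f k ∨ c' < f k) →
    ∃ K : Finset ℕ, A + 1 ≤ K.card ∧ ∀ k ∈ K, κ ≤ k ∧ f k = 2 * k + 1 + δ ∧ f k ≤ c'

namespace Pos

variable {f : ℕ → ℕ} {c S : ℕ}

/-- A long plateau forces dense values after it. -/
lemma dense (h : Pos f c S) {j m : ℕ} (hj : 1 ≤ j) (hm : f (j + 1) = m) (hm' : f (j + 1 + S) = m)
    (hmc : m ≤ c) {c' : ℕ} (hc1 : m ≤ c') (hc2 : c' ≤ c) :
    ∃ v, v ≤ c' ∧ c' < v + m ∧ ∃ k, 2 ≤ k ∧ f k = v := by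
  classical
  have hplat : ∀ k, j + 1 ≤ k → k ≤ j + 1 + S → f k = m := by
    intro k h1 h2
    have a1 := h.mono h1
    have a2 := h.mono h2
    omega
  -- minimal shift
  have hex : ∃ δ, ∃ k, j < k ∧ f k ≤ c' ∧ f k = 2 * k + 1 + δ := by
    have := h.low (j + 1) (by omega)
    exact ⟨m - (2 * (j + 1) + 1), j + 1, by omega, by omega, by omega⟩
  set δ := Nat.find hex with hδ
  have hδs := Nat.find_spec hex
  rw [← hδ] at hδs
  have hδmin : ∀ k, j < k → f k ≤ c' → 2 * k + 1 + δ ≤ f k := by
    intro k hk hkc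
    have hl := h.low k (by omega)
    have := Nat.find_min' hex (m := f k - (2 * k + 1)) ⟨k, hk, hkc, by omega⟩
    rw [← hδ] at this
    omega
  set κ := Nat.find hδs with hκ
  have hκs := Nat.find_spec hδs
  rw [← hκ] at hκs
  have hκmin : ∀ k, j < k → f k ≤ c' → k < κ → 2 * k + 2 + δ ≤ f k := by
    intro k hk hkc hkκ
    have h1 := hδmin k hk hkc
    have h2 := Nat.find_min hδs (m := k) (by rw [← hκ]; exact hkκ)
    by_contra h3
    exact h2 ⟨hk, hkc, by omega⟩
  have hκS : j + 1 + S ≤ κ := by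
    by_contra hcon
    have h1 : f κ = m := hplat κ (by omega) (by omega)
    have h2 : f (κ + 1) = m := hplat (κ + 1) (by omega) (by omega)
    have h3 := hδmin (κ + 1) (by omega) (by omega)
    omega
  have hδle : 2 * (j + 1 + S) + 1 + δ ≤ m := by
    have := hδmin (j + 1 + S) (by omega) (by omega)
    omega
  refine ⟨f κ, hκs.2.1, ?_, κ, by omega, rfl⟩
  by_contra hcon
  have hA : f κ + δ + j + S ≤ c' := by omega
  obtain ⟨K, hK1, hK2⟩ := h.core j κ δ S c' hj (by omega) hκs.2.2 hc2 hA
    (fun k hk => by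
      rcases Nat.lt_or_ge c' (f k) with h1 | h1
      · exact Or.inr h1
      · exact Or.inl (hδmin k hk h1))
    (fun k hk hkκ => by
      rcases Nat.lt_or_ge c' (f k) with h1 | h1
      · exact Or.inr h1
      · exact Or.inl (hκmin k hk h1 hkκ))
  have hinj : Set.InjOn f (K : Set ℕ) := by
    intro a ha b hb hab
    have h1 := (hK2 a ha).2.1
    have h2 := (hK2 b hb).2.1
    have hab' : f a = f b := hab
    omega
  have hcard := h.card (K.image f) (by
    intro v hv
    rw [Finset.mem_image] at hv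
    obtain ⟨k, hk, rfl⟩ := hv
    have := hK2 k hk
    exact ⟨by omega, k, by omega, rfl⟩)
  rw [Finset.card_image_of_injOn hinj] at hcard
  omega

/-- A plateau longer than the number of values bounds the length. -/
lemma plateau (h : Pos f c S) {j m : ℕ} (hj : 1 ≤ j) (hm : f (j + 1) = m)
    (hm' : f (j + 1 + S) = m) (hmc : m ≤ c) : c < (S + 1) * m := by
  classical
  by_contra hcon
  push Not at hcon
  have hm0 : 0 < m := by
    have := h.low (j + 1) (by omega)
    omega
  -- choose values in the blocks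
  have hch : ∀ t, ∃ v, 1 ≤ t → t ≤ S + 1 → v ≤ t * m ∧ t * m < v + m ∧ ∃ k, 2 ≤ k ∧ f k = v := by
    intro t
    by_cases ht : 1 ≤ t ∧ t ≤ S + 1
    · have h1 : m ≤ t * m := Nat.le_mul_of_pos_left m ht.1
      have h2 : t * m ≤ c := (Nat.mul_le_mul_right m ht.2).trans hcon
      obtain ⟨v, hv⟩ := h.dense hj hm hm' hmc h1 h2
      exact ⟨v, fun _ _ => hv⟩
    · exact ⟨0, fun h1 h2 => absurd ⟨h1, h2⟩ ht⟩
  choose v hv using hch
  have hinj : Set.InjOn v ((Finset.Icc 1 (S + 1) : Finset ℕ) : Set ℕ) := by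
    intro a ha b hb hab
    rw [Finset.coe_Icc, Set.mem_Icc] at ha hb
    have h1 := hv a ha.1 ha.2
    have h2 := hv b hb.1 hb.2
    have hab' : v a = v b := hab
    rcases Nat.lt_trichotomy a b with hlt | heq | hgt
    · exfalso
      have : (a + 1) * m ≤ b * m := Nat.mul_le_mul_right m hlt
      rw [Nat.add_mul, one_mul] at this
      omega
    · exact heq
    · exfalso
      have : (b + 1) * m ≤ a * m := Nat.mul_le_mul_right m hgt
      rw [Nat.add_mul, one_mul] at this
      omega
  have hcard := h.card ((Finset.Icc 1 (S + 1)).image v) (by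
    intro w hw
    rw [Finset.mem_image] at hw
    obtain ⟨t, ht, rfl⟩ := hw
    rw [Finset.mem_Icc] at ht
    have h1 := hv t ht.1 ht.2
    refine ⟨?_, h1.2.2⟩
    exact h1.1.trans ((Nat.mul_le_mul_right m ht.2).trans hcon))
  rw [Finset.card_image_of_injOn hinj, Nat.card_Icc] at hcard
  omega

/-- Without long plateaus the indices with `f k ≤ c` are bounded. -/
lemma few (h : Pos f c S) {J : ℕ}
    (hnp : ∀ j, 1 ≤ j → j < J → f (j + 1) < f (j + 1 + S)) (hJ : f (J + 1) ≤ c) : J ≤ S * S := by
  classical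
  by_contra hcon
  push Not at hcon
  -- the values at 2 + i * S, i = 0, ..., S, are distinct
  have hstep : ∀ i, i < S → f (2 + i * S) < f (2 + (i + 1) * S) := by
    intro i hi
    have h1 : i * S ≤ (S - 1) * S := Nat.mul_le_mul_right S (by omega)
    have h1' : (S - 1) * S + S = S * S := by
      obtain ⟨s, rfl⟩ : ∃ s, S = s + 1 := ⟨S - 1, by omega⟩
      simp only [Nat.add_sub_cancel]
      ring
    have h2 := hnp (1 + i * S) (by omega) (by omega)
    have e1 : 1 + i * S + 1 = 2 + i * S := by ring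
    have e2 : 2 + i * S + S = 2 + (i + 1) * S := by ring
    rw [e1, e2] at h2
    exact h2
  have hstrict : ∀ i k, i + k ≤ S → 0 < k → f (2 + i * S) < f (2 + (i + k) * S) := by
    intro i k
    induction k with
    | zero => intro _ h; omega
    | succ k ih =>
      intro hk _
      rcases Nat.eq_zero_or_pos k with h0 | h0
      · subst h0
        exact hstep i (by omega)
      · exact (ih (by omega) h0).trans (hstep (i + k) (by omega))
  have hinj : Set.InjOn (fun i => f (2 + i * S)) ((Finset.range (S + 1) : Finset ℕ) : Set ℕ) := by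
    intro a ha b hb hab
    rw [Finset.coe_range, Set.mem_Iio] at ha hb
    simp only at hab
    rcases Nat.lt_trichotomy a b with hlt | heq | hgt
    · have := hstrict a (b - a) (by omega) (by omega)
      rw [show a + (b - a) = b by omega] at this
      omega
    · exact heq
    · have := hstrict b (a - b) (by omega) (by omega)
      rw [show b + (a - b) = a by omega] at this
      omega
  have hcard := h.card ((Finset.range (S + 1)).image (fun i => f (2 + i * S))) (by
    intro w hw
    rw [Finset.mem_image] at hw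
    obtain ⟨t, ht, rfl⟩ := hw
    rw [Finset.mem_range] at ht
    refine ⟨?_, 2 + t * S, by omega, rfl⟩
    have h1 : t * S ≤ S * S := Nat.mul_le_mul_right S (by omega)
    exact (h.mono (show 2 + t * S ≤ J + 1 by omega)).trans hJ)
  rw [Finset.card_image_of_injOn hinj, Finset.card_range] at hcard
  omega

/-- The iterates of `f` starting at `2`. -/
def it (f : ℕ → ℕ) : ℕ → ℕ
  | 0 => 2
  | n + 1 => f (it f n)

lemma it_two_le (h : Pos f c S) (hc : 1 ≤ c) : ∀ n, 2 ≤ it f n := by
  intro n
  induction n with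
  | zero => exact le_rfl
  | succ n ih =>
    have := h.low _ ih
    show 2 ≤ f (it f n)
    omega

lemma it_mono (h : Pos f c S) : ∀ n, it f n ≤ c → 2 ≤ it f n → 2 * it f n + 1 ≤ it f (n + 1) ∨
    c < it f (n + 1) := by
  intro n _ h2
  exact h.low _ h2

lemma it_pow (h : Pos f c S) (n : ℕ) : ∀ t, (∀ i, i ≤ n + t → it f i ≤ c) →
    2 ≤ it f n → 2 ^ t * it f n ≤ it f (n + t) := by
  intro t
  induction t with
  | zero => intro _ _; simp
  | succ t ih =>
    intro hall h2
    have h1 := ih (fun i hi => hall i (by omega)) h2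
    have hge : 2 ≤ it f (n + t) := by
      have : 1 * it f n ≤ 2 ^ t * it f n := Nat.mul_le_mul_right _ Nat.one_le_two_pow
      omega
    have h3 := h.low _ hge
    have h4 := hall (n + t + 1) (by omega)
    have h5 : it f (n + t + 1) = f (it f (n + t)) := rfl
    have h6 : it f (n + (t + 1)) = it f (n + t + 1) := rfl
    rw [h6, pow_succ]
    have : 2 ^ t * 2 * it f n = 2 * (2 ^ t * it f n) := by ring
    rw [this]
    omega

/-- After logarithmically many steps the iterates leave the range. -/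
theorem escape (h : Pos f c S) (hc : 1 ≤ c) (hS : 1 ≤ S) {r t : ℕ}
    (hr : S * S + 2 ≤ 2 ^ (r + 1)) (ht : S + 1 ≤ 2 ^ t) :
    ∃ i, i ≤ r + 1 + t ∧ c < it f i := by
  classical
  by_contra hcon
  push Not at hcon
  have hall : ∀ i, i ≤ r + 1 + t → it f i ≤ c := hcon
  have h2 : 2 ≤ it f 0 := le_rfl
  have hdr : 2 ^ (r + 1) ≤ it f r := by
    have := h.it_pow 0 r (fun i hi => hall i (by omega)) h2
    rw [zero_add] at this
    have e : 2 ^ r * it f 0 = 2 ^ (r + 1) := by
      show 2 ^ r * 2 = 2 ^ (r + 1)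
      rw [pow_succ]
    omega
  have hbig : S * S + 2 ≤ it f r := hr.trans hdr
  by_cases hex : ∃ j, 1 ≤ j ∧ f (j + 1) ≤ c ∧ f (j + 1) = f (j + 1 + S)
  · -- take the first long plateau
    set J := Nat.find hex with hJ
    have hJs := Nat.find_spec hex
    rw [← hJ] at hJs
    have hJmin : ∀ j, 1 ≤ j → j < J → f (j + 1) < f (j + 1 + S) := by
      intro j hj hjJ
      have h1 := Nat.find_min hex (m := j) (by rw [← hJ]; exact hjJ)
      have h2 : f (j + 1) ≤ c := (h.mono (by omega)).trans hJs.2.1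
      have h3 : f (j + 1) ≤ f (j + 1 + S) := h.mono (by omega)
      rcases Nat.lt_or_ge (f (j + 1)) (f (j + 1 + S)) with h4 | h4
      · exact h4
      · exact absurd ⟨hj, h2, le_antisymm h3 h4⟩ h1
    have hJS := h.few hJmin hJs.2.1
    have hpl := h.plateau (m := f (J + 1)) hJs.1 rfl hJs.2.2.symm hJs.2.1
    have h3 : f (J + 1) ≤ it f (r + 1) := h.mono (show J + 1 ≤ it f r by omega)
    have h4 : 2 ≤ it f (r + 1) := h.it_two_le hc _
    have h5 := h.it_pow (r + 1) t (fun i hi => hall i (by omega)) h4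
    have h6 : (S + 1) * f (J + 1) ≤ 2 ^ t * it f (r + 1) := Nat.mul_le_mul ht h3
    have h7 := hall (r + 1 + t) le_rfl
    omega
  · push Not at hex
    have hle : f (it f r) ≤ c := hall (r + 1) (by omega)
    have hJ : f (it f r - 1 + 1) ≤ c := by
      rw [show it f r - 1 + 1 = it f r by omega]
      exact hle
    have hfew := h.few (J := it f r - 1) (by
      intro j hj hjJ
      have h2 : f (j + 1) ≤ c := (h.mono (by omega)).trans hJ
      have h3 : f (j + 1) ≤ f (j + 1 + S) := h.mono (by omega)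
      exact lt_of_le_of_ne h3 (hex j hj h2)) hJ
    omega

end Pos

end Pool.TKB
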