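import Pool.Agent.TKB.Unif
import Pool.Agent.TKB.Core
import Pool.Agent.TKB.Num

/-!
# Normal subgroups of groups of maximal class, the position function
-/

namespace Pool.TKB

open Subgroup
open scoped commutatorElement

variable {G : Type*} [Group G]

/-- `[N K, G] ≤ N [K, G]` for normal subgroups. -/
lemma sup_comm_le {N K P : Subgroup G} [N.Normal] [K.Normal] [P.Normal] (hN : N ≤ P)
    (hK : ⁅K, (⊤ : Subgroup G)⁆ ≤ P) : ⁅N ⊔ K, (⊤ : Subgroup G)⁆ ≤ P := by
  rw [commutator_le]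
  intro a ha g _
  have ha' : a ∈ ((N ⊔ K : Subgroup G) : Set G) := ha
  rw [Subgroup.mul_normal] at ha'
  obtain ⟨n, hn, k, hk, rfl⟩ := Set.mem_mul.mp ha'
  rw [commutatorElement_mul_left_eq_conj_mul]
  have h1 : ⁅k, g⁆ ∈ P := hK (commutator_mem_commutator hk (mem_top g))
  have h2 : ⁅n, g⁆ ∈ P := by
    have e : ⁅n, g⁆ = n * (g * n⁻¹ * g⁻¹) := by simp [commutatorElement_def, mul_assoc]
    rw [e]
    exact hN (mul_mem hn (‹N.Normal›.conj_mem _ (inv_mem hn) g))
  exact mul_mem (‹P.Normal›.conj_mem _ h1 n) h2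

namespace MaxClass

variable {p c : ℕ} [hp : Fact p.Prime]

/-- Iterated commutators of an element of a normal subgroup with the uniform element. -/
lemma down {c₀ : ℕ} (C : Coords G p c₀) {N : Subgroup G} [N.Normal] {i : ℕ} (h2 : 2 ≤ i) :
    ∀ k, i + k ≤ c₀ → (∃ u ∈ N, u ∈ gm G i ∧ u ∉ gm G (i + 1)) →
      ∃ u ∈ N, u ∈ gm G (i + k) ∧ u ∉ gm G (i + k + 1) := by
  intro k
  induction k with
  | zero => intro _ h; exact h
  | succ k ih =>
    intro hk h
    obtain ⟨u, hu, hu1, hu2⟩ := ih (by omega) h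
    have m1 : ⁅u, C.x⁆ ∈ gm G (i + k + 1) := comm_mem_succ (i := i + k) (by omega) hu1 _
    have m2 : ⁅u, C.x⁆ ∉ gm G (i + k + 2) := move C (i := i + k) (by omega) (by omega) hu1 hu2
    refine ⟨⁅u, C.x⁆, ?_, m1, m2⟩
    have e : ⁅u, C.x⁆ = u * (C.x * u⁻¹ * C.x⁻¹) := by simp [commutatorElement_def, mul_assoc]
    rw [e]
    exact mul_mem hu (‹N.Normal›.conj_mem _ (inv_mem hu) _)

/-- If `N` contains an element of `γ_κ` outside `γ_(κ+1)` then it contains `γ_κ`. -/
lemma cover {c₀ : ℕ} (h : MaxClass G p c) (C : Coords G p c₀) {N : Subgroup G} [N.Normal] {κ : ℕ}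
    (h2 : 2 ≤ κ) (hκ : κ ≤ c₀) (hex : ∃ u ∈ N, u ∈ gm G κ ∧ u ∉ gm G (κ + 1)) :
    gm G κ ≤ N := by
  obtain ⟨w, hwN, hw1, hw2⟩ := hex
  have hcw : C.co κ w ≠ 0 := fun h0 => hw2 ((C.co_zero κ h2 hκ w hw1).mp h0)
  have hbase : gm G κ ≤ N ⊔ gm G (κ + 1) := by
    intro v hv
    set k := (C.co κ v / C.co κ w).val with hk
    have hkc : ((k : ℕ) : ZMod p) = C.co κ v / C.co κ w := ZMod.natCast_zmod_val _
    have hpk := pow_mem hw1 k
    have hv' : (w ^ k)⁻¹ * v ∈ gm G (κ + 1) := by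
      rw [← C.co_zero κ h2 hκ _ (mul_mem (inv_mem hpk) hv),
        C.co_mul κ h2 hκ _ (inv_mem hpk) _ hv, C.co_inv h2 hκ hpk, C.co_pow h2 hκ hw1, hkc,
        div_mul_cancel₀ _ hcw]
      ring
    have e : v = w ^ k * ((w ^ k)⁻¹ * v) := by group
    rw [e]
    exact mul_mem (mem_sup_left (pow_mem hwN k)) (mem_sup_right hv')
  have hstep : ∀ t, gm G (κ + t) ≤ N ⊔ gm G (κ + t + 1) := by
    intro t
    induction t with
    | zero => exact hbase
    | succ t ih =>
      rw [show κ + (t + 1) = κ + t + 1 by ring, gm_succ (show 1 ≤ κ + t by omega)]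
      calc ⁅gm G (κ + t), (⊤ : Subgroup G)⁆ ≤ ⁅N ⊔ gm G (κ + t + 1), (⊤ : Subgroup G)⁆ :=
            commutator_mono ih le_rfl
        _ ≤ N ⊔ gm G (κ + t + 1 + 1) := by
            apply sup_comm_le le_sup_left
            rw [← gm_succ (by omega)]
            exact le_sup_right
  have hall : ∀ t, gm G κ ≤ N ⊔ gm G (κ + t) := by
    intro t
    induction t with
    | zero => exact le_sup_right
    | succ t ih => exact ih.trans (sup_le le_sup_left (hstep t))
  have h3 := hall (c + 1)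
  have h4 : gm G (κ + (c + 1)) = ⊥ := by
    rw [eq_bot_iff, ← h.bot]
    exact gm_anti (by omega)
  rwa [h4, sup_bot_eq] at h3

/-- A normal subgroup outside `γ_2` contains an element of `γ_2` outside `γ_3`. -/
lemma start (h : MaxClass G p c) {N : Subgroup G} [N.Normal] (hN : ¬ N ≤ gm G 2) :
    ∃ u ∈ N, u ∈ gm G 2 ∧ u ∉ gm G 3 := by
  by_contra hcon
  push Not at hcon
  have h1 : ⁅N, (⊤ : Subgroup G)⁆ ≤ gm G 3 := by
    rw [commutator_le]
    intro n hn g _
    apply hcon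
    · have e : ⁅n, g⁆ = n * (g * n⁻¹ * g⁻¹) := by simp [commutatorElement_def, mul_assoc]
      rw [e]
      exact mul_mem hn (‹N.Normal›.conj_mem _ (inv_mem hn) g)
    · have := comm_mem_succ (G := G) (i := 1) le_rfl (by rw [gm_one]; exact mem_top n) g
      exact this
  have h2 := h.two_le
  have hfin := h.finite
  have h23 : ⁅gm G 2, (⊤ : Subgroup G)⁆ ≤ gm G 3 := by
    rw [← gm_succ (show 1 ≤ 2 by omega)]
  have h3 : ⁅gm G 2 ⊔ N, (⊤ : Subgroup G)⁆ ≤ gm G 3 := by
    rw [commutator_le]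
    intro a ha g _
    have ha' : a ∈ ((gm G 2 ⊔ N : Subgroup G) : Set G) := ha
    rw [Subgroup.mul_normal] at ha'
    obtain ⟨n, hn, k, hk, rfl⟩ := Set.mem_mul.mp ha'
    rw [commutatorElement_mul_left_eq_conj_mul]
    exact mul_mem ((gm_normal 3).conj_mem _ (h1 (commutator_mem_commutator hk (mem_top g))) n)
      (h23 (commutator_mem_commutator hn (mem_top g)))
  have hidx : (gm G 2 ⊔ N).index = 1 ∨ (gm G 2 ⊔ N).index = p := by
    have hle : gm G 2 ≤ gm G 2 ⊔ N := le_sup_left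
    have hmul := relIndex_mul_index hle
    rw [h.index_eq le_rfl (by omega)] at hmul
    have hrel : (gm G 2).relIndex (gm G 2 ⊔ N) ≠ 1 := by
      intro h'
      rw [relIndex_eq_one] at h'
      exact hN (le_sup_right.trans h')
    obtain ⟨k, hk, hk'⟩ := (Nat.dvd_prime_pow hp.out).mp (Dvd.intro_left _ hmul)
    rw [hk'] at hmul ⊢
    interval_cases k
    · left; simp
    · right; simp
    · exfalso
      apply hrel
      have h0 : 0 < p ^ 2 := pow_pos hp.out.pos 2
      exact Nat.eq_of_mul_eq_mul_right h0 (by rw [hmul, one_mul])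
  have h4 := comm_le_of_index (K := gm G 3) (N := gm G 2 ⊔ N) (p := p)
    ((gm_anti (by omega)).trans le_sup_left) h3 hidx
  have e : gm G 2 = ⁅(⊤ : Subgroup G), (⊤ : Subgroup G)⁆ := by
    have := gm_succ (G := G) (show 1 ≤ 1 from le_rfl)
    rwa [gm_one] at this
  rw [← e] at h4
  exact h.strict (by omega) h.two_le h4

/-- A normal subgroup not containing `γ_κ` is contained in `γ_(κ+1)`. -/
theorem dichotomy {c₀ : ℕ} (h : MaxClass G p c) (C : Coords G p c₀) {N : Subgroup G} [N.Normal]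
    {κ : ℕ} (h2 : 2 ≤ κ) (hκ : κ ≤ c₀) (hN : ¬ gm G κ ≤ N) : N ≤ gm G (κ + 1) := by
  classical
  by_contra hcon
  obtain ⟨u, huN, hu⟩ : ∃ u ∈ N, u ∉ gm G (κ + 1) := by
    by_contra h'
    push Not at h'
    exact hcon h'
  apply hN
  by_cases hN2 : N ≤ gm G 2
  · have hex : ∃ i, u ∉ gm G (i + 1) := ⟨κ, hu⟩
    set i := Nat.find hex with hi
    have hi1 := Nat.find_spec hex
    rw [← hi] at hi1
    have hiκ : i ≤ κ := Nat.find_min' hex hu
    have hi2 : 2 ≤ i := by
      by_contra hlt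
      push Not at hlt
      exact hi1 (gm_anti (by omega) (hN2 huN))
    have hi3 : u ∈ gm G i := by
      by_contra h'
      have := Nat.find_min hex (m := i - 1) (by omega)
      apply this
      rwa [show i - 1 + 1 = i by omega]
    obtain ⟨v, hv⟩ := down C (N := N) hi2 (κ - i) (by omega) ⟨u, huN, hi3, hi1⟩
    rw [show i + (κ - i) = κ by omega] at hv
    exact h.cover C h2 hκ ⟨v, hv⟩
  · obtain ⟨v, hv⟩ := down C (N := N) (i := 2) le_rfl (κ - 2) (by omega) (h.start hN2)
    rw [show 2 + (κ - 2) = κ by omega] at hv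
    exact h.cover C h2 hκ ⟨v, hv⟩

end MaxClass

open Classical in
/-- The position of `[γ_k, γ_k]`, truncated at `c + 1`. -/
noncomputable def pos (G : Type*) [Group G] (c k : ℕ) : ℕ :=
  Nat.findGreatest (fun m => ⁅gm G k, gm G k⁆ ≤ gm G m) (c + 1)

lemma pos_le (c k : ℕ) : pos G c k ≤ c + 1 := by
  classical
  exact Nat.findGreatest_le _

lemma pos_spec (c k : ℕ) : ⁅gm G k, gm G k⁆ ≤ gm G (pos G c k) := by
  classical
  have h0 : ⁅gm G k, gm G k⁆ ≤ gm G 0 := by rw [gm_zero]; exact le_top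
  exact Nat.findGreatest_spec (P := fun m => ⁅gm G k, gm G k⁆ ≤ gm G m) (Nat.zero_le (c + 1)) h0

lemma le_pos {c k m : ℕ} (hm : m ≤ c + 1) (h : ⁅gm G k, gm G k⁆ ≤ gm G m) : m ≤ pos G c k := by
  classical
  exact Nat.le_findGreatest hm h

lemma pos_mono (c : ℕ) : Monotone (pos G c) := by
  intro a b hab
  apply le_pos (pos_le c a)
  exact (commutator_mono (gm_anti hab) (gm_anti hab)).trans (pos_spec c a)

lemma diag_le {p c₀ : ℕ} [hp : Fact p.Prime] (C : Coords G p c₀) {k : ℕ} (h2 : 2 ≤ k)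
    (hk : 2 * k ≤ c₀) : ⁅gm G k, gm G k⁆ ≤ gm G (2 * k + 1) := by
  have hgen : ∀ a b : ℕ, 1 ≤ a → 1 ≤ b → ⁅gm G a, gm G b⁆ ≤ gm G (a + b) :=
    fun a b ha hb => gm_comm b a ha hb
  rw [commutator_le]
  intro u hu v hv
  have hkk : ⁅gm G k, gm G k⁆ ≤ gm G (2 * k) := by
    have := hgen k k (by omega) (by omega)
    rwa [← two_mul] at this
  have hco : C.co (2 * k) ⁅u, v⁆ = 0 := by
    have := C.pair_gen h2 (show k ≤ c₀ by omega) h2 (show k ≤ c₀ by omega)
      (show 2 ≤ 2 * k by omega) hk hkk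
      ((hgen (k + 1) k (by omega) (by omega)).trans (gm_anti (by omega)))
      ((hgen k (k + 1) (by omega) (by omega)).trans (gm_anti (by omega))) hu hv
    rw [this, commutatorElement_self, C.co_one (by omega) hk]
    ring
  exact (C.co_zero (2 * k) (by omega) hk _ (hkk (commutator_mem_commutator hu hv))).mp hco

/-- The position function satisfies the hypotheses of the numerical argument. -/
theorem pos_Pos {p c₀ S : ℕ} [hp : Fact p.Prime] (C : Coords G p c₀) (hcp : c₀ < p)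
    (hcard : ∀ V : Finset ℕ, (∀ v ∈ V, v ≤ c₀ ∧ ∃ k, 2 ≤ k ∧ pos G c₀ k = v) → V.card ≤ S) :
    Pos (pos G c₀) c₀ S := by
  refine ⟨pos_mono c₀, ?_, hcard, ?_⟩
  · intro k h2
    rcases Nat.lt_or_ge c₀ (2 * k) with h | h
    · right
      have h1 : ⁅gm G k, gm G k⁆ ≤ gm G (c₀ + 1) :=
        (gm_comm k k (by omega) (by omega)).trans (gm_anti (by omega))
      exact le_pos le_rfl h1
    · left
      exact le_pos (by omega) (diag_le C h2 h)
  · intro j κ δ A c' hj hjA hfκ hc' hA hd hlow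
    obtain ⟨K, hK1, hK2⟩ := core C hcp hj hc' (δ := δ) (κ := κ) (A := A)
      (fun k hk => (pos_spec c₀ k).trans (gm_anti (by have := hd k hk; omega)))
      (fun k hk hkκ => (pos_spec c₀ k).trans (gm_anti (by have := hlow k hk hkκ; omega)))
      (fun hle => by
        have := le_pos (c := c₀) (by omega) hle
        omega) hjA (by omega)
    refine ⟨K, hK1, ?_⟩
    intro k hk
    obtain ⟨h1, h2, h3⟩ := hK2 k hk
    have h4 : pos G c₀ k < 2 * k + 2 + δ := by
      by_contra hge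
      push Not at hge
      exact h3 ((pos_spec c₀ k).trans (gm_anti hge))
    have h5 := hd k (by omega)
    refine ⟨h1, by omega, by omega⟩

/-- The derived series is controlled by the iterates of the position function. -/
lemma derived_le (c : ℕ) : ∀ n, derivedSeries G (n + 1) ≤ gm G (Pos.it (pos G c) n) := by
  intro n
  induction n with
  | zero =>
    show ⁅derivedSeries G 0, derivedSeries G 0⁆ ≤ gm G 2
    rw [gm_succ (show 1 ≤ 1 from le_rfl), gm_one]
    exact commutator_mono le_top le_top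
  | succ n ih =>
    show ⁅derivedSeries G (n + 1), derivedSeries G (n + 1)⁆ ≤ gm G (pos G c (Pos.it (pos G c) n))
    exact (commutator_mono ih ih).trans (pos_spec c _)

end Pool.TKB
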