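import Pool.Agent.TKB.RepA

/-!
# Existence of simple representations, degree bounds
-/

namespace Pool.TKB

open CategoryTheory
open scoped commutatorElement

variable {G : Type} [Group G]

/-- Inside a representation on which `g` acts nontrivially there is an irreducible invariant
subspace on which `g` acts nontrivially. -/
lemma exists_irr [Finite G] {X : Type} [AddCommGroup X] [Module ℂ X] [FiniteDimensional ℂ X]
    (ρ : Representation ℂ G X) (g₀ : G) (h₀ : ∃ x, ρ g₀ x ≠ x) :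
    ∃ W : Submodule ℂ X, (∀ g, ∀ w ∈ W, ρ g w ∈ W) ∧ (∃ w ∈ W, ρ g₀ w ≠ w) ∧
      ∀ U : Submodule ℂ X, U ≤ W → (∀ g, ∀ w ∈ U, ρ g w ∈ U) → U = ⊥ ∨ U = W := by
  classical
  -- choose a subspace of minimal dimension
  have hex : ∃ n, ∃ W : Submodule ℂ X, Module.finrank ℂ W = n ∧
      (∀ g, ∀ w ∈ W, ρ g w ∈ W) ∧ (∃ w ∈ W, ρ g₀ w ≠ w) := by
    obtain ⟨x, hx⟩ := h₀
    exact ⟨_, ⊤, rfl, fun _ _ _ => Submodule.mem_top, x, Submodule.mem_top, hx⟩
  obtain ⟨W, hWn, hWinv, hWne⟩ := Nat.find_spec hex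
  refine ⟨W, hWinv, hWne, ?_⟩
  intro U hUW hUinv
  by_contra hcon
  push Not at hcon
  obtain ⟨hU0, hU1⟩ := hcon
  have hmin : ∀ U' : Submodule ℂ X, U' ≤ W → U' ≠ W → (∀ g, ∀ w ∈ U', ρ g w ∈ U') →
      ∀ w ∈ U', ρ g₀ w = w := by
    intro U' hle hne hinv w hw
    by_contra hw'
    have hlt : U' < W := lt_of_le_of_ne hle hne
    have h1 := Submodule.finrank_lt_finrank_of_lt hlt
    rw [hWn] at h1
    exact Nat.find_min hex h1 ⟨U', rfl, hinv, w, hw, hw'⟩
  -- a complement of U
  let Us : Subrepresentation ρ := ⟨U, fun g v hv => hUinv g v hv⟩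
  obtain ⟨Cs, hCs⟩ := exists_isCompl Us
  have hinf : U ⊓ Cs.toSubmodule = ⊥ := by
    have := hCs.inf_eq_bot
    exact congrArg Subrepresentation.toSubmodule this
  have hsup : U ⊔ Cs.toSubmodule = ⊤ := by
    have := hCs.sup_eq_top
    exact congrArg Subrepresentation.toSubmodule this
  have hC1 : Cs.toSubmodule ⊓ W ≠ W := by
    intro h
    have h1 : W ≤ Cs.toSubmodule := by
      rw [← h]
      exact inf_le_left
    apply hU0
    rw [← le_bot_iff, ← hinf]
    exact le_inf le_rfl (hUW.trans h1)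
  have htriv1 := hmin U hUW hU1 hUinv
  have htriv2 := hmin (Cs.toSubmodule ⊓ W) inf_le_right hC1 (fun g w hw =>
    ⟨Cs.apply_mem_toSubmodule g hw.1, hWinv g w hw.2⟩)
  obtain ⟨w, hw, hne⟩ := hWne
  apply hne
  have hwt : w ∈ U ⊔ Cs.toSubmodule := by rw [hsup]; exact Submodule.mem_top
  obtain ⟨u, hu, v, hv, rfl⟩ := Submodule.mem_sup.mp hwt
  have hvW : v ∈ W := by
    have : v = (u + v) - u := by abel
    rw [this]
    exact W.sub_mem hw (hUW hu)
  rw [map_add, htriv1 u hu, htriv2 v ⟨hv, hvW⟩]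

/-- For `g ∉ N`, `N` normal, there is a simple representation trivial on `N` and nontrivial at
`g`. -/
theorem exists_simple [Finite G] (N : Subgroup G) [N.Normal] (g₀ : G) (hg₀ : g₀ ∉ N) :
    ∃ V : FDRep ℂ G, Simple V ∧ (∀ n ∈ N, ∀ v : V, V.ρ n v = v) ∧ ∃ v : V, V.ρ g₀ v ≠ v := by
  classical
  have hfinq : Finite (G ⧸ N) := inferInstance
  have := Fintype.ofFinite (G ⧸ N)
  let ρ₀ : Representation ℂ G ((G ⧸ N) → ℂ) :=
    { toFun := fun g =>
        { toFun := fun f q => f (g⁻¹ • q)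
          map_add' := fun _ _ => rfl
          map_smul' := fun _ _ => rfl }
      map_one' := by
        apply LinearMap.ext
        intro f
        funext q
        show f ((1 : G)⁻¹ • q) = f q
        rw [inv_one, one_smul]
      map_mul' := by
        intro a b
        apply LinearMap.ext
        intro f
        funext q
        show f ((a * b)⁻¹ • q) = f (b⁻¹ • (a⁻¹ • q))
        rw [mul_inv_rev, mul_smul] }
  have hρ₀ : ∀ g f q, ρ₀ g f q = f (g⁻¹ • q) := fun _ _ _ => rfl
  have hN : ∀ n ∈ N, ∀ x, ρ₀ n x = x := by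
    intro n hn x
    funext q
    rw [hρ₀]
    congr 1
    induction q using QuotientGroup.induction_on with
    | H a =>
      show ((n⁻¹ * a : G) : G ⧸ N) = (a : G ⧸ N)
      rw [QuotientGroup.eq]
      have := ‹N.Normal›.conj_mem _ hn a⁻¹
      simpa [mul_assoc] using this
  have hg : ∃ x, ρ₀ g₀ x ≠ x := by
    refine ⟨Pi.single ((1 : G) : G ⧸ N) 1, ?_⟩
    intro h
    have h1 := congrFun h ((g₀ : G) : G ⧸ N)
    rw [hρ₀] at h1
    have h2 : g₀⁻¹ • ((g₀ : G) : G ⧸ N) = ((1 : G) : G ⧸ N) := by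
      show ((g₀⁻¹ * g₀ : G) : G ⧸ N) = _
      rw [inv_mul_cancel]
    have h3 : ((g₀ : G) : G ⧸ N) ≠ ((1 : G) : G ⧸ N) := by
      intro h4
      exact hg₀ ((QuotientGroup.eq_one_iff g₀).mp h4)
    rw [h2, Pi.single_eq_same, Pi.single_eq_of_ne h3] at h1
    exact one_ne_zero h1
  obtain ⟨W, hWinv, ⟨w, hw, hwne⟩, hWirr⟩ := exists_irr ρ₀ g₀ hg
  let ρW : Representation ℂ G W :=
    { toFun := fun g => (ρ₀ g).restrict (hWinv g)
      map_one' := by ext; simp
      map_mul' := fun x y => by ext; simp }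
  have hnt : Nontrivial W := by
    refine ⟨⟨⟨w, hw⟩, 0, ?_⟩⟩
    intro h
    have h1 : w = 0 := congrArg Subtype.val h
    apply hwne
    rw [h1, map_zero]
  refine ⟨FDRep.of ρW, ?_, ?_, ?_⟩
  · apply simple_of
    intro U hU
    have := hWirr (U.map W.subtype) (by
      rintro x ⟨y, _, rfl⟩
      exact y.2) (by
      rintro g x ⟨y, hy, rfl⟩
      exact ⟨ρW g y, hU g y hy, rfl⟩)
    rcases this with h | h
    · left
      rw [Submodule.eq_bot_iff]
      intro x hx
      have hx' : (x : (G ⧸ N) → ℂ) ∈ U.map W.subtype := ⟨x, hx, rfl⟩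
      rw [h, Submodule.mem_bot] at hx'
      exact Subtype.ext hx'
    · right
      rw [Submodule.eq_top_iff']
      intro x
      have hx : (x : (G ⧸ N) → ℂ) ∈ U.map W.subtype := by rw [h]; exact x.2
      obtain ⟨y, hy, hyx⟩ := hx
      have : y = x := Subtype.ext hyx
      rwa [← this]
  · intro n hn v
    apply Subtype.ext
    exact hN n hn _
  · refine ⟨(⟨w, hw⟩ : W), ?_⟩
    intro h
    exact hwne (congrArg Subtype.val h)

/-- Commuting operators have a common eigenvector. -/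
lemma common_eigen {X : Type} [AddCommGroup X] [Module ℂ X] [FiniteDimensional ℂ X]
    [Nontrivial X] (ρ : Representation ℂ G X) (A : Subgroup G)
    (hA : ∀ a ∈ A, ∀ b ∈ A, ∀ x, ρ a (ρ b x) = ρ b (ρ a x)) :
    ∃ v : X, v ≠ 0 ∧ ∀ a ∈ A, ∃ z : ℂ, ρ a v = z • v := by
  classical
  have hex : ∃ n, ∃ W : Submodule ℂ X, Module.finrank ℂ W = n ∧
      (∀ a ∈ A, ∀ w ∈ W, ρ a w ∈ W) ∧ W ≠ ⊥ :=
    ⟨_, ⊤, rfl, fun _ _ _ _ => Submodule.mem_top, top_ne_bot⟩
  obtain ⟨W, hWn, hWinv, hW0⟩ := Nat.find_spec hex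
  have hmin : ∀ U : Submodule ℂ X, U ≤ W → U ≠ ⊥ → (∀ a ∈ A, ∀ w ∈ U, ρ a w ∈ U) → U = W := by
    intro U hle hne hinv
    by_contra h
    have h1 := Submodule.finrank_lt_finrank_of_lt (lt_of_le_of_ne hle h)
    rw [hWn] at h1
    exact Nat.find_min hex h1 ⟨U, rfl, hinv, hne⟩
  obtain ⟨v, hvW, hv0⟩ := (Submodule.ne_bot_iff W).mp hW0
  refine ⟨v, hv0, ?_⟩
  intro a ha
  have hnt : Nontrivial W := by
    refine ⟨⟨⟨v, hvW⟩, 0, ?_⟩⟩
    intro h
    exact hv0 (congrArg Subtype.val h)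
  obtain ⟨μ, hμ⟩ := Module.End.exists_eigenvalue ((ρ a).restrict (hWinv a ha))
  obtain ⟨e, he⟩ := hμ.exists_hasEigenvector
  have he1 := he.apply_eq_smul
  have he0 := he.2
  let U : Submodule ℂ X :=
    { carrier := {w | w ∈ W ∧ ρ a w = μ • w}
      add_mem' := by
        rintro x y ⟨hx, hx'⟩ ⟨hy, hy'⟩
        exact ⟨W.add_mem hx hy, by rw [map_add, hx', hy', smul_add]⟩
      zero_mem' := ⟨W.zero_mem, by rw [map_zero, smul_zero]⟩
      smul_mem' := by
        rintro z x ⟨hx, hx'⟩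
        exact ⟨W.smul_mem z hx, by rw [map_smul, hx', smul_comm]⟩ }
  have hU : U = W := by
    apply hmin U (fun x hx => hx.1)
    · rw [Submodule.ne_bot_iff]
      refine ⟨(e : X), ⟨e.2, congrArg Subtype.val he1⟩, ?_⟩
      intro h
      apply he0
      exact Subtype.ext h
    · rintro b hb w ⟨hw1, hw2⟩
      refine ⟨hWinv b hb w hw1, ?_⟩
      rw [hA a ha b hb, hw2, map_smul]
  have hvU : v ∈ U := by rw [hU]; exact hvW
  exact ⟨μ, hvU.2⟩

lemma rho_comm_of_comm (V : FDRep ℂ G) {a b : G} (h : ∀ v : V, V.ρ ⁅a, b⁆ v = v) (x : V) :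
    V.ρ a (V.ρ b x) = V.ρ b (V.ρ a x) := by
  have e : a * b = ⁅a, b⁆ * (b * a) := by simp [commutatorElement_def, mul_assoc]
  have h1 : V.ρ (a * b) x = V.ρ (⁅a, b⁆ * (b * a)) x := by rw [← e]
  rw [map_mul, map_mul, Module.End.mul_apply, Module.End.mul_apply, h, map_mul,
    Module.End.mul_apply] at h1
  exact h1

/-- The degree of a simple representation is at most the index of a subgroup which is abelian
modulo the kernel. -/
theorem degree_le [Finite G] (V : FDRep ℂ G) [Simple V] (A : Subgroup G)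
    (hA : ∀ a ∈ A, ∀ b ∈ A, ∀ v : V, V.ρ ⁅a, b⁆ v = v) :
    Module.finrank ℂ V ≤ A.index := by
  classical
  have hnt := simple_nontrivial V
  obtain ⟨v, hv0, hv⟩ := common_eigen V.ρ A (fun a ha b hb x => rho_comm_of_comm V (hA a ha b hb) x)
  have hfin : Finite (G ⧸ A) := inferInstance
  have := Fintype.ofFinite (G ⧸ A)
  let S : Submodule ℂ V := Submodule.span ℂ (Set.range fun q : G ⧸ A => V.ρ q.out v)
  have key : ∀ g : G, V.ρ g v ∈ S := by
    intro g
    have ha : ((g : G ⧸ A).out)⁻¹ * g ∈ A := by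
      rw [← QuotientGroup.eq, QuotientGroup.out_eq']
    obtain ⟨z, hz⟩ := hv _ ha
    have e : V.ρ g v = z • V.ρ ((g : G ⧸ A).out) v := by
      rw [← map_smul, ← hz, ← Module.End.mul_apply, ← map_mul, mul_inv_cancel_left]
    rw [e]
    exact S.smul_mem _ (Submodule.subset_span ⟨(g : G ⧸ A), rfl⟩)
  have hinv : ∀ g, ∀ w ∈ S, V.ρ g w ∈ S := by
    intro g w hw
    induction hw using Submodule.span_induction with
    | mem x hx =>
      obtain ⟨q, rfl⟩ := hx
      have : V.ρ g (V.ρ q.out v) = V.ρ (g * q.out) v := by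
        rw [map_mul, Module.End.mul_apply]
      show V.ρ g (V.ρ q.out v) ∈ S
      rw [this]
      exact key _
    | zero => rw [map_zero]; exact S.zero_mem
    | add x y _ _ hx hy => rw [map_add]; exact S.add_mem hx hy
    | smul z x _ hx => rw [map_smul]; exact S.smul_mem _ hx
  have hne : S ≠ ⊥ := by
    rw [Submodule.ne_bot_iff]
    refine ⟨V.ρ 1 v, key 1, ?_⟩
    rw [map_one, Module.End.one_apply]
    exact hv0
  have htop : S = ⊤ := (simple_inv V S hinv).resolve_left hne
  have h1 : Module.finrank ℂ S ≤ Fintype.card (G ⧸ A) := finrank_range_le_card _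
  rw [htop, finrank_top] at h1
  rw [Subgroup.index, Nat.card_eq_fintype_card]
  exact h1

/-- A simple representation with a line stable under a normal subgroup `N` is trivial on the
commutators of `N`. -/
theorem trivial_of_line (V : FDRep ℂ G) [Simple V] (N : Subgroup G) [N.Normal]
    (L : Submodule ℂ V) (hL : Module.finrank ℂ L = 1) (hN : ∀ n ∈ N, L.map (V.ρ n) ≤ L) :
    ∀ n ∈ N, ∀ m ∈ N, ∀ v : V, V.ρ ⁅n, m⁆ v = v := by
  classical
  obtain ⟨v, hv0, hvspan⟩ := finrank_eq_one_iff'.mp hL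
  -- v is an eigenvector for N
  have heig : ∀ n ∈ N, ∃ z : ℂ, V.ρ n (v : V) = z • (v : V) := by
    intro n hn
    have h1 : V.ρ n (v : V) ∈ L := hN n hn ⟨v, v.2, rfl⟩
    obtain ⟨z, hz⟩ := hvspan ⟨_, h1⟩
    refine ⟨z, ?_⟩
    have := congrArg Subtype.val hz
    exact this.symm
  -- elements of G fixing the vector v
  let St : Subgroup G :=
    { carrier := {g | V.ρ g (v : V) = v}
      mul_mem' := by
        intro a b ha hb
        show V.ρ (a * b) (v : V) = v
        rw [map_mul, Module.End.mul_apply, hb, ha]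
      one_mem' := by
        show V.ρ 1 (v : V) = v
        rw [map_one, Module.End.one_apply]
      inv_mem' := by
        intro a ha
        have ha' : V.ρ a (v : V) = v := ha
        show V.ρ a⁻¹ (v : V) = v
        have h2 : V.ρ a⁻¹ (V.ρ a (v : V)) = v := by
          rw [← Module.End.mul_apply, ← map_mul, inv_mul_cancel, map_one, Module.End.one_apply]
        rwa [ha'] at h2 }
  have hcomm : ⁅N, N⁆ ≤ St := by
    rw [Subgroup.commutator_le]
    intro n hn m hm
    show V.ρ ⁅n, m⁆ (v : V) = v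
    obtain ⟨z1, h1⟩ := heig n hn
    obtain ⟨z2, h2⟩ := heig m hm
    have e0 : ⁅n, m⁆ * (m * n) = n * m := by simp [commutatorElement_def, mul_assoc]
    have ea : V.ρ (n * m) (v : V) = (z2 * z1) • (v : V) := by
      rw [map_mul, Module.End.mul_apply, h2, map_smul, h1, smul_smul]
    have eb : V.ρ (⁅n, m⁆ * (m * n)) (v : V) = (z1 * z2) • V.ρ ⁅n, m⁆ (v : V) := by
      rw [map_mul, Module.End.mul_apply, map_mul, Module.End.mul_apply, h1, map_smul, h2,
        smul_smul, map_smul]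
    have hz1 : z1 ≠ 0 := by
      rintro rfl
      rw [zero_smul] at h1
      have h3 : V.ρ n⁻¹ (V.ρ n (v : V)) = v := by
        rw [← Module.End.mul_apply, ← map_mul, inv_mul_cancel, map_one, Module.End.one_apply]
      rw [h1, map_zero] at h3
      exact hv0 (Subtype.ext h3.symm)
    have hz2 : z2 ≠ 0 := by
      rintro rfl
      rw [zero_smul] at h2
      have h3 : V.ρ m⁻¹ (V.ρ m (v : V)) = v := by
        rw [← Module.End.mul_apply, ← map_mul, inv_mul_cancel, map_one, Module.End.one_apply]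
      rw [h2, map_zero] at h3
      exact hv0 (Subtype.ext h3.symm)
    have e2 : (z1 * z2) • V.ρ ⁅n, m⁆ (v : V) = (z1 * z2) • (v : V) := by
      rw [← eb, e0, ea, mul_comm]
    exact smul_right_injective _ (mul_ne_zero hz1 hz2) e2
  -- the subspace fixed by [N, N]
  let W : Submodule ℂ V :=
    { carrier := {w | ∀ k ∈ ⁅N, N⁆, V.ρ k w = w}
      add_mem' := by
        intro a b ha hb k hk
        rw [map_add, ha k hk, hb k hk]
      zero_mem' := by
        intro k _
        rw [map_zero]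
      smul_mem' := by
        intro z a ha k hk
        rw [map_smul, ha k hk] }
  have hWinv : ∀ g, ∀ w ∈ W, V.ρ g w ∈ W := by
    intro g w hw k hk
    have hk' : g⁻¹ * k * g ∈ ⁅N, N⁆ := by
      have := (inferInstance : (⁅N, N⁆).Normal).conj_mem k hk g⁻¹
      rwa [inv_inv] at this
    have h1 := hw _ hk'
    have e : k * g = g * (g⁻¹ * k * g) := by group
    rw [← Module.End.mul_apply, ← map_mul, e, map_mul, Module.End.mul_apply, h1]
  have hWne : W ≠ ⊥ := by
    rw [Submodule.ne_bot_iff]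
    refine ⟨v, fun k hk => hcomm hk, ?_⟩
    intro h
    exact hv0 (Subtype.ext h)
  have hWtop : W = ⊤ := (simple_inv V W hWinv).resolve_left hWne
  intro n hn m hm x
  have hx : x ∈ W := by rw [hWtop]; exact Submodule.mem_top
  exact hx _ (Subgroup.commutator_mem_commutator hn hm)

end Pool.TKB
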