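import Pool.Agent.TKB.Defs
import Pool.Agent.TKB.Norm
import Pool.Agent.TKB.RepB

/-!
# Degrees of normally monomial groups of maximal class
-/

namespace Pool.TKB

open CategoryTheory Subgroup
open scoped commutatorElement

variable {G : Type} [Group G]

lemma finrank_of_induced [Finite G] {V : FDRep ℂ G} {N : Subgroup G} [DecidableEq (G ⧸ N)]
    (L : Submodule ℂ V) (hL : Module.finrank ℂ L = 1)
    (hint : DirectSum.IsInternal (fun q : G ⧸ N => L.map (V.ρ q.out))) :
    Module.finrank ℂ V = N.index := by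
  have hfin : Finite (G ⧸ N) := inferInstance
  have := Fintype.ofFinite (G ⧸ N)
  have hinj : ∀ g : G, Function.Injective (V.ρ g) := by
    intro g a b hab
    have h1 : ∀ x : V, V.ρ g⁻¹ (V.ρ g x) = x := by
      intro x
      rw [← Module.End.mul_apply, ← map_mul, inv_mul_cancel, map_one, Module.End.one_apply]
    rw [← h1 a, ← h1 b, hab]
  have hdim : ∀ q : G ⧸ N, Module.finrank ℂ (L.map (V.ρ q.out)) = 1 := by
    intro q
    rw [← LinearEquiv.finrank_eq (Submodule.equivMapOfInjective _ (hinj q.out) L)]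
    exact hL
  let e := LinearEquiv.ofBijective
    (DirectSum.coeLinearMap (fun q : G ⧸ N => L.map (V.ρ q.out))) hint
  rw [← LinearEquiv.finrank_eq e, Module.finrank_directSum]
  simp only [hdim]
  rw [Finset.sum_const, smul_eq_mul, mul_one, Finset.card_univ, Subgroup.index,
    Nat.card_eq_fintype_card]

lemma degree_le_card [Finite G] {d : ℕ} (hd : d ∈ cd G) : d ≤ Nat.card G := by
  obtain ⟨V, hV, rfl⟩ := hd
  have := degree_le V ⊥ (by
    intro a ha b _ v
    rw [Subgroup.mem_bot] at ha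
    subst ha
    rw [commutatorElement_one_left, map_one, Module.End.one_apply])
  rwa [Subgroup.index_bot] at this

lemma cd_finite [Finite G] : (cd G).Finite :=
  (Set.finite_Iic (Nat.card G)).subset fun _ hd => degree_le_card hd

lemma one_mem_cd [Finite G] : 1 ∈ cd G := by
  refine ⟨FDRep.of (Representation.trivial ℂ G ℂ), ?_, ?_⟩
  · apply simple_of
    intro W _
    exact eq_bot_or_eq_top W
  · exact Module.finrank_self ℂ

/-- A noncentral commutator gives a nonlinear character. -/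
lemma two_le_ncard [Finite G] {g : G} (hg : g ∈ ⁅(⊤ : Subgroup G), (⊤ : Subgroup G)⁆)
    (hg1 : g ≠ 1) : 2 ≤ (cd G).ncard := by
  classical
  obtain ⟨V, hV, _, v, hv⟩ := exists_simple (⊥ : Subgroup G) g (by simpa using hg1)
  have hne : Module.finrank ℂ V ≠ 1 := by
    intro h1
    apply hv
    have htr := trivial_of_line V ⊤ ⊤ (by rwa [finrank_top]) (fun _ _ => le_top)
    let Ker : Subgroup G := (V.ρ : G →* (V →ₗ[ℂ] V)).ker
    have hle : ⁅(⊤ : Subgroup G), (⊤ : Subgroup G)⁆ ≤ Ker := by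
      rw [commutator_le]
      intro a ha b hb
      rw [MonoidHom.mem_ker]
      apply LinearMap.ext
      intro x
      exact htr a ha b hb x
    have h2 := hle hg
    rw [MonoidHom.mem_ker] at h2
    rw [h2]
    rfl
  have hsub : ({1, Module.finrank ℂ V} : Set ℕ) ⊆ cd G := by
    intro d hd
    rcases hd with rfl | hd
    · exact one_mem_cd
    · rw [Set.mem_singleton_iff] at hd
      exact ⟨V, hV, hd.symm⟩
  have h3 := Set.ncard_le_ncard hsub cd_finite
  rwa [Set.ncard_pair (Ne.symm hne)] at h3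

/-- Each jump of the position function gives a character degree. -/
theorem degree_mem {p c c₀ : ℕ} [hp : Fact p.Prime] (h : MaxClass G p c) (C : Coords G p c₀)
    (hc₀ : c₀ ≤ c) (hNM : NormallyMonomial G) {κ : ℕ} (h2 : 2 ≤ κ) (hκ : κ ≤ c₀)
    (hpos : pos G c₀ κ ≤ c₀) (hjump : pos G c₀ κ < pos G c₀ (κ + 1)) :
    p ^ (κ + 1) ∈ cd G := by
  classical
  have hfin := h.finite
  have hnle : ¬ ⁅gm G κ, gm G κ⁆ ≤ gm G (pos G c₀ κ + 1) := by
    intro hle
    have := le_pos (c := c₀) (by omega) hle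
    omega
  obtain ⟨g, hg1, hg2⟩ := SetLike.not_le_iff_exists.mp hnle
  obtain ⟨V, hV, htriv, v, hv⟩ := exists_simple (gm G (pos G c₀ κ + 1)) g hg2
  obtain ⟨N, hN, L, hL1, hL2, hL3⟩ := hNM V hV
  have hcomm := trivial_of_line V N L hL1 hL2
  have hnot : ¬ gm G κ ≤ N := by
    intro hle
    apply hv
    let Ker : Subgroup G := (V.ρ : G →* (V →ₗ[ℂ] V)).ker
    have hle' : ⁅gm G κ, gm G κ⁆ ≤ Ker := by
      rw [commutator_le]
      intro a ha b hb
      rw [MonoidHom.mem_ker]
      apply LinearMap.ext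
      intro x
      exact hcomm a (hle ha) b (hle hb) x
    have h3 := hle' hg1
    rw [MonoidHom.mem_ker] at h3
    rw [h3]
    rfl
  have hNle := h.dichotomy C h2 hκ hnot
  have hdim : Module.finrank ℂ V = N.index :=
    @finrank_of_induced G _ _ V N (Classical.decEq (G ⧸ N)) L hL1 hL3
  have hidx := h.index_eq (show 2 ≤ κ + 1 by omega) (by omega)
  have hdvd : p ^ (κ + 1) ∣ Module.finrank ℂ V := by
    rw [hdim, ← hidx]
    exact Subgroup.index_dvd_of_le hNle
  have hle : Module.finrank ℂ V ≤ p ^ (κ + 1) := by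
    rw [← hidx]
    apply degree_le
    intro a ha b hb x
    apply htriv
    exact gm_anti hjump (pos_spec c₀ (κ + 1) (commutator_mem_commutator ha hb))
  have hpos' : 0 < Module.finrank ℂ V := by
    have := simple_nontrivial V
    exact Module.finrank_pos
  exact ⟨V, hV, le_antisymm hle (Nat.le_of_dvd hpos' hdvd)⟩

/-- The number of values of the position function is less than the number of degrees. -/
theorem card_values {p c c₀ : ℕ} [hp : Fact p.Prime] (h : MaxClass G p c) (C : Coords G p c₀)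
    (hc₀ : c₀ ≤ c) (hNM : NormallyMonomial G) (V : Finset ℕ)
    (hV : ∀ v ∈ V, v ≤ c₀ ∧ ∃ k, 2 ≤ k ∧ pos G c₀ k = v) : V.card ≤ (cd G).ncard - 1 := by
  classical
  have hfin := h.finite
  have hbound : ∀ k, 2 ≤ k → pos G c₀ k ≤ c₀ → k ≤ c₀ := by
    intro k h2 hk
    by_contra hcon
    push Not at hcon
    have h1 : ⁅gm G k, gm G k⁆ ≤ gm G (c₀ + 1) :=
      (gm_comm k k (by omega) (by omega)).trans (gm_anti (by omega))
    have := le_pos (c := c₀) le_rfl h1
    omega
  let κ : ℕ → ℕ := fun v => Nat.findGreatest (fun k => pos G c₀ k = v) c₀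
  have hκ : ∀ v ∈ V, pos G c₀ (κ v) = v ∧ 2 ≤ κ v ∧ κ v ≤ c₀ ∧ v < pos G c₀ (κ v + 1) := by
    intro v hv
    obtain ⟨hvc, k, h2, hk⟩ := hV v hv
    have hkc := hbound k h2 (by omega)
    have h1 : pos G c₀ (κ v) = v :=
      Nat.findGreatest_spec (P := fun k => pos G c₀ k = v) hkc hk
    have h3 : k ≤ κ v := Nat.le_findGreatest hkc hk
    have h4 : κ v ≤ c₀ := Nat.findGreatest_le _
    refine ⟨h1, by omega, h4, ?_⟩
    have h5 : v ≤ pos G c₀ (κ v + 1) :=
      h1.symm.le.trans (pos_mono c₀ (by omega))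
    have h6 : pos G c₀ (κ v + 1) ≠ v := by
      intro h7
      have h8 := hbound (κ v + 1) (by omega) (by omega)
      have h9 : κ v + 1 ≤ κ v := Nat.le_findGreatest (P := fun k => pos G c₀ k = v) h8 h7
      omega
    omega
  have hinj : Set.InjOn (fun v => p ^ (κ v + 1)) (V : Set ℕ) := by
    intro a ha b hb hab
    have h1 := Nat.pow_right_injective hp.out.two_le hab
    have h2 : κ a = κ b := by
      have h3 : κ a + 1 = κ b + 1 := h1
      omega
    rw [← (hκ a ha).1, ← (hκ b hb).1, h2]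
  have hsub : (fun v => p ^ (κ v + 1)) '' (V : Set ℕ) ⊆ cd G \ {1} := by
    rintro d ⟨v, hv, rfl⟩
    have h1 := hκ v hv
    have hv2 := hV v hv
    refine ⟨degree_mem h C hc₀ hNM h1.2.1 h1.2.2.1 (by omega) (by omega), ?_⟩
    rw [Set.mem_singleton_iff]
    exact (Nat.one_lt_pow (by omega) hp.out.one_lt).ne'
  have h1 := Set.ncard_le_ncard hsub (cd_finite.sdiff)
  rw [hinj.ncard_image, Set.ncard_coe_finset,
    Set.ncard_sdiff_singleton_of_mem one_mem_cd] at h1
  exact h1

/-- The derived length bound. -/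
theorem derived_bound {p c : ℕ} [hp : Fact p.Prime] (h : MaxClass G p c)
    (hNM : NormallyMonomial G) :
    derivedSeries G (3 * Nat.clog 2 (cd G).ncard + 1 + Nat.clog 2 (c / p + 1)) = ⊥ := by
  classical
  have hfin := h.finite
  have hc2 := h.two_le
  have hp2 := hp.out.two_le
  set c₀ := min c (p - 1) with hc₀
  have hc₀c : c₀ ≤ c := min_le_left _ _
  have hc₀p : c₀ < p := by
    have := min_le_right c (p - 1)
    omega
  obtain ⟨C⟩ := h.exists_coords hc₀c hc₀p
  set D := (cd G).ncard with hD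
  -- at least two degrees
  have hD2 : 2 ≤ D := by
    have hst := h.strict (show 1 ≤ 2 by omega) hc2
    obtain ⟨g, hg1, hg2⟩ := SetLike.not_le_iff_exists.mp hst
    have e : gm G 2 = ⁅(⊤ : Subgroup G), (⊤ : Subgroup G)⁆ := by
      have := gm_succ (G := G) (show 1 ≤ 1 from le_rfl)
      rwa [gm_one] at this
    rw [e] at hg1
    apply two_le_ncard hg1
    rintro rfl
    exact hg2 (one_mem _)
  have hPos : Pos (pos G c₀) c₀ (D - 1) :=
    pos_Pos C hc₀p (fun V hV => card_values h C hc₀c hNM V hV)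
  set b := Nat.clog 2 D with hb
  have hb1 : D ≤ 2 ^ b := Nat.le_pow_clog (by norm_num) D
  have hb0 : 1 ≤ b := by
    by_contra hlt
    have : b = 0 := by omega
    rw [this] at hb1
    omega
  have hr : (D - 1) * (D - 1) + 2 ≤ 2 ^ (2 * b - 1 + 1) := by
    have h1 : 2 * b - 1 + 1 = b + b := by omega
    rw [h1, pow_add]
    have h2 : D * D ≤ 2 ^ b * 2 ^ b := Nat.mul_le_mul hb1 hb1
    obtain ⟨E, hE⟩ : ∃ E, D = E + 2 := ⟨D - 2, by omega⟩
    rw [hE] at h2 ⊢
    have h3 : E + 2 - 1 = E + 1 := by omega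
    rw [h3]
    nlinarith
  have hc₀1 : 1 ≤ c₀ := by omega
  obtain ⟨i, hi, hesc⟩ := hPos.escape hc₀1 (by omega) (r := 2 * b - 1) (t := b) hr (by omega)
  have hder : derivedSeries G (3 * b + 1) ≤ gm G (c₀ + 1) := by
    calc derivedSeries G (3 * b + 1) ≤ derivedSeries G (i + 1) :=
          derivedSeries_antitone G (by omega)
      _ ≤ gm G (Pos.it (pos G c₀) i) := derived_le c₀ i
      _ ≤ gm G (c₀ + 1) := gm_anti hesc
  -- the remaining part
  have hrest : ∀ s, derivedSeries G (3 * b + 1 + s) ≤ gm G (2 ^ s * (c₀ + 1)) := by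
    intro s
    induction s with
    | zero => simpa using hder
    | succ s ih =>
      have h1 : 0 < 2 ^ s * (c₀ + 1) := Nat.mul_pos (pow_pos (by norm_num) _) (by omega)
      have e : 2 ^ (s + 1) * (c₀ + 1) = 2 ^ s * (c₀ + 1) + 2 ^ s * (c₀ + 1) := by ring
      rw [e]
      show ⁅derivedSeries G (3 * b + 1 + s), derivedSeries G (3 * b + 1 + s)⁆ ≤ _
      exact (commutator_mono ih ih).trans (gm_comm _ _ h1 h1)
  have hfinal := hrest (Nat.clog 2 (c / p + 1))
  rw [eq_bot_iff, ← h.bot]
  refine hfinal.trans (gm_anti ?_)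
  rcases Nat.lt_or_ge c p with hcp | hcp
  · have h1 : c₀ = c := by omega
    rw [h1]
    exact Nat.le_mul_of_pos_left _ (pow_pos (by norm_num) _)
  · have h1 : c₀ + 1 = p := by omega
    rw [h1]
    have h2 : c / p + 1 ≤ 2 ^ Nat.clog 2 (c / p + 1) := Nat.le_pow_clog (by norm_num) _
    have h3 : (c / p + 1) * p ≤ 2 ^ Nat.clog 2 (c / p + 1) * p := Nat.mul_le_mul_right p h2
    have h4 : c < (c / p + 1) * p := by
      rw [Nat.add_mul, one_mul]
      have := Nat.div_add_mod c p
      have h5 := Nat.mod_lt c hp.out.pos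
      rw [mul_comm] at this
      omega
    omega

end Pool.TKB
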