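import Mathlib

/-!
# Character degrees and normally monomial groups
-/

namespace Pool.TKB

/-- The set of degrees of the irreducible complex characters of `G`. -/
def cd (G : Type) [Group G] : Set ℕ :=
  {d : ℕ | ∃ V : FDRep ℂ G, CategoryTheory.Simple V ∧ Module.finrank ℂ V = d}

/-- `V` is induced from a one-dimensional representation of the subgroup `N`: there is a line `L`
in `V` stable under `N` such that `V` is the direct sum of the translates of `L` indexed by
`G / N`. -/
def InducedFromLine {G : Type} [Group G] (V : FDRep ℂ G) (N : Subgroup G) : Prop :=
  letI := Classical.decEq (G ⧸ N)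
  ∃ L : Submodule ℂ V, Module.finrank ℂ L = 1 ∧ (∀ n ∈ N, L.map (V.ρ n) ≤ L) ∧
    DirectSum.IsInternal (fun q : G ⧸ N => L.map (V.ρ q.out))

/-- `G` is normally monomial: every irreducible complex representation is induced from a
one-dimensional representation of a normal subgroup. -/
def NormallyMonomial (G : Type) [Group G] : Prop :=
  ∀ V : FDRep ℂ G, CategoryTheory.Simple V → ∃ N : Subgroup G, N.Normal ∧ InducedFromLine V N

end Pool.TKB
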