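import Mathlib

/-!
# Simple objects of `FDRep ℂ G` and irreducible representations
-/

namespace Pool.TKB

open CategoryTheory

variable {G : Type} [Group G]

/-- The morphism of `FDRep` given by an equivariant linear map. -/
noncomputable def mkHom {V W : FDRep ℂ G} (f : V →ₗ[ℂ] W)
    (hf : ∀ g (v : V), f (V.ρ g v) = W.ρ g (f v)) : V ⟶ W :=
  ⟨InducedCategory.homMk (ModuleCat.ofHom f), fun g => by
    ext v
    exact hf g v⟩

lemma mkHom_injective {V W : FDRep ℂ G} (f : V →ₗ[ℂ] W)
    (hf : ∀ g (v : V), f (V.ρ g v) = W.ρ g (f v)) (hinj : Function.Injective f) :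
    Mono (mkHom f hf) := by
  apply ConcreteCategory.mono_of_injective
  intro a b hab
  exact hinj hab

lemma mkHom_bijective {V W : FDRep ℂ G} (f : V →ₗ[ℂ] W)
    (hf : ∀ g (v : V), f (V.ρ g v) = W.ρ g (f v)) [IsIso (mkHom f hf)] :
    Function.Bijective f := by
  have h := ConcreteCategory.bijective_of_isIso (mkHom f hf)
  exact h

/-- A simple object has only trivial invariant subspaces. -/
theorem simple_inv (V : FDRep ℂ G) [Simple V] (W : Submodule ℂ V)
    (hW : ∀ g, ∀ w ∈ W, V.ρ g w ∈ W) : W = ⊥ ∨ W = ⊤ := by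
  by_cases hbot : W = ⊥
  · exact Or.inl hbot
  right
  let ρW : Representation ℂ G W :=
    { toFun := fun g => (V.ρ g).restrict (hW g)
      map_one' := by ext; simp
      map_mul' := fun x y => by ext; simp }
  let Y : FDRep ℂ G := FDRep.of ρW
  have hf : ∀ g (v : Y), W.subtype (Y.ρ g v) = V.ρ g (W.subtype v) := by
    intro g v
    rfl
  have hmono : Mono (mkHom (V := Y) (W := V) W.subtype hf) :=
    mkHom_injective _ _ W.injective_subtype
  have hne : mkHom (V := Y) (W := V) W.subtype hf ≠ 0 := by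
    intro h0
    apply hbot
    rw [Submodule.eq_bot_iff]
    intro x hx
    have h1 : ∀ y : Y, (W.subtype y : V) = 0 := by
      intro y
      have h2 := congrArg (fun (φ : Y ⟶ V) => (φ.hom.hom.hom : Y → V) y) h0
      exact h2
    exact h1 ⟨x, hx⟩
  have hiso : IsIso (mkHom (V := Y) (W := V) W.subtype hf) :=
    (Simple.mono_isIso_iff_nonzero _).mpr hne
  have hbij := mkHom_bijective (V := Y) (W := V) W.subtype hf
  rw [Submodule.eq_top_iff']
  intro x
  obtain ⟨y, hy⟩ := hbij.2 x
  rw [← hy]
  exact y.2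

lemma simple_nontrivial (V : FDRep ℂ G) [Simple V] : Nontrivial V := by
  by_contra h
  rw [not_nontrivial_iff_subsingleton] at h
  have h0 : 𝟙 V = 0 := by
    ext v
    exact Subsingleton.elim _ _
  exact id_nonzero V h0

/-- A nonzero representation with only trivial invariant subspaces is simple in `FDRep`. -/
theorem simple_of [Finite G] {X : Type} [AddCommGroup X] [Module ℂ X] [FiniteDimensional ℂ X]
    [Nontrivial X] (ρ : Representation ℂ G X)
    (h : ∀ W : Submodule ℂ X, (∀ g, ∀ w ∈ W, ρ g w ∈ W) → W = ⊥ ∨ W = ⊤) :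
    Simple (FDRep.of ρ) := by
  have hirr : Representation.IsIrreducible ρ := by
    have hnt : Nontrivial (Subrepresentation ρ) := by
      refine ⟨⟨⊥, ⊤, ?_⟩⟩
      intro hbt
      have h1 : (⊥ : Submodule ℂ X) = ⊤ := congrArg Subrepresentation.toSubmodule hbt
      exact bot_ne_top h1
    refine ⟨?_⟩
    intro W
    rcases h W.toSubmodule (fun g w hw => W.apply_mem_toSubmodule g hw) with h1 | h1
    · left
      apply Subrepresentation.toSubmodule_injective
      exact h1
    · right
      apply Subrepresentation.toSubmodule_injective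
      exact h1
  rw [FDRep.simple_iff_end_is_rank_one]
  have e1 := (FDRep.forget₂HomLinearEquiv (FDRep.of ρ) (FDRep.of ρ)).symm
  have e2 := Rep.homLinearEquiv ((forget₂ (FDRep ℂ G) (Rep ℂ G)).obj (FDRep.of ρ))
    ((forget₂ (FDRep ℂ G) (Rep ℂ G)).obj (FDRep.of ρ))
  rw [LinearEquiv.finrank_eq e1, LinearEquiv.finrank_eq e2]
  exact Representation.IsIrreducible.finrank_intertwiningMap_self ρ

end Pool.TKB
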