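import Pool.Agent.TKB.Power

/-!
# All two-step centralizers coincide in long groups; growth of the position function
-/

namespace Pool.TKB

open Subgroup
open scoped commutatorElement

variable {G : Type*} [Group G] {p c : ℕ} [hp : Fact p.Prime]

namespace MaxClass

/-- All two-step centralizers coincide if the class is at least `2 * p + 1`. -/
theorem tsc_all (h : MaxClass G p c) (hc : 2 * p + 1 ≤ c) :
    ∀ N, 2 * p - 1 ≤ N → N + 1 ≤ c → ∀ i, 2 ≤ i → i ≤ N → tsc G 2 ≤ tsc G i := by
  classical
  have hp2 := hp.out.two_le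
  intro N hN
  induction N, hN using Nat.le_induction with
  | base =>
    intro _ i h2 hi
    exact h.tsc_small hc i h2 hi
  | succ N hN ih =>
    intro hNc i h2 hi
    have ih' := ih (by omega)
    rcases Nat.lt_or_ge i (N + 1) with h1 | h1
    · exact ih' i h2 (by omega)
    have hiN : i = N + 1 := by omega
    subst hiN
    -- a uniform element
    obtain ⟨x, hx2⟩ : ∃ x, x ∉ tsc G 2 := by
      by_contra hcon
      push Not at hcon
      exact h.tsc_ne_top (show 1 ≤ 2 by omega) (by omega) (eq_top_iff.mpr (fun g _ => hcon g))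
    have hx : ∀ i, 2 ≤ i → i ≤ N → x ∉ tsc G i := fun i h2 hi =>
      h.not_mem_tsc h2 (by omega) (ih' i h2 hi) hx2
    obtain ⟨t, ht0, htp, hpow, hpow'⟩ := h.powT (e := N + 1 - p) (N := N) (by omega) (by omega)
      (by omega) hx
    set e := N + 1 - p with he
    have hep : p ≤ e := by omega
    -- walk from `e` to `N + 1 - t`
    have hwalk : ∀ s, e + s + t ≤ N + 1 → (∀ u ∈ gm G (e + s), u ^ p ∈ gm G (e + s + t)) ∧
        ∃ v ∈ gm G (e + s), v ∉ gm G (e + s + 1) ∧ v ^ p ∉ gm G (e + s + t + 1) := by
      intro s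
      induction s with
      | zero =>
        intro _
        obtain ⟨v, hv, hv'⟩ := h.exists_gen (show 1 ≤ e by omega) (by omega)
        exact ⟨hpow, v, hv, hv', hpow' v hv hv'⟩
      | succ s ihs =>
        intro hs
        obtain ⟨a1, v, hv, hv', hvp⟩ := ihs (by omega)
        have hdown := pow_down (G := G) (p := p) (i := e + s) (t := t) (by omega) (by omega) a1
        have hmove : ⁅v, x⁆ ∉ gm G (e + s + 2) := by
          intro h3
          exact hx (e + s) (by omega) (by omega)
            (h.mem_tsc_of (by omega) (by omega) hv hv' h3)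
        have hmove2 : ⁅v ^ p, x⁆ ∉ gm G (e + s + t + 2) := by
          intro h3
          exact hx (e + s + t) (by omega) (by omega)
            (h.mem_tsc_of (by omega) (by omega) (a1 v hv) hvp h3)
        have h4 : ⁅v, ⁅v, x⁆⁆ ∈ gm G (e + s + (e + s + 1)) :=
          gm_comm (e + s + 1) (e + s) (by omega) (by omega)
            (commutator_mem_commutator hv (comm_mem_succ (by omega) hv x))
        refine ⟨?_, ⁅v, x⁆, comm_mem_succ (by omega) hv x, hmove, ?_⟩
        · intro u hu
          have := hdown u hu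
          rwa [show e + s + t + 1 = e + (s + 1) + t by ring] at this
        · rw [show e + (s + 1) + t + 1 = e + s + t + 2 by ring]
          rw [pow_comm_iff (gm_anti (show e + s + t + 2 ≤ e + s + (e + s + 1) by omega)) h4]
            at hmove2
          exact hmove2
    obtain ⟨b1, v, hv, hv', hvp⟩ := hwalk (p - t) (by omega)
    set e' := e + (p - t) with he'
    have he't : e' + t = N + 1 := by omega
    rw [he't] at b1 hvp
    have d1 := pow_down (G := G) (p := p) (i := e') (t := t) (by omega) (by omega)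
      (by rw [he't]; exact b1)
    have d2 := pow_down (G := G) (p := p) (i := e' + 1) (t := t) (by omega) (by omega)
      (by rw [show e' + 1 + t = e' + t + 1 by ring]; exact d1)
    intro y hy
    apply h.mem_tsc_of h2 (by omega) (b1 v hv) hvp
    have hy' : ⁅v, y⁆ ∈ gm G (e' + 2) := ih' e' (by omega) (by omega) hy v hv
    have h4 : ⁅v, ⁅v, y⁆⁆ ∈ gm G (e' + (e' + 2)) :=
      gm_comm (e' + 2) e' (by omega) (by omega) (commutator_mem_commutator hv hy')
    rw [pow_comm_iff (gm_anti (show N + 1 + 2 ≤ e' + (e' + 2) by omega)) h4]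
    have h5 := d2 _ hy'
    exact gm_anti (by omega) h5

/-- A uniform element for all levels. -/
theorem exists_uniform_all (h : MaxClass G p c) (hc : 2 * p + 1 ≤ c) :
    ∃ x : G, ∀ i, 2 ≤ i → i + 1 ≤ c → x ∉ tsc G i := by
  have hp2 := hp.out.two_le
  obtain ⟨x, hx2⟩ : ∃ x, x ∉ tsc G 2 := by
    by_contra hcon
    push Not at hcon
    exact h.tsc_ne_top (show 1 ≤ 2 by omega) (by omega) (eq_top_iff.mpr (fun g _ => hcon g))
  exact ⟨x, fun i h2 hi => h.not_mem_tsc h2 hi
    (h.tsc_all hc (c - 1) (by omega) (by omega) i h2 (by omega)) hx2⟩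

/-- One step in the list of values of the position function. -/
theorem next_value (h : MaxClass G p c) (hc : 2 * p + 1 ≤ c) (C : Coords G p c) {a : ℕ}
    (ha : p + 1 ≤ a) (hv : pos G c a + 2 * p ≤ c) :
    ∃ a', a < a' ∧ pos G c a < pos G c a' ∧ pos G c a' ≤ pos G c a + 2 * p := by
  classical
  have hp2 := hp.out.two_le
  obtain ⟨x, hx⟩ := h.exists_uniform_all hc
  set v := pos G c a with hvdef
  have hva : 2 * a ≤ v := by
    apply le_pos
    · by_contra hcon
      push Not at hcon
      have h1 : ⁅gm G a, gm G a⁆ ≤ gm G (c + 1) :=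
        (gm_comm a a (by omega) (by omega)).trans (gm_anti (by omega))
      have := le_pos (c := c) le_rfl h1
      omega
    · have := gm_comm (G := G) a a (by omega) (by omega)
      rwa [← two_mul] at this
  have hspec := pos_spec (G := G) c a
  rw [← hvdef] at hspec
  have hnot : ¬ ⁅gm G a, gm G a⁆ ≤ gm G (v + 1) := by
    intro h1
    have := le_pos (c := c) (by omega) h1
    omega
  have hT : ∀ e, p ≤ e → e + p ≤ c → ∃ t, 1 ≤ t ∧ t ≤ p ∧ (∀ u ∈ gm G e, u ^ p ∈ gm G (e + t)) ∧
      ∀ u ∈ gm G e, u ∉ gm G (e + 1) → u ^ p ∉ gm G (e + t + 1) := fun e he hec =>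
    h.powT (e := e) (N := e + p - 1) he (by omega) (by omega)
      (fun i h2 hi => hx i h2 (by omega))
  -- powers of elements of a factor are one step deeper
  have hpp : ∀ i, 2 ≤ i → i ≤ c → ∀ u ∈ gm G i, u ^ p ∈ gm G (i + 1) :=
    fun i h2 hi u hu => h.pow_mem_succ h2 hi hu
  obtain ⟨t, ht0, htp, ht1, ht2⟩ := hT a (by omega) (by omega)
  refine ⟨a + t, by omega, ?_, ?_⟩
  · -- the commutator subgroup gets smaller
    let M : Subgroup G :=
      { carrier := {g | ∀ w ∈ gm G a, ⁅g, w⁆ ∈ gm G (v + 1)}
        mul_mem' := by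
          intro g k hg hk w hw
          rw [commutatorElement_mul_left_eq_conj_mul]
          exact mul_mem ((gm_normal (v + 1)).conj_mem _ (hk w hw) g) (hg w hw)
        one_mem' := by
          intro w _
          rw [commutatorElement_one_left]
          exact one_mem _
        inv_mem' := by
          intro g hg w hw
          rw [commutatorElement_inv_left, ← commutatorElement_inv g w]
          have := (gm_normal (v + 1)).conj_mem _ (inv_mem (hg w hw)) g⁻¹
          rwa [inv_inv] at this }
    have hM : M.Normal := by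
      refine ⟨?_⟩
      intro g hg k w hw
      have e1 : ⁅k * g * k⁻¹, w⁆ = k * ⁅g, k⁻¹ * w * k⁆ * k⁻¹ := by
        simp only [commutatorElement_def]
        group
      rw [e1]
      apply (gm_normal (v + 1)).conj_mem
      apply hg
      have := (gm_normal a).conj_mem _ hw k⁻¹
      rwa [inv_inv] at this
    have hMp : ∀ u ∈ gm G a, u ^ p ∈ M := by
      intro u hu w hw
      have h1 : ⁅u, w⁆ ∈ gm G v := hspec (commutator_mem_commutator hu hw)
      have h2 : ⁅u, ⁅u, w⁆⁆ ∈ gm G (a + v) :=
        gm_comm v a (by omega) (by omega) (commutator_mem_commutator hu h1)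
      rw [pow_comm_iff (gm_anti (show v + 1 ≤ a + v by omega)) h2]
      exact hpp v (by omega) (by omega) _ h1
    have hcov : gm G (a + t) ≤ M := by
      by_contra hcon
      have h1 := h.dichotomy C (N := M) (κ := a + t) (by omega) (by omega) hcon
      obtain ⟨u, hu, hu'⟩ := h.exists_gen (show 1 ≤ a by omega) (by omega)
      exact ht2 u hu hu' (h1 (hMp u hu))
    have h1 : ⁅gm G (a + t), gm G (a + t)⁆ ≤ gm G (v + 1) := by
      rw [commutator_le]
      intro g hg w hw
      exact hcov hg w (gm_anti (by omega) hw)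
    have := le_pos (c := c) (by omega) h1
    omega
  · -- but not too much
    rw [commutator_le] at hnot
    push Not at hnot
    obtain ⟨u, hu, w, hw, huw⟩ := hnot
    have hz : ⁅u, w⁆ ∈ gm G v := hspec (commutator_mem_commutator hu hw)
    obtain ⟨t1, _, ht1p, hA1, hB1⟩ := hT v (by omega) (by omega)
    -- first power
    have h2 : ⁅u, ⁅u, w⁆⁆ ∈ gm G (a + v) :=
      gm_comm v a (by omega) (by omega) (commutator_mem_commutator hu hz)
    have f1 : ⁅u ^ p, w⁆ ∈ gm G (v + t1) := by
      rw [pow_comm_iff (gm_anti (show v + t1 ≤ a + v by omega)) h2]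
      exact hA1 _ hz
    have f2 : ⁅u ^ p, w⁆ ∉ gm G (v + t1 + 1) := by
      rw [pow_comm_iff (gm_anti (show v + t1 + 1 ≤ a + v by omega)) h2]
      exact hB1 _ hz huw
    -- second power
    obtain ⟨t2, _, ht2p, hA2, hB2⟩ := hT (v + t1) (by omega) (by omega)
    have g1 : ⁅w, u ^ p⁆ ∈ gm G (v + t1) := by
      rw [← commutatorElement_inv]
      exact inv_mem f1
    have g2 : ⁅w, u ^ p⁆ ∉ gm G (v + t1 + 1) := by
      intro h3
      apply f2
      rw [← commutatorElement_inv]
      exact inv_mem h3
    have h3 : ⁅w, ⁅w, u ^ p⁆⁆ ∈ gm G (a + (v + t1)) :=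
      gm_comm (v + t1) a (by omega) (by omega) (commutator_mem_commutator hw g1)
    have f3 : ⁅w ^ p, u ^ p⁆ ∉ gm G (v + t1 + t2 + 1) := by
      rw [pow_comm_iff (gm_anti (show v + t1 + t2 + 1 ≤ a + (v + t1) by omega)) h3]
      exact hB2 _ g1 g2
    by_contra hcon
    push Not at hcon
    apply f3
    have h4 := pos_spec (G := G) c (a + t)
      (commutator_mem_commutator (ht1 w hw) (ht1 u hu))
    exact gm_anti (by omega) h4

/-- Many values of the position function. -/
theorem many_values (h : MaxClass G p c) (hc : 2 * p + 1 ≤ c) (C : Coords G p c) :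
    ∀ m, pos G c (p + 1) + 2 * p * m ≤ c →
      ∃ V : Finset ℕ, V.card = m + 1 ∧ (∀ v ∈ V, v ≤ c ∧ ∃ k, 2 ≤ k ∧ pos G c k = v) ∧
        ∃ a, p + 1 ≤ a ∧ pos G c a ≤ pos G c (p + 1) + 2 * p * m ∧ ∀ v ∈ V, v ≤ pos G c a := by
  classical
  have hp2 := hp.out.two_le
  intro m
  induction m with
  | zero =>
    intro hm
    refine ⟨{pos G c (p + 1)}, by simp, ?_, p + 1, le_rfl, by omega, by simp⟩
    intro v hv
    rw [Finset.mem_singleton] at hv
    exact ⟨by omega, p + 1, by omega, hv.symm⟩
  | succ m ih =>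
    intro hm
    rw [Nat.mul_succ] at hm
    obtain ⟨V, hV, hV1, a, ha, ha1, ha2⟩ := ih (by omega)
    obtain ⟨a', haa, hlt, hle⟩ := h.next_value hc C ha (by omega)
    refine ⟨insert (pos G c a') V, ?_, ?_, a', by omega, ?_, ?_⟩
    · rw [Finset.card_insert_of_notMem, hV]
      intro hmem
      have := ha2 _ hmem
      omega
    · intro v hv
      rw [Finset.mem_insert] at hv
      rcases hv with rfl | hv
      · exact ⟨by omega, a', by omega, rfl⟩
      · exact hV1 v hv
    · rw [Nat.mul_succ]
      omega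
    · intro v hv
      rw [Finset.mem_insert] at hv
      rcases hv with rfl | hv
      · exact le_rfl
      · exact (ha2 v hv).trans hlt.le

end MaxClass

end Pool.TKB
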