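import Pool.Agent.TKB.Main
import Pool.Agent.TKB.Period

/-!
# The logarithmic bound for all normally monomial groups of maximal class
-/

namespace Pool.TKB

open Subgroup
open scoped commutatorElement

variable {G : Type} [Group G]

/-- The first part of the derived series. -/
theorem derived_first {p c : ℕ} [hp : Fact p.Prime] (h : MaxClass G p c)
    (hNM : NormallyMonomial G) (s : ℕ) :
    derivedSeries G (3 * Nat.clog 2 (cd G).ncard + 1 + s) ≤ gm G (2 ^ s * (min c (p - 1) + 1)) ∧
      2 ≤ (cd G).ncard := by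
  classical
  have hfin := h.finite
  have hc2 := h.two_le
  have hp2 := hp.out.two_le
  set c₀ := min c (p - 1) with hc₀
  have hc₀c : c₀ ≤ c := min_le_left _ _
  have hc₀p : c₀ < p := by
    have := min_le_right c (p - 1)
    omega
  obtain ⟨C⟩ := h.exists_coords hc₀c hc₀p
  set D := (cd G).ncard with hD
  -- at least two degrees
  have hD2 : 2 ≤ D := by
    have hst := h.strict (show 1 ≤ 2 by omega) hc2
    obtain ⟨g, hg1, hg2⟩ := SetLike.not_le_iff_exists.mp hst
    have e : gm G 2 = ⁅(⊤ : Subgroup G), (⊤ : Subgroup G)⁆ := by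
      have := gm_succ (G := G) (show 1 ≤ 1 from le_rfl)
      rwa [gm_one] at this
    rw [e] at hg1
    apply two_le_ncard hg1
    rintro rfl
    exact hg2 (one_mem _)
  have hPos : Pos (pos G c₀) c₀ (D - 1) :=
    pos_Pos C hc₀p (fun V hV => card_values h C hc₀c hNM V hV)
  set b := Nat.clog 2 D with hb
  have hb1 : D ≤ 2 ^ b := Nat.le_pow_clog (by norm_num) D
  have hb0 : 1 ≤ b := by
    by_contra hlt
    have : b = 0 := by omega
    rw [this] at hb1
    omega
  have hr : (D - 1) * (D - 1) + 2 ≤ 2 ^ (2 * b - 1 + 1) := by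
    have h1 : 2 * b - 1 + 1 = b + b := by omega
    rw [h1, pow_add]
    have h2 : D * D ≤ 2 ^ b * 2 ^ b := Nat.mul_le_mul hb1 hb1
    obtain ⟨E, hE⟩ : ∃ E, D = E + 2 := ⟨D - 2, by omega⟩
    rw [hE] at h2 ⊢
    have h3 : E + 2 - 1 = E + 1 := by omega
    rw [h3]
    nlinarith
  have hc₀1 : 1 ≤ c₀ := by omega
  obtain ⟨i, hi, hesc⟩ := hPos.escape hc₀1 (by omega) (r := 2 * b - 1) (t := b) hr (by omega)
  have hder : derivedSeries G (3 * b + 1) ≤ gm G (c₀ + 1) := by
    calc derivedSeries G (3 * b + 1) ≤ derivedSeries G (i + 1) :=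
          derivedSeries_antitone G (by omega)
      _ ≤ gm G (Pos.it (pos G c₀) i) := derived_le c₀ i
      _ ≤ gm G (c₀ + 1) := gm_anti hesc
  refine ⟨?_, hD2⟩
  induction s with
  | zero => simpa using hder
  | succ s ih =>
    have h1 : 0 < 2 ^ s * (c₀ + 1) := Nat.mul_pos (pow_pos (by norm_num) _) (by omega)
    have e : 2 ^ (s + 1) * (c₀ + 1) = 2 ^ s * (c₀ + 1) + 2 ^ s * (c₀ + 1) := by ring
    rw [e]
    show ⁅derivedSeries G (3 * b + 1 + s), derivedSeries G (3 * b + 1 + s)⁆ ≤ _
    exact (commutator_mono ih ih).trans (gm_comm _ _ h1 h1)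

/-- The derived length of a normally monomial `p`-group of maximal class is at most
`4 * ⌈log₂ |cd(G)|⌉ + 3`. -/
theorem derived_bound_all {p c : ℕ} [hp : Fact p.Prime] (h : MaxClass G p c)
    (hNM : NormallyMonomial G) : derivedSeries G (4 * Nat.clog 2 (cd G).ncard + 3) = ⊥ := by
  classical
  have hfin := h.finite
  have hc2 := h.two_le
  have hp2 := hp.out.two_le
  have hfirst := fun s => (derived_first h hNM s).1
  have hD2 := (derived_first h hNM 0).2
  set D := (cd G).ncard with hD
  set b := Nat.clog 2 D with hb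
  have hb1 : D ≤ 2 ^ b := Nat.le_pow_clog (by norm_num) D
  have hb0 : 1 ≤ b := by
    by_contra hlt
    have : b = 0 := by omega
    rw [this] at hb1
    omega
  rw [eq_bot_iff, ← h.bot]
  rcases Nat.lt_or_ge c p with hcp | hcp
  · -- small class
    have h1 := hfirst 0
    rw [pow_zero, one_mul, min_eq_left (show c ≤ p - 1 by omega)] at h1
    exact (derivedSeries_antitone G (by omega)).trans h1
  have hmin : min c (p - 1) + 1 = p := by
    rw [min_eq_right (by omega)]
    omega
  rw [hmin] at hfirst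
  rcases Nat.lt_or_ge c (8 * p) with hc8 | hc8
  · -- medium class
    have h1 := hfirst 3
    exact ((derivedSeries_antitone G (by omega)).trans h1).trans (gm_anti (by omega))
  · -- large class
    obtain ⟨x, hx⟩ := h.exists_uniform_all (show 2 * p + 1 ≤ c by omega)
    obtain ⟨C, _⟩ := h.coords_of le_rfl x hx
    set v₀ := pos G c (p + 1) with hv₀
    rcases Nat.lt_or_ge c (2 * v₀) with hv | hv
    · have h1 := hfirst 1
      have h2 : derivedSeries G (3 * b + 1 + 1 + 1) ≤ gm G v₀ := by
        show ⁅derivedSeries G (3 * b + 1 + 1), derivedSeries G (3 * b + 1 + 1)⁆ ≤ _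
        have h3 : derivedSeries G (3 * b + 1 + 1) ≤ gm G (p + 1) := h1.trans (gm_anti (by omega))
        exact (commutator_mono h3 h3).trans (pos_spec c (p + 1))
      have h4 : derivedSeries G (3 * b + 1 + 1 + 1 + 1) ≤ gm G (v₀ + v₀) := by
        show ⁅derivedSeries G (3 * b + 1 + 1 + 1), derivedSeries G (3 * b + 1 + 1 + 1)⁆ ≤ _
        exact (commutator_mono h2 h2).trans (gm_comm _ _ (by omega) (by omega))
      exact ((derivedSeries_antitone G (by omega)).trans h4).trans (gm_anti (by omega))
    · have hpos2p : 0 < 2 * p := by omega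
      set m := (c - v₀) / (2 * p) with hm
      have hm1 : 2 * p * m ≤ c - v₀ := Nat.mul_div_le _ _
      have hm2 : c - v₀ < 2 * p * (m + 1) := Nat.lt_mul_div_succ _ hpos2p
      obtain ⟨V, hV, hV1, _⟩ := h.many_values (by omega) C m (by omega)
      have h1 := card_values h C le_rfl hNM V hV1
      rw [hV, ← hD] at h1
      have h2 : 2 * p * (m + 1) ≤ 2 * p * (D - 1) := Nat.mul_le_mul_left _ h1
      have h3 : 2 * p * (D - 1) + 2 * p = 2 * p * D := by
        obtain ⟨E, hE⟩ : ∃ E, D = E + 1 := ⟨D - 1, by omega⟩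
        rw [hE, Nat.add_sub_cancel]
        ring
      have h4 : 2 * p * D ≤ 2 * p * 2 ^ b := Nat.mul_le_mul_left _ hb1
      have h5 : 2 ^ (b + 2) * p = 2 * (2 * p * 2 ^ b) := by ring
      have h6 := hfirst (b + 2)
      exact ((derivedSeries_antitone G (by omega)).trans h6).trans (gm_anti (by omega))

end Pool.TKB
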