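import Mathlib

/-!
# Elimination of binomial columns

Combinatorial core for the derived length bound of groups of maximal class.
-/

namespace Pool.TKB

open Finset

variable {F : Type*} [Field F]

lemma factorial_ne {P : ℕ} (hP : ∀ m : ℕ, 0 < m → m < P → (m : F) ≠ 0) :
    ∀ m : ℕ, m < P → ((Nat.factorial m : ℕ) : F) ≠ 0 := by
  intro m
  induction m with
  | zero => intro _; simp
  | succ m ih =>
    intro h
    rw [Nat.factorial_succ, Nat.cast_mul]
    exact mul_ne_zero (hP _ (Nat.succ_pos m) h) (ih (by omega))

lemma choose_ne {P : ℕ} (hP : ∀ m : ℕ, 0 < m → m < P → (m : F) ≠ 0) {m r : ℕ} (hr : r ≤ m)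
    (hm : m < P) : ((Nat.choose m r : ℕ) : F) ≠ 0 := by
  intro h0
  have h1 := Nat.choose_mul_factorial_mul_factorial hr
  have h2 := factorial_ne hP m hm
  apply h2
  rw [← h1, Nat.cast_mul, Nat.cast_mul, h0]
  ring

lemma choose_id (X t : ℕ) :
    ((X : F) + 1) * (Nat.choose X t : F) = ((X : F) + 1 - t) * (Nat.choose (X + 1) t : F) := by
  rcases Nat.lt_or_ge X t with h | h
  · rcases Nat.eq_or_lt_of_le h with h' | h'
    · subst h'
      rw [Nat.choose_succ_self]
      push_cast
      ring
    · rw [Nat.choose_eq_zero_of_lt h, Nat.choose_eq_zero_of_lt (by omega)]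
      simp
  · have h1 := Nat.add_one_mul_choose_eq X t
    -- (X+1) * C X t = C (X+1) (t+1) * (t+1)
    have h2 : (X + 1).choose (t + 1) * (t + 1) = (X + 1).choose t * (X + 1 - t) :=
      Nat.choose_succ_right_eq (X + 1) t
    have h3 : (X + 1) * X.choose t = (X + 1).choose t * (X + 1 - t) := by
      rw [← h2]
      exact h1
    have h4 := congrArg (Nat.cast : ℕ → F) h3
    push_cast [Nat.cast_sub (show t ≤ X + 1 by omega)] at h4
    rw [h4]
    ring

lemma choose_id' (X t : ℕ) :
    ((X : F) + 1) * (Nat.choose X t : F) = ((t : F) + 1) * (Nat.choose (X + 1) (t + 1) : F) := by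
  have h1 := Nat.add_one_mul_choose_eq X t
  have h4 := congrArg (Nat.cast : ℕ → F) h1
  push_cast at h4
  rw [h4]
  ring

/-- If `n` consecutive rows of a binomial system in `n` unknowns vanish, the unknowns vanish. -/
theorem elim {P : ℕ} (hP : ∀ m : ℕ, 0 < m → m < P → (m : F) ≠ 0) :
    ∀ (n : ℕ) (T : Finset ℕ) (N a : ℕ) (φ : ℕ → F), T.card = n →
      (∀ k ∈ T, a + n ≤ k ∧ k ≤ N ∧ 2 * k + 1 ≤ N + a + n) → N + n ≤ P + a →
      (∀ b, a ≤ b → b < a + n → ∑ k ∈ T, φ k * (Nat.choose (N - k) (k - b) : F) = 0) →
      ∀ k ∈ T, φ k = 0 := by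
  intro n
  induction n with
  | zero =>
    intro T N a φ hT _ _ _ k hk
    rw [Finset.card_eq_zero] at hT
    subst hT
    simp at hk
  | succ n ih =>
    intro T N a φ hT hk hNP hrow
    -- first show that all entries other than a given one vanish
    have key : ∀ k₀ ∈ T, ∀ k ∈ T.erase k₀, φ k = 0 := by
      intro k₀ hk₀ k hkE
      have hcard : (T.erase k₀).card = n := by
        rw [Finset.card_erase_of_mem hk₀, hT]
        rfl
      have hih := ih (T.erase k₀) (N + 1) a
        (fun k => φ k * ((k : F) - k₀) / ((N : F) + 1 - k)) hcard ?_ (by omega) ?_ k hkE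
      · have hkT := Finset.mem_of_mem_erase hkE
        have hkne := Finset.ne_of_mem_erase hkE
        have hb := hk k hkT
        have hb0 := hk k₀ hk₀
        have h1 : ((k : F) - k₀) ≠ 0 := by
          rcases Nat.lt_or_ge k k₀ with h | h
          · have := hP (k₀ - k) (by omega) (by omega)
            rw [Nat.cast_sub h.le] at this
            intro h'
            apply this
            rw [sub_eq_zero] at h' ⊢
            exact h'.symm
          · have := hP (k - k₀) (by omega) (by omega)
            rw [Nat.cast_sub h] at this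
            exact this
        have h2 : ((N : F) + 1 - k) ≠ 0 := by
          have := hP (N + 1 - k) (by omega) (by omega)
          rw [Nat.cast_sub (by omega)] at this
          push_cast at this
          exact this
        have h3 : φ k * ((k : F) - k₀) / ((N : F) + 1 - k) = 0 := hih
        rw [div_eq_zero_iff] at h3
        rcases h3 with h3 | h3
        · rcases mul_eq_zero.mp h3 with h4 | h4
          · exact h4
          · exact absurd h4 h1
        · exact absurd h3 h2
      · intro k hkE
        have hb := hk k (Finset.mem_of_mem_erase hkE)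
        omega
      · intro b hab hbn
        have hrow1 := hrow b hab (by omega)
        have hrow2 := hrow (b + 1) (by omega) (by omega)
        have hNb : ((N : F) + 1 - b) ≠ 0 := by
          have hb0 := hk k₀ hk₀
          have := hP (N + 1 - b) (by omega) (by omega)
          rw [Nat.cast_sub (by omega)] at this
          push_cast at this
          exact this
        have hsum : ((N : F) + 1 - b) * ∑ k ∈ T,
            (φ k * ((k : F) - k₀) / ((N : F) + 1 - k)) * (Nat.choose (N + 1 - k) (k - b) : F) = 0 := by
          have e : ∀ k ∈ T, ((N : F) + 1 - b) *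
              ((φ k * ((k : F) - k₀) / ((N : F) + 1 - k)) * (Nat.choose (N + 1 - k) (k - b) : F))
              = ((N : F) - 2 * k₀ + b + 1) * (φ k * (Nat.choose (N - k) (k - (b + 1)) : F))
                - ((k₀ : F) - b) * (φ k * (Nat.choose (N - k) (k - b) : F)) := by
            intro k hkT
            have hb := hk k hkT
            obtain ⟨X, hX⟩ : ∃ X, N = k + X := ⟨N - k, by omega⟩
            obtain ⟨t, ht⟩ : ∃ t, k = b + (t + 1) := ⟨k - b - 1, by omega⟩
            have e1 : N - k = X := by omega
            have e2 : k - (b + 1) = t := by omega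
            have e3 : k - b = t + 1 := by omega
            have e4 : N + 1 - k = X + 1 := by omega
            rw [e1, e2, e3, e4]
            have hN : (N : F) = k + X := by
              rw [hX]; push_cast; ring
            have hkk : (k : F) = b + (t + 1) := by
              rw [ht]; push_cast; ring
            have c1 := choose_id' (F := F) X t
            have c2 := choose_id (F := F) X (t + 1)
            have hX1 : ((X : F) + 1) ≠ 0 := by
              have := hP (X + 1) (by omega) (by omega)
              push_cast at this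
              exact this
            have hden : ((N : F) + 1 - k) = X + 1 := by
              rw [hN]; ring
            rw [hden]
            apply mul_left_cancel₀ hX1
            have l1 : ((X : F) + 1) * (((N : F) + 1 - b) *
                ((φ k * ((k : F) - k₀) / ((X : F) + 1)) * (Nat.choose (X + 1) (t + 1) : F)))
                = ((N : F) + 1 - b) * (φ k * ((k : F) - k₀)) * (Nat.choose (X + 1) (t + 1) : F) := by
              field_simp
            rw [l1]
            have l2 : ((X : F) + 1) * (((N : F) - 2 * k₀ + b + 1) * (φ k * (Nat.choose X t : F))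
                - ((k₀ : F) - b) * (φ k * (Nat.choose X (t + 1) : F)))
                = φ k * (((N : F) - 2 * k₀ + b + 1) * (((X : F) + 1) * (Nat.choose X t : F))
                  - ((k₀ : F) - b) * (((X : F) + 1) * (Nat.choose X (t + 1) : F))) := by
              ring
            rw [l2, c1, c2]
            push_cast
            rw [hN, hkk]
            ring
          rw [Finset.mul_sum, Finset.sum_congr rfl e, Finset.sum_sub_distrib, ← Finset.mul_sum,
            ← Finset.mul_sum, hrow1, hrow2]
          ring
        have hsum' := (mul_eq_zero.mp hsum).resolve_left hNb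
        rw [← Finset.add_sum_erase T _ hk₀] at hsum'
        simpa using hsum'
    intro k hkT
    -- now the last row gives the remaining entry
    have hlast := hrow (a + n) (by omega) (by omega)
    have hb := hk k hkT
    rw [← Finset.add_sum_erase T _ hkT] at hlast
    have hz : ∑ x ∈ T.erase k, φ x * (Nat.choose (N - x) (x - (a + n)) : F) = 0 := by
      apply Finset.sum_eq_zero
      intro x hx
      rw [key k hkT x hx]
      ring
    rw [hz, add_zero] at hlast
    rcases mul_eq_zero.mp hlast with h | h
    · exact h
    · exfalso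
      exact choose_ne hP (by omega) (by omega) h

/-- Expansion of structure constants in terms of the consecutive ones. -/
theorem expand (α : ℕ → ℕ → F) (j L : ℕ) (h0 : ∀ a, j < a → a + a ≤ L → α a a = 0)
    (hrec : ∀ a b, j < a → a < b → a + b + 1 ≤ L → α a b = α (a + 1) b + α a (b + 1)) :
    ∀ (d a : ℕ), j < a → a + (a + d) ≤ L →
      α a (a + d) = ∑ k ∈ Finset.Ico a (a + d),
        (-1) ^ (k - a) * (Nat.choose (a + d - 1 - k) (k - a) : F) * α k (k + 1) := by
  intro d
  induction d using Nat.strong_induction_on with
  | _ d ih =>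
    intro a ha hL
    rcases Nat.eq_zero_or_pos d with hd | hd
    · subst hd
      simp [h0 a ha (by omega)]
    obtain ⟨e, rfl⟩ : ∃ e, d = e + 1 := ⟨d - 1, by omega⟩
    rcases Nat.eq_zero_or_pos e with he | he
    · subst he
      simp
    obtain ⟨f, rfl⟩ : ∃ f, e = f + 1 := ⟨e - 1, by omega⟩
    -- now the distance is f + 2
    have h1 := hrec a (a + (f + 1)) ha (by omega) (by omega)
    have h2 : α a (a + (f + 1 + 1)) = α a (a + (f + 1)) - α (a + 1) (a + 1 + f) := by
      have e : a + (f + 1 + 1) = a + (f + 1) + 1 := by ring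
      have e' : a + (f + 1) = a + 1 + f := by ring
      rw [e, h1, ← e']
      ring
    rw [h2, ih (f + 1) (by omega) a ha (by omega), ih f (by omega) (a + 1) (by omega) (by omega)]
    obtain ⟨B, hB⟩ : ∃ B, B = a + (f + 1) := ⟨_, rfl⟩
    have b1 : a + (f + 1) = B := hB.symm
    have b2 : a + 1 + f = B := by omega
    have b3 : a + (f + 1 + 1) = B + 1 := by omega
    rw [b1, b2, b3]
    rw [Finset.sum_Ico_succ_top (show a ≤ B by omega)]
    rw [Finset.sum_eq_sum_Ico_succ_bot (show a < B by omega)]
    rw [Finset.sum_eq_sum_Ico_succ_bot (show a < B by omega)]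
    have e1 : (Nat.choose (B + 1 - 1 - B) (B - a) : F) = 0 := by
      rw [Nat.choose_eq_zero_of_lt (by omega)]
      simp
    rw [e1]
    have e2 : a - a = 0 := Nat.sub_self a
    rw [e2, Nat.choose_zero_right, Nat.choose_zero_right]
    have e3 : ∑ k ∈ Finset.Ico (a + 1) B,
          (-1) ^ (k - a) * (Nat.choose (B + 1 - 1 - k) (k - a) : F) * α k (k + 1)
        = ∑ k ∈ Finset.Ico (a + 1) B,
          (-1) ^ (k - a) * (Nat.choose (B - 1 - k) (k - a) : F) * α k (k + 1)
        - ∑ k ∈ Finset.Ico (a + 1) B,
          (-1) ^ (k - (a + 1)) * (Nat.choose (B - 1 - k) (k - (a + 1)) : F) *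
            α k (k + 1) := by
      rw [← Finset.sum_sub_distrib]
      apply Finset.sum_congr rfl
      intro k hk
      rw [Finset.mem_Ico] at hk
      obtain ⟨t, rfl⟩ : ∃ t, k = a + 1 + t := ⟨k - (a + 1), by omega⟩
      obtain ⟨w, hw⟩ : ∃ w, B = a + 1 + t + (w + 1) := ⟨B - (a + 1 + t) - 1, by omega⟩
      have g1 : a + 1 + t - a = t + 1 := by omega
      have g2 : a + 1 + t - (a + 1) = t := by omega
      have g3 : B + 1 - 1 - (a + 1 + t) = w + 1 := by omega
      have g4 : B - 1 - (a + 1 + t) = w := by omega
      rw [g1, g2, g3, g4, Nat.choose_succ_succ]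
      push_cast
      ring
    rw [e3]
    ring

/-- The combinatorial core: a late start of the leading structure constants forces
many nonzero ones. -/
theorem core_count {P : ℕ} (hP : ∀ m : ℕ, 0 < m → m < P → (m : F) ≠ 0)
    (α : ℕ → ℕ → F) (j L κ M A : ℕ) (h0 : ∀ a, j < a → a + a ≤ L → α a a = 0)
    (hrec : ∀ a b, j < a → a < b → a + b + 1 ≤ L → α a b = α (a + 1) b + α a (b + 1))
    (hlow : ∀ k, j < k → k < κ → α k (k + 1) = 0) (hκ : α κ (κ + 1) ≠ 0) (hjκ : j < κ)
    (hM : 2 * κ + 1 ≤ M) (hvan : ∀ a, j < a → a ≤ j + A → α a M = 0)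
    (hA : j + A < κ) (hL : M + j + A ≤ L) (hLP : L < P) :
    ∃ K : Finset ℕ, A + 1 ≤ K.card ∧ ∀ k ∈ K, κ ≤ k ∧ 2 * k + 1 ≤ L ∧ α k (k + 1) ≠ 0 := by
  classical
  refine ⟨(Finset.range M).filter (fun k => κ ≤ k ∧ 2 * k + 1 ≤ M + j + A ∧ α k (k + 1) ≠ 0),
    ?_, ?_⟩
  · set K := (Finset.range M).filter (fun k => κ ≤ k ∧ 2 * k + 1 ≤ M + j + A ∧ α k (k + 1) ≠ 0)
      with hK
    by_contra hcon
    have hn : K.card ≤ A := by omega
    have hκK : κ ∈ K := by
      rw [hK, Finset.mem_filter, Finset.mem_range]
      exact ⟨by omega, le_refl _, by omega, hκ⟩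
    have hn1 : 1 ≤ K.card := Finset.card_pos.mpr ⟨κ, hκK⟩
    obtain ⟨a₀, ha₀⟩ : ∃ a₀, a₀ + K.card = j + A + 1 := ⟨j + A + 1 - K.card, by omega⟩
    have hφ := elim hP K.card K (M - 1) a₀ (fun k => (-1) ^ k * α k (k + 1)) rfl ?_ (by omega) ?_
      κ hκK
    · have h1 : (-1 : F) ^ κ * α κ (κ + 1) = 0 := hφ
      rcases mul_eq_zero.mp h1 with h2 | h2
      · have : ((-1 : F)) ^ κ ≠ 0 := pow_ne_zero _ (by norm_num)
        exact this h2
      · exact hκ h2
    · intro k hk
      rw [hK, Finset.mem_filter, Finset.mem_range] at hk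
      omega
    · intro b hb hbn
      have hv := hvan b (by omega) (by omega)
      have he := expand α j L h0 hrec (M - b) b (by omega) (by omega)
      have e1 : b + (M - b) = M := by omega
      rw [e1, hv] at he
      have hsub : K ⊆ Finset.Ico b M := by
        intro k hk
        rw [hK, Finset.mem_filter, Finset.mem_range] at hk
        rw [Finset.mem_Ico]
        omega
      have hsum : ∑ k ∈ K, (-1) ^ (k - b) * (Nat.choose (M - 1 - k) (k - b) : F) * α k (k + 1)
          = 0 := by
        rw [he]
        apply Finset.sum_subset hsub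
        intro k hk hkK
        rw [Finset.mem_Ico] at hk
        rcases Nat.lt_or_ge k κ with h | h
        · rw [hlow k (by omega) h]
          ring
        · by_cases h2 : 2 * k + 1 ≤ M + j + A
          · by_cases h3 : α k (k + 1) = 0
            · rw [h3]
              ring
            · exfalso
              apply hkK
              rw [hK, Finset.mem_filter, Finset.mem_range]
              exact ⟨hk.2, h, h2, h3⟩
          · rw [Nat.choose_eq_zero_of_lt (by omega)]
            simp
      have hfin : (-1 : F) ^ b * ∑ k ∈ K, ((-1) ^ k * α k (k + 1)) *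
          (Nat.choose (M - 1 - k) (k - b) : F) = 0 := by
        rw [← hsum, Finset.mul_sum]
        apply Finset.sum_congr rfl
        intro k hk
        rw [hK, Finset.mem_filter, Finset.mem_range] at hk
        obtain ⟨t, rfl⟩ : ∃ t, k = b + t := ⟨k - b, by omega⟩
        have e2 : b + t - b = t := by omega
        rw [e2, pow_add]
        have e3 : ((-1 : F) ^ b) * ((-1 : F) ^ b) = 1 := by
          rw [← pow_add, ← two_mul, pow_mul]
          norm_num
        calc (-1 : F) ^ b * ((-1) ^ b * (-1) ^ t * α (b + t) (b + t + 1) *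
              (Nat.choose (M - 1 - (b + t)) t : F))
            = ((-1 : F) ^ b * (-1 : F) ^ b) * ((-1) ^ t * α (b + t) (b + t + 1) *
              (Nat.choose (M - 1 - (b + t)) t : F)) := by ring
          _ = _ := by rw [e3]; ring
      rcases mul_eq_zero.mp hfin with h2 | h2
      · exact absurd h2 (pow_ne_zero _ (by norm_num))
      · exact h2
  · intro k hk
    rw [Finset.mem_filter] at hk
    refine ⟨hk.2.1, by omega, hk.2.2.2⟩

end Pool.TKB
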