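import Pool.Agent.TKB.Gam
import Pool.Agent.TKB.Elim

/-!
# Coordinates along the lower central series

For a group whose lower central factors (from the second on) have order `p` and which has
a uniform element `x`, we use coordinates `co i : γ_i → ZMod p`.
-/

namespace Pool.TKB

open Subgroup
open scoped commutatorElement

/-- A uniform element `x`, generators `y i` of the factors and coordinates `co i`
on `gm G i` for `2 ≤ i ≤ c`. -/
structure Coords (G : Type*) [Group G] (p c : ℕ) where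
  x : G
  y : ℕ → G
  co : ℕ → G → ZMod p
  y_mem : ∀ i, 2 ≤ i → i ≤ c → y i ∈ gm G i
  y_succ : ∀ i, 2 ≤ i → i + 1 ≤ c → y (i + 1) = ⁅y i, x⁆
  co_mul : ∀ i, 2 ≤ i → i ≤ c → ∀ u ∈ gm G i, ∀ v ∈ gm G i, co i (u * v) = co i u + co i v
  co_zero : ∀ i, 2 ≤ i → i ≤ c → ∀ u ∈ gm G i, (co i u = 0 ↔ u ∈ gm G (i + 1))
  co_y : ∀ i, 2 ≤ i → i ≤ c → co i (y i) = 1

namespace Coords

variable {G : Type*} [Group G] {p c : ℕ} (C : Coords G p c)

include C

lemma co_one {i : ℕ} (h2 : 2 ≤ i) (hc : i ≤ c) : C.co i 1 = 0 :=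
  (C.co_zero i h2 hc 1 (one_mem _)).mpr (one_mem _)

lemma co_inv {i : ℕ} (h2 : 2 ≤ i) (hc : i ≤ c) {u : G} (hu : u ∈ gm G i) :
    C.co i u⁻¹ = - C.co i u := by
  have h := C.co_mul i h2 hc u hu u⁻¹ (inv_mem hu)
  rw [mul_inv_cancel, C.co_one h2 hc] at h
  rw [eq_neg_iff_add_eq_zero, add_comm]
  exact h.symm

lemma comm_top_mem {i : ℕ} (h1 : 1 ≤ i) {w : G} (hw : w ∈ gm G i) (g : G) :
    ⁅w, g⁆ ∈ gm G (i + 1) := by
  rw [gm_succ h1]
  exact commutator_mem_commutator hw (mem_top g)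

lemma comm_top_mem' {i : ℕ} (h1 : 1 ≤ i) {w : G} (hw : w ∈ gm G i) (g : G) :
    ⁅g, w⁆ ∈ gm G (i + 1) := by
  rw [← commutatorElement_inv]
  exact inv_mem (C.comm_top_mem h1 hw g)

lemma co_conj {i : ℕ} (h2 : 2 ≤ i) (hc : i ≤ c) {w : G} (hw : w ∈ gm G i) (g : G) :
    C.co i (g * w * g⁻¹) = C.co i w := by
  have e : g * w * g⁻¹ = ⁅g, w⁆ * w := by
    simp [commutatorElement_def, mul_assoc]
  have hm := C.comm_top_mem' (show 1 ≤ i by omega) hw g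
  rw [e, C.co_mul i h2 hc _ (gm_anti (by omega) hm) _ hw,
    (C.co_zero i h2 hc _ (gm_anti (by omega) hm)).mpr hm, zero_add]

lemma co_conj' {i : ℕ} (h2 : 2 ≤ i) (hc : i ≤ c) {w : G} (hw : w ∈ gm G i) (g : G) :
    C.co i (g⁻¹ * w * g) = C.co i w := by
  have := C.co_conj h2 hc hw g⁻¹
  rwa [inv_inv] at this

lemma co_pow {i : ℕ} (h2 : 2 ≤ i) (hc : i ≤ c) {u : G} (hu : u ∈ gm G i) (n : ℕ) :
    C.co i (u ^ n) = n * C.co i u := by
  induction n with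
  | zero => simp [C.co_one h2 hc]
  | succ n ih =>
    rw [pow_succ, C.co_mul i h2 hc _ (pow_mem hu n) _ hu, ih]
    push_cast
    ring

/-- An additive function on `gm G a` that kills `gm G (a+1)` is a multiple of the coordinate. -/
lemma co_unique [NeZero p] {a : ℕ} (h2 : 2 ≤ a) (hc : a ≤ c) (φ : G → ZMod p)
    (hφ : ∀ u ∈ gm G a, ∀ v ∈ gm G a, φ (u * v) = φ u + φ v)
    (hφ0 : ∀ u ∈ gm G (a + 1), φ u = 0) {u : G} (hu : u ∈ gm G a) :
    φ u = C.co a u * φ (C.y a) := by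
  have hy := C.y_mem a h2 hc
  have hφ1 : φ 1 = 0 := hφ0 1 (one_mem _)
  have hpow : ∀ n : ℕ, φ ((C.y a) ^ n) = n * φ (C.y a) := by
    intro n
    induction n with
    | zero => simp [hφ1]
    | succ n ih =>
      rw [pow_succ, hφ _ (pow_mem hy n) _ hy, ih]
      push_cast
      ring
  set k := (C.co a u).val with hk
  have hkc : ((k : ℕ) : ZMod p) = C.co a u := ZMod.natCast_zmod_val _
  have hv : u * ((C.y a) ^ k)⁻¹ ∈ gm G a := mul_mem hu (inv_mem (pow_mem hy k))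
  have hv' : u * ((C.y a) ^ k)⁻¹ ∈ gm G (a + 1) := by
    rw [← C.co_zero a h2 hc _ hv, C.co_mul a h2 hc _ hu _ (inv_mem (pow_mem hy k)),
      C.co_inv h2 hc (pow_mem hy k), C.co_pow h2 hc hy, C.co_y a h2 hc, hkc]
    ring
  have e : φ u = φ (u * ((C.y a) ^ k)⁻¹) + φ ((C.y a) ^ k) := by
    rw [← hφ _ hv _ (pow_mem hy k)]
    congr 1
    group
  rw [e, hφ0 _ hv', hpow, hkc, zero_add]

/-- The structure constants of the leading part. -/
def al (δ a b : ℕ) : ZMod p := C.co (a + b + δ) ⁅C.y a, C.y b⁆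

lemma co_comm_mul_left {m : ℕ} (h2 : 2 ≤ m) (hc : m ≤ c) {u u' v : G}
    (h : ⁅u, v⁆ ∈ gm G m) (h' : ⁅u', v⁆ ∈ gm G m) :
    C.co m ⁅u * u', v⁆ = C.co m ⁅u, v⁆ + C.co m ⁅u', v⁆ := by
  rw [commutatorElement_mul_left_eq_conj_mul, C.co_mul m h2 hc _ _ _ h, C.co_conj h2 hc h',
    add_comm]
  exact (gm_normal m).conj_mem _ h' u

lemma co_comm_mul_right {m : ℕ} (h2 : 2 ≤ m) (hc : m ≤ c) {u v v' : G}
    (h : ⁅u, v⁆ ∈ gm G m) (h' : ⁅u, v'⁆ ∈ gm G m) :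
    C.co m ⁅u, v * v'⁆ = C.co m ⁅u, v⁆ + C.co m ⁅u, v'⁆ := by
  rw [commutatorElement_mul_right_eq_mul_conj]
  have e : ⁅u, v⁆ * v * ⁅u, v'⁆ * v⁻¹ = ⁅u, v⁆ * (v * ⁅u, v'⁆ * v⁻¹) := by group
  rw [e, C.co_mul m h2 hc _ h _ ((gm_normal m).conj_mem _ h' v), C.co_conj h2 hc h']

variable [NeZero p]

/-- Bilinearity, general form. -/
lemma pair_gen {a b m : ℕ} (ha2 : 2 ≤ a) (hac : a ≤ c) (hb2 : 2 ≤ b) (hbc : b ≤ c)
    (hm2 : 2 ≤ m) (hmc : m ≤ c)
    (hab : ⁅gm G a, gm G b⁆ ≤ gm G m) (hab1 : ⁅gm G (a + 1), gm G b⁆ ≤ gm G (m + 1))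
    (hab2 : ⁅gm G a, gm G (b + 1)⁆ ≤ gm G (m + 1)) {u v : G} (hu : u ∈ gm G a)
    (hv : v ∈ gm G b) :
    C.co m ⁅u, v⁆ = C.co a u * C.co b v * C.co m ⁅C.y a, C.y b⁆ := by
  have hya := C.y_mem a ha2 hac
  have mem : ∀ {s t : G}, s ∈ gm G a → t ∈ gm G b → ⁅s, t⁆ ∈ gm G m :=
    fun hs ht => hab (commutator_mem_commutator hs ht)
  have h1 : C.co m ⁅u, v⁆ = C.co a u * C.co m ⁅C.y a, v⁆ := by
    apply C.co_unique ha2 hac (fun w => C.co m ⁅w, v⁆) _ _ hu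
    · intro s hs t ht
      exact C.co_comm_mul_left hm2 hmc (mem hs hv) (mem ht hv)
    · intro s hs
      exact (C.co_zero m hm2 hmc _ (mem (gm_anti (by omega) hs) hv)).mpr
        (hab1 (commutator_mem_commutator hs hv))
  have h2 : C.co m ⁅C.y a, v⁆ = C.co b v * C.co m ⁅C.y a, C.y b⁆ := by
    apply C.co_unique hb2 hbc (fun w => C.co m ⁅C.y a, w⁆) _ _ hv
    · intro s hs t ht
      exact C.co_comm_mul_right hm2 hmc (mem hya hs) (mem hya ht)
    · intro s hs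
      exact (C.co_zero m hm2 hmc _ (mem hya (gm_anti (by omega) hs))).mpr
        (hab2 (commutator_mem_commutator hya hs))
  rw [h1, h2]
  ring

/-- Coordinate of a commutator with the uniform element. -/
lemma co_x {a : ℕ} (ha2 : 2 ≤ a) (hac : a + 1 ≤ c) {u : G} (hu : u ∈ gm G a) :
    C.co (a + 1) ⁅u, C.x⁆ = C.co a u := by
  have h := C.co_unique ha2 (show a ≤ c by omega) (fun w => C.co (a + 1) ⁅w, C.x⁆) ?_ ?_ hu
  · rw [h, ← C.y_succ a ha2 hac, C.co_y (a + 1) (by omega) hac, mul_one]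
  · intro s hs t ht
    exact C.co_comm_mul_left (by omega) hac (C.comm_top_mem (by omega) hs _)
      (C.comm_top_mem (by omega) ht _)
  · intro s hs
    have := C.comm_top_mem (show 1 ≤ a + 1 by omega) hs C.x
    exact (C.co_zero (a + 1) (by omega) hac _ (gm_anti (by omega) this)).mpr this

end Coords

end Pool.TKB
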