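import Pool.Agent.TKB.Norm

/-!
# Raw coordinates at all levels, coordinates attached to a given uniform element
-/

namespace Pool.TKB

open Subgroup
open scoped commutatorElement

variable {G : Type*} [Group G]

/-- Raw coordinates on all factors from the second on. -/
structure RawCo (G : Type*) [Group G] (p c : ℕ) where
  r : ℕ → G → ZMod p
  add : ∀ i, 2 ≤ i → i ≤ c → ∀ u ∈ gm G i, ∀ v ∈ gm G i, r i (u * v) = r i u + r i v
  zero : ∀ i, 2 ≤ i → i ≤ c → ∀ u ∈ gm G i, (r i u = 0 ↔ u ∈ gm G (i + 1))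

namespace RawCo

variable {p c : ℕ} (R : RawCo G p c)

include R

lemma r_one {i : ℕ} (h2 : 2 ≤ i) (hc : i ≤ c) : R.r i 1 = 0 :=
  (R.zero i h2 hc 1 (one_mem _)).mpr (one_mem _)

lemma r_inv {i : ℕ} (h2 : 2 ≤ i) (hc : i ≤ c) {u : G} (hu : u ∈ gm G i) :
    R.r i u⁻¹ = - R.r i u := by
  have h := R.add i h2 hc u hu u⁻¹ (inv_mem hu)
  rw [mul_inv_cancel, R.r_one h2 hc] at h
  rw [eq_neg_iff_add_eq_zero, add_comm]
  exact h.symm

lemma r_conj {i : ℕ} (h2 : 2 ≤ i) (hc : i ≤ c) {w : G} (hw : w ∈ gm G i) (g : G) :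
    R.r i (g * w * g⁻¹) = R.r i w := by
  have e : g * w * g⁻¹ = ⁅g, w⁆ * w := by simp [commutatorElement_def, mul_assoc]
  have hm := comm_mem_succ' (show 1 ≤ i by omega) hw g
  rw [e, R.add i h2 hc _ (gm_anti (by omega) hm) _ hw,
    (R.zero i h2 hc _ (gm_anti (by omega) hm)).mpr hm, zero_add]

lemma r_left {i : ℕ} (h2 : 2 ≤ i) (hc : i ≤ c) {u u' v : G} (h : ⁅u, v⁆ ∈ gm G i)
    (h' : ⁅u', v⁆ ∈ gm G i) : R.r i ⁅u * u', v⁆ = R.r i ⁅u, v⁆ + R.r i ⁅u', v⁆ := by
  rw [commutatorElement_mul_left_eq_conj_mul, R.add i h2 hc _ _ _ h, R.r_conj h2 hc h', add_comm]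
  exact (gm_normal i).conj_mem _ h' u

lemma r_right {i : ℕ} (h2 : 2 ≤ i) (hc : i ≤ c) {u v v' : G} (h : ⁅u, v⁆ ∈ gm G i)
    (h' : ⁅u, v'⁆ ∈ gm G i) : R.r i ⁅u, v * v'⁆ = R.r i ⁅u, v⁆ + R.r i ⁅u, v'⁆ := by
  rw [commutatorElement_mul_right_eq_mul_conj]
  have e : ⁅u, v⁆ * v * ⁅u, v'⁆ * v⁻¹ = ⁅u, v⁆ * (v * ⁅u, v'⁆ * v⁻¹) := by group
  rw [e, R.add i h2 hc _ h _ ((gm_normal i).conj_mem _ h' v), R.r_conj h2 hc h']

end RawCo

namespace MaxClass

variable {p c : ℕ} [hp : Fact p.Prime]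

lemma exists_raw (h : MaxClass G p c) : Nonempty (RawCo G p c) := by
  classical
  have hraw : ∀ i, ∃ r : G → ZMod p, 2 ≤ i → i ≤ c →
      (∀ u ∈ gm G i, ∀ v ∈ gm G i, r (u * v) = r u + r v) ∧
      (∀ u ∈ gm G i, (r u = 0 ↔ u ∈ gm G (i + 1))) := by
    intro i
    by_cases hi : 2 ≤ i ∧ i ≤ c
    · obtain ⟨r, h1, h2⟩ := raw_coord (gm G i) (gm G (i + 1)) (h.rel_eq hi.1 hi.2)
      exact ⟨r, fun _ _ => ⟨h1, h2⟩⟩
    · exact ⟨fun _ => 0, fun h1 h2 => absurd ⟨h1, h2⟩ hi⟩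
  choose r hr using hraw
  exact ⟨⟨r, fun i h2 hi => (hr i h2 hi).1, fun i h2 hi => (hr i h2 hi).2⟩⟩

/-- An element of `γ_i` outside `γ_(i+1)`. -/
lemma exists_gen (h : MaxClass G p c) {i : ℕ} (h1 : 1 ≤ i) (hi : i ≤ c) :
    ∃ u ∈ gm G i, u ∉ gm G (i + 1) := by
  by_contra hcon
  push Not at hcon
  exact h.strict h1 hi hcon

/-- If `g` centralizes one generator of `γ_i` modulo `γ_(i+2)` then it is in the two-step
centralizer. -/
lemma mem_tsc_of (h : MaxClass G p c) {i : ℕ} (h2 : 2 ≤ i) (hi : i + 1 ≤ c) {u g : G}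
    (hu : u ∈ gm G i) (hu' : u ∉ gm G (i + 1)) (hug : ⁅u, g⁆ ∈ gm G (i + 2)) : g ∈ tsc G i := by
  obtain ⟨R⟩ := h.exists_raw
  rw [mem_tsc]
  intro w hw
  have hmem : ∀ w ∈ gm G i, ⁅w, g⁆ ∈ gm G (i + 1) := fun w hw => comm_mem_succ (by omega) hw g
  have := kill_of_kill (gm_anti (G := G) (show i ≤ i + 1 by omega)) (r := R.r i)
    (φ := fun w => R.r (i + 1) ⁅w, g⁆) (R.add i h2 (by omega)) (R.zero i h2 (by omega)) ?_ ?_ hu
    hu' ?_ hw
  · exact (R.zero (i + 1) (by omega) hi _ (hmem w hw)).mp this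
  · intro s hs t ht
    exact R.r_left (by omega) hi (hmem s hs) (hmem t ht)
  · intro s hs
    have := comm_mem_succ (show 1 ≤ i + 1 by omega) hs g
    exact (R.zero (i + 1) (by omega) hi _ (gm_anti (by omega) this)).mpr this
  · exact (R.zero (i + 1) (by omega) hi _ (hmem u hu)).mpr hug

/-- Coordinates attached to a given uniform element and a given first generator. -/
theorem coords_of (h : MaxClass G p c) {c₀ : ℕ} (hc₀ : c₀ ≤ c) (x : G)
    (hx : ∀ i, 2 ≤ i → i + 1 ≤ c₀ → x ∉ tsc G i) : ∃ C : Coords G p c₀, C.x = x := by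
  classical
  obtain ⟨R⟩ := h.exists_raw
  obtain ⟨y, hy2, hy3⟩ := h.exists_gen (show 1 ≤ 2 by omega) h.two_le
  -- moving along the series
  have hmove : ∀ i, 2 ≤ i → i + 1 ≤ c₀ → ∀ u ∈ gm G i, u ∉ gm G (i + 1) →
      ⁅u, x⁆ ∉ gm G (i + 2) := by
    intro i h2 hi u hu hu' hux
    exact hx i h2 hi (h.mem_tsc_of h2 (by omega) hu hu' hux)
  have hchain : ∀ n, n + 2 ≤ c₀ ∨ n = 0 → yy x y n ∈ gm G (n + 2) ∧ yy x y n ∉ gm G (n + 3) := by
    intro n
    induction n with
    | zero => intro _; exact ⟨hy2, hy3⟩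
    | succ n ih =>
      intro hn
      have hn' : n + 3 ≤ c₀ := by omega
      have h1 := ih (Or.inl (by omega))
      exact ⟨comm_mem_succ (by omega) h1.1 x, hmove (n + 2) (by omega) (by omega) _ h1.1 h1.2⟩
  have hyi : ∀ i, 2 ≤ i → i ≤ c₀ → yy x y (i - 2) ∈ gm G i ∧ yy x y (i - 2) ∉ gm G (i + 1) := by
    intro i h2 hi
    have := hchain (i - 2) (Or.inl (by omega))
    rwa [show i - 2 + 2 = i by omega, show i - 2 + 3 = i + 1 by omega] at this
  have hne : ∀ i, 2 ≤ i → i ≤ c₀ → R.r i (yy x y (i - 2)) ≠ 0 := by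
    intro i h2 hi h0
    have h1 := hyi i h2 hi
    exact h1.2 ((R.zero i h2 (by omega) _ h1.1).mp h0)
  refine ⟨{
    x := x
    y := fun i => yy x y (i - 2)
    co := fun i u => R.r i u * (R.r i (yy x y (i - 2)))⁻¹
    y_mem := fun i h2 hi => (hyi i h2 hi).1
    y_succ := by
      intro i h2 hi
      show yy x y (i + 1 - 2) = ⁅yy x y (i - 2), x⁆
      rw [show i + 1 - 2 = (i - 2) + 1 by omega]
      rfl
    co_mul := by
      intro i h2 hi u hu v hv
      show R.r i (u * v) * _ = R.r i u * _ + R.r i v * _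
      rw [R.add i h2 (by omega) u hu v hv]
      ring
    co_zero := by
      intro i h2 hi u hu
      show R.r i u * (R.r i (yy x y (i - 2)))⁻¹ = 0 ↔ _
      rw [mul_eq_zero, or_iff_left (inv_ne_zero (hne i h2 hi))]
      exact R.zero i h2 (by omega) u hu
    co_y := by
      intro i h2 hi
      exact mul_inv_cancel₀ (hne i h2 hi) }, rfl⟩

/-- If the first two-step centralizer is contained in the `i`-th one, then an element outside the
first is outside the `i`-th. -/
lemma not_mem_tsc (h : MaxClass G p c) {i : ℕ} (h2 : 2 ≤ i) (hi : i + 1 ≤ c)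
    (hle : tsc G 2 ≤ tsc G i) {x : G} (hx : x ∉ tsc G 2) : x ∉ tsc G i := by
  obtain ⟨R⟩ := h.exists_raw
  intro hxi
  obtain ⟨u, hu, hu'⟩ := h.exists_gen (show 1 ≤ 2 by omega) h.two_le
  obtain ⟨w, hw, hw'⟩ := h.exists_gen (show 1 ≤ i by omega) (by omega)
  have hm2 : ∀ g, ⁅u, g⁆ ∈ gm G 3 := fun g => comm_mem_succ (by omega) hu g
  have hmi : ∀ g, ⁅w, g⁆ ∈ gm G (i + 1) := fun g => comm_mem_succ (by omega) hw g
  apply h.tsc_ne_top (show 1 ≤ i by omega) hi
  rw [eq_top_iff]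
  intro g _
  apply h.mem_tsc_of h2 hi hw hw'
  rw [← R.zero (i + 1) (by omega) hi _ (hmi g)]
  refine kill_of_kill (H := ⊤) (K := tsc G 2) le_top (r := fun g => R.r 3 ⁅u, g⁆)
    (φ := fun g => R.r (i + 1) ⁅w, g⁆) ?_ ?_ ?_ ?_ (mem_top x) hx ?_ (mem_top g)
  · intro a _ b _
    exact R.r_right (by omega) (by omega) (hm2 a) (hm2 b)
  · intro a _
    show R.r 3 ⁅u, a⁆ = 0 ↔ _
    rw [R.zero 3 (by omega) (by omega) _ (hm2 a)]
    constructor
    · intro h'
      exact h.mem_tsc_of le_rfl (by omega) hu hu' h'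
    · intro h'
      exact h' u hu
  · intro a _ b _
    exact R.r_right (by omega) hi (hmi a) (hmi b)
  · intro a ha
    exact (R.zero (i + 1) (by omega) hi _ (hmi a)).mpr (hle ha w hw)
  · exact (R.zero (i + 1) (by omega) hi _ (hmi x)).mpr (hxi w hw)

/-- At most `p` two-step centralizers do not cover the group. -/
lemma exists_avoid (h : MaxClass G p c) (S : Finset ℕ) (hS : S.card ≤ p)
    (hS' : ∀ i ∈ S, 1 ≤ i ∧ i + 1 ≤ c) : ∃ x : G, ∀ i ∈ S, x ∉ tsc G i := by
  classical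
  have hfin := h.finite
  have := Fintype.ofFinite G
  by_contra hcon
  push Not at hcon
  have hsub : (Finset.univ : Finset G).erase 1 ⊆
      S.biUnion (fun i => (Finset.univ.filter (fun g => g ∈ tsc G i)).erase 1) := by
    intro x hx1
    obtain ⟨i, hi, hx⟩ := hcon x
    rw [Finset.mem_biUnion]
    refine ⟨i, hi, ?_⟩
    rw [Finset.mem_erase] at hx1 ⊢
    exact ⟨hx1.1, by simpa using hx⟩
  have h1 := Finset.card_le_card hsub
  have h2 := h1.trans Finset.card_biUnion_le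
  rw [Finset.card_erase_of_mem (Finset.mem_univ _), Finset.card_univ] at h2
  have h3 : ∀ i ∈ S, p * ((Finset.univ.filter (fun g => g ∈ tsc G i)).erase 1).card
      ≤ Fintype.card G - p := by
    intro i hi
    have h4 := h.tsc_card (hS' i hi).1 (hS' i hi).2
    have h5 : Nat.card (tsc G i) = (Finset.univ.filter (fun g => g ∈ tsc G i)).card := by
      rw [Nat.card_eq_fintype_card]
      exact Fintype.card_subtype _
    have h6 : (1 : G) ∈ Finset.univ.filter (fun g => g ∈ tsc G i) := by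
      simp [one_mem]
    rw [Finset.card_erase_of_mem h6, ← h5, ← Nat.card_eq_fintype_card, Nat.mul_sub, mul_one]
    exact Nat.sub_le_sub_right h4 p
  have h4 : p * (Fintype.card G - 1) ≤ S.card * (Fintype.card G - p) := by
    calc p * (Fintype.card G - 1)
        ≤ p * ∑ i ∈ S, ((Finset.univ.filter (fun g => g ∈ tsc G i)).erase 1).card :=
          Nat.mul_le_mul_left _ h2
      _ = ∑ i ∈ S, p * ((Finset.univ.filter (fun g => g ∈ tsc G i)).erase 1).card := by
          rw [Finset.mul_sum]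
      _ ≤ ∑ _i ∈ S, (Fintype.card G - p) := Finset.sum_le_sum h3
      _ = S.card * (Fintype.card G - p) := by rw [Finset.sum_const, smul_eq_mul]
  have h5 : S.card * (Fintype.card G - p) ≤ p * (Fintype.card G - p) :=
    Nat.mul_le_mul_right _ hS
  have h6 : p ≤ Fintype.card G := by
    rw [← Nat.card_eq_fintype_card, h.card]
    exact Nat.le_self_pow (by omega) p
  have h7 := hp.out.two_le
  have h8 : Fintype.card G - 1 ≤ Fintype.card G - p :=
    Nat.le_of_mul_le_mul_left (h4.trans h5) hp.out.pos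
  omega

/-- The group `G / γ_2` has exponent `p`. -/
lemma pow_mem_two (h : MaxClass G p c) (g : G) : g ^ p ∈ gm G 2 := by
  classical
  have hfin := h.finite
  by_contra hg
  -- then `⟨g⟩ γ_2 = G`
  have hidx := h.index_eq (le_refl 2) (by have := h.two_le; omega)
  have hcard : Nat.card (G ⧸ gm G 2) = p ^ 2 := hidx
  have hord : orderOf (g : G ⧸ gm G 2) = p ^ 2 := by
    have h1 : orderOf (g : G ⧸ gm G 2) ∣ p ^ 2 := by
      rw [← hcard]
      exact orderOf_dvd_natCard _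
    obtain ⟨k, hk, hk'⟩ := (Nat.dvd_prime_pow hp.out).mp h1
    rw [hk']
    interval_cases k
    · exfalso
      apply hg
      rw [pow_zero, orderOf_eq_one_iff, QuotientGroup.eq_one_iff] at hk'
      exact pow_mem hk' p
    · exfalso
      apply hg
      rw [pow_one] at hk'
      rw [← QuotientGroup.eq_one_iff, QuotientGroup.mk_pow, ← hk']
      exact pow_orderOf_eq_one _
    · rfl
  have hcyc : IsCyclic (G ⧸ gm G 2) :=
    isCyclic_of_orderOf_eq_card (g : G ⧸ gm G 2) (by rw [hord, hcard])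
  let f : G ⧸ gm G 3 →* G ⧸ gm G 2 :=
    QuotientGroup.map (gm G 3) (gm G 2) (MonoidHom.id G) (by simpa using gm_anti (by omega))
  have hker : f.ker ≤ center (G ⧸ gm G 3) := by
    intro x hx
    induction x using QuotientGroup.induction_on with
    | H a =>
      rw [MonoidHom.mem_ker] at hx
      have ha : a ∈ gm G 2 := by
        have : ((a : G) : G ⧸ gm G 2) = 1 := hx
        rwa [QuotientGroup.eq_one_iff] at this
      rw [mem_center_iff]
      intro g
      induction g using QuotientGroup.induction_on with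
      | H b =>
        have h1 : ⁅a, b⁆ ∈ gm G 3 := comm_mem_succ (by omega) ha b
        have h2 : ⁅(a : G ⧸ gm G 3), (b : G ⧸ gm G 3)⁆ = 1 := by
          have : ((⁅a, b⁆ : G) : G ⧸ gm G 3) = 1 := (QuotientGroup.eq_one_iff _).mpr h1
          simpa [commutatorElement_def] using this
        rw [commutatorElement_eq_one_iff_mul_comm] at h2
        exact h2.symm
  have hcomm := MonoidHom.isMulCommutative_of_isCyclic_of_ker_le_center f hker
  have h4 : ⁅(⊤ : Subgroup G), (⊤ : Subgroup G)⁆ ≤ gm G 3 := by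
    rw [commutator_le]
    intro a _ b _
    rw [← QuotientGroup.eq_one_iff]
    have h3 : (a : G ⧸ gm G 3) * b = b * a := hcomm.is_comm.comm _ _
    have h4 : ⁅(a : G ⧸ gm G 3), (b : G ⧸ gm G 3)⁆ = 1 := by
      rw [commutatorElement_eq_one_iff_mul_comm]
      exact h3
    simpa [commutatorElement_def] using h4
  have e : gm G 2 = ⁅(⊤ : Subgroup G), (⊤ : Subgroup G)⁆ := by
    have := gm_succ (G := G) (show 1 ≤ 1 from le_rfl)
    rwa [gm_one] at this
  rw [← e] at h4
  exact h.strict (by omega) h.two_le h4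

end MaxClass

end Pool.TKB
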