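import Pool.Agent.TKB.Coord

/-!
# Groups of maximal class: indices and coordinates
-/

namespace Pool.TKB

open Subgroup
open scoped commutatorElement

/-- A group of order `p ^ (c+1)` and class `c ≥ 2`, in terms of `gm`. -/
structure MaxClass (G : Type*) [Group G] (p c : ℕ) : Prop where
  card : Nat.card G = p ^ (c + 1)
  two_le : 2 ≤ c
  bot : gm G (c + 1) = ⊥
  ne_bot : gm G c ≠ ⊥

/-- If `N` is central modulo `K` and `G/N` has order `1` or `p`, then `G/K` is abelian. -/
lemma comm_le_of_index {G : Type*} [Group G] {p : ℕ} [hp : Fact p.Prime] {K N : Subgroup G}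
    [K.Normal] [N.Normal] (hKN : K ≤ N) (hN : ⁅N, (⊤ : Subgroup G)⁆ ≤ K)
    (hidx : N.index = 1 ∨ N.index = p) : ⁅(⊤ : Subgroup G), (⊤ : Subgroup G)⁆ ≤ K := by
  have hcyc : IsCyclic (G ⧸ N) := by
    rcases hidx with h | h
    · have : Nat.card (G ⧸ N) = 1 := h
      have hs : Subsingleton (G ⧸ N) := (Nat.card_eq_one_iff_unique.mp this).1
      exact isCyclic_of_subsingleton
    · have : Nat.card (G ⧸ N) = p := h
      exact isCyclic_of_prime_card this
  let f : G ⧸ K →* G ⧸ N := QuotientGroup.map K N (MonoidHom.id G) (by simpa using hKN)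
  have hker : f.ker ≤ center (G ⧸ K) := by
    intro x hx
    induction x using QuotientGroup.induction_on with
    | H a =>
      rw [MonoidHom.mem_ker] at hx
      have ha : a ∈ N := by
        have : ((a : G) : G ⧸ N) = 1 := hx
        rwa [QuotientGroup.eq_one_iff] at this
      rw [mem_center_iff]
      intro g
      induction g using QuotientGroup.induction_on with
      | H b =>
        have h1 : ⁅a, b⁆ ∈ K := hN (commutator_mem_commutator ha (mem_top b))
        have h2 : ⁅(a : G ⧸ K), (b : G ⧸ K)⁆ = 1 := by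
          have : ((⁅a, b⁆ : G) : G ⧸ K) = 1 := (QuotientGroup.eq_one_iff _).mpr h1
          simpa [commutatorElement_def] using this
        rw [commutatorElement_eq_one_iff_mul_comm] at h2
        exact h2.symm
  have hcomm := MonoidHom.isMulCommutative_of_isCyclic_of_ker_le_center f hker
  rw [commutator_le]
  intro a _ b _
  rw [← QuotientGroup.eq_one_iff]
  have h3 : (a : G ⧸ K) * b = b * a := hcomm.is_comm.comm _ _
  have h4 : ⁅(a : G ⧸ K), (b : G ⧸ K)⁆ = 1 := by
    rw [commutatorElement_eq_one_iff_mul_comm]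
    exact h3
  simpa [commutatorElement_def] using h4

namespace MaxClass

variable {G : Type*} [Group G] {p c : ℕ}

lemma finite [hp : Fact p.Prime] (h : MaxClass G p c) : Finite G := by
  apply Nat.finite_of_card_ne_zero
  rw [h.card]
  exact pow_ne_zero _ hp.out.ne_zero

lemma strict (h : MaxClass G p c) {i : ℕ} (h1 : 1 ≤ i) (hc : i ≤ c) :
    ¬ gm G i ≤ gm G (i + 1) := by
  intro hle
  have key : ∀ k, gm G (i + k) ≤ gm G (i + k + 1) := by
    intro k
    induction k with
    | zero => exact hle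
    | succ k ih =>
      rw [show i + (k + 1) = i + k + 1 by ring, gm_succ (show 1 ≤ i + k by omega),
        gm_succ (show 1 ≤ i + k + 1 by omega)]
      exact commutator_mono ih le_rfl
  have h2 := key (c - i)
  rw [show i + (c - i) = c by omega, h.bot] at h2
  exact h.ne_bot (le_bot_iff.mp h2)

lemma index_dvd (h : MaxClass G p c) (H : Subgroup G) : H.index ∣ p ^ (c + 1) := by
  rw [← h.card]
  exact H.index_dvd_card

lemma rel_ge [hp : Fact p.Prime] (h : MaxClass G p c) {i : ℕ} (h1 : 1 ≤ i) (hc : i ≤ c) :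
    p ≤ (gm G (i + 1)).relIndex (gm G i) := by
  have hle : gm G (i + 1) ≤ gm G i := gm_anti (by omega)
  have hdvd : (gm G (i + 1)).relIndex (gm G i) ∣ p ^ (c + 1) :=
    (relIndex_dvd_index_of_le hle).trans (h.index_dvd _)
  obtain ⟨k, _, hk⟩ := (Nat.dvd_prime_pow hp.out).mp hdvd
  have hne : (gm G (i + 1)).relIndex (gm G i) ≠ 1 := by
    intro h1'
    rw [relIndex_eq_one] at h1'
    exact h.strict h1 hc h1'
  rw [hk] at hne ⊢
  have hk0 : k ≠ 0 := by
    rintro rfl
    exact hne (pow_zero p)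
  exact Nat.le_self_pow hk0 p

lemma index_two_ge [hp : Fact p.Prime] (h : MaxClass G p c) : p ^ 2 ≤ (gm G 2).index := by
  obtain ⟨k, _, hk⟩ := (Nat.dvd_prime_pow hp.out).mp (h.index_dvd (gm G 2))
  have h2 := h.two_le
  have hcontra : ¬ ((gm G 2).index = 1 ∨ (gm G 2).index = p) := by
    intro hidx
    have hle := comm_le_of_index (K := gm G 3) (N := gm G 2) (p := p) (gm_anti (by omega))
      (by rw [← gm_succ (show 1 ≤ 2 by omega)]) hidx
    have e : gm G 2 = ⁅(⊤ : Subgroup G), (⊤ : Subgroup G)⁆ := by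
      have := gm_succ (G := G) (show 1 ≤ 1 from le_rfl)
      rwa [gm_one] at this
    rw [← e] at hle
    exact h.strict (by omega) h.two_le hle
  rw [hk] at hcontra ⊢
  apply Nat.pow_le_pow_right hp.out.pos
  by_contra hlt
  push Not at hlt
  apply hcontra
  interval_cases k
  · left; simp
  · right; simp

lemma index_ge [hp : Fact p.Prime] (h : MaxClass G p c) :
    ∀ i, 2 ≤ i → i ≤ c + 1 → p ^ i ≤ (gm G i).index := by
  intro i h2
  induction i, h2 using Nat.le_induction with
  | base => intro _; exact h.index_two_ge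
  | succ i hi ih =>
    intro hc
    have h1 := relIndex_mul_index (gm_anti (G := G) (show i ≤ i + 1 by omega))
    rw [← h1, pow_succ, mul_comm]
    exact Nat.mul_le_mul (h.rel_ge (by omega) (by omega)) (ih (by omega))

lemma index_le [hp : Fact p.Prime] (h : MaxClass G p c) :
    ∀ k i, i + k = c + 1 → 2 ≤ i → p ^ k * (gm G i).index ≤ p ^ (c + 1) := by
  intro k
  induction k with
  | zero =>
    intro i hi h2
    rw [pow_zero, one_mul]
    apply Nat.le_of_dvd (pow_pos hp.out.pos _) (h.index_dvd _)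
  | succ k ih =>
    intro i hi h2
    have h1 := ih (i + 1) (by omega) (by omega)
    have h3 := relIndex_mul_index (gm_anti (G := G) (show i ≤ i + 1 by omega))
    have h4 := h.rel_ge (show 1 ≤ i by omega) (by omega)
    calc p ^ (k + 1) * (gm G i).index = p ^ k * (p * (gm G i).index) := by ring
      _ ≤ p ^ k * ((gm G (i + 1)).relIndex (gm G i) * (gm G i).index) := by
          apply Nat.mul_le_mul_left
          exact Nat.mul_le_mul_right _ h4
      _ = p ^ k * (gm G (i + 1)).index := by rw [h3]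
      _ ≤ _ := h1

lemma index_eq [hp : Fact p.Prime] (h : MaxClass G p c) {i : ℕ} (h2 : 2 ≤ i) (hc : i ≤ c + 1) :
    (gm G i).index = p ^ i := by
  apply le_antisymm _ (h.index_ge i h2 hc)
  have h1 := h.index_le (c + 1 - i) i (by omega) h2
  have h3 : p ^ (c + 1) = p ^ (c + 1 - i) * p ^ i := by
    rw [← pow_add]
    congr 1
    omega
  rw [h3] at h1
  exact Nat.le_of_mul_le_mul_left h1 (pow_pos hp.out.pos _)

lemma rel_eq [hp : Fact p.Prime] (h : MaxClass G p c) {i : ℕ} (h2 : 2 ≤ i) (hc : i ≤ c) :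
    (gm G (i + 1)).relIndex (gm G i) = p := by
  have h1 := relIndex_mul_index (gm_anti (G := G) (show i ≤ i + 1 by omega))
  rw [h.index_eq h2 (by omega), h.index_eq (show 2 ≤ i + 1 by omega) (by omega), pow_succ,
    mul_comm] at h1
  exact Nat.eq_of_mul_eq_mul_left (pow_pos hp.out.pos _) h1

end MaxClass

/-- A raw coordinate on a section of prime order. -/
lemma raw_coord {G : Type*} [Group G] {p : ℕ} [hp : Fact p.Prime] (H K : Subgroup G) [K.Normal]
    (hrel : K.relIndex H = p) :
    ∃ r : G → ZMod p, (∀ u ∈ H, ∀ v ∈ H, r (u * v) = r u + r v) ∧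
      (∀ u ∈ H, (r u = 0 ↔ u ∈ K)) := by
  classical
  have hcard : Nat.card (H ⧸ K.subgroupOf H) = p := hrel
  have hcard' : Nat.card (Multiplicative (ZMod p)) = p := by
    rw [Nat.card_congr Multiplicative.toAdd, Nat.card_zmod]
  let e : (H ⧸ K.subgroupOf H) ≃* Multiplicative (ZMod p) := mulEquivOfPrimeCardEq hcard hcard'
  refine ⟨fun u => if h : u ∈ H then Multiplicative.toAdd (e (QuotientGroup.mk ⟨u, h⟩)) else 0,
    ?_, ?_⟩
  · intro u hu v hv
    simp only [dif_pos hu, dif_pos hv, dif_pos (mul_mem hu hv)]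
    rw [← toAdd_mul, ← map_mul, ← QuotientGroup.mk_mul]
    rfl
  · intro u hu
    simp only [dif_pos hu]
    rw [toAdd_eq_zero, map_eq_one_iff e e.injective, QuotientGroup.eq_one_iff,
      mem_subgroupOf]

/-- An additive function on `H` killing `K` and one element outside `K` vanishes on `H`. -/
lemma kill_of_kill {G : Type*} [Group G] {p : ℕ} [hp : Fact p.Prime] {H K : Subgroup G}
    (hKH : K ≤ H) {r φ : G → ZMod p} (hr : ∀ u ∈ H, ∀ v ∈ H, r (u * v) = r u + r v)
    (hr0 : ∀ u ∈ H, (r u = 0 ↔ u ∈ K)) (hφ : ∀ u ∈ H, ∀ v ∈ H, φ (u * v) = φ u + φ v)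
    (hφ0 : ∀ u ∈ K, φ u = 0) {u : G} (hu : u ∈ H) (huK : u ∉ K) (hφu : φ u = 0) {w : G}
    (hw : w ∈ H) : φ w = 0 := by
  have hru : r u ≠ 0 := fun h => huK ((hr0 u hu).mp h)
  have hr1 : r 1 = 0 := (hr0 1 (one_mem _)).mpr (one_mem _)
  have hφ1 : φ 1 = 0 := hφ0 1 (one_mem _)
  have hrpow : ∀ n : ℕ, r (u ^ n) = n * r u := by
    intro n
    induction n with
    | zero => simp [hr1]
    | succ n ih =>
      rw [pow_succ, hr _ (pow_mem hu n) _ hu, ih]
      push_cast
      ring
  have hφpow : ∀ n : ℕ, φ (u ^ n) = 0 := by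
    intro n
    induction n with
    | zero => simp [hφ1]
    | succ n ih => rw [pow_succ, hφ _ (pow_mem hu n) _ hu, ih, hφu, add_zero]
  set k := (r w / r u).val with hk
  have hkc : ((k : ℕ) : ZMod p) = r w / r u := ZMod.natCast_zmod_val _
  have hpk := pow_mem hu k
  have hinv : r (u ^ k)⁻¹ = - r (u ^ k) := by
    have h := hr _ hpk _ (inv_mem hpk)
    rw [mul_inv_cancel, hr1] at h
    rw [eq_neg_iff_add_eq_zero, add_comm]
    exact h.symm
  have hv : w * (u ^ k)⁻¹ ∈ K := by
    rw [← hr0 _ (mul_mem hw (inv_mem hpk)), hr _ hw _ (inv_mem hpk), hinv, hrpow, hkc,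
      div_mul_cancel₀ _ hru]
    ring
  have e : φ w = φ (w * (u ^ k)⁻¹) + φ (u ^ k) := by
    rw [← hφ _ (mul_mem hw (inv_mem hpk)) _ hpk]
    congr 1
    group
  rw [e, hφ0 _ hv, hφpow, add_zero]

end Pool.TKB
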