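import Pool.Agent.TKB.Small

/-!
# The power map in groups of maximal class
-/

namespace Pool.TKB

open Subgroup
open scoped commutatorElement

lemma comm_pow_left {Q : Type*} [Group Q] {u w : Q} (h : Commute u ⁅u, w⁆) (n : ℕ) :
    ⁅u ^ n, w⁆ = ⁅u, w⁆ ^ n := by
  induction n with
  | zero => simp
  | succ n ih =>
    rw [pow_succ', commutatorElement_mul_left_eq_conj_mul, ih, (h.pow_right n).eq,
      mul_inv_cancel_right, ← pow_succ]

variable {G : Type*} [Group G]

lemma comm_pow_mod {M : Subgroup G} [M.Normal] {u w : G} (h : ⁅u, ⁅u, w⁆⁆ ∈ M) (n : ℕ) :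
    (⁅u, w⁆ ^ n)⁻¹ * ⁅u ^ n, w⁆ ∈ M := by
  rw [← QuotientGroup.eq, QuotientGroup.mk_pow]
  have e : ∀ a b : G, ((⁅a, b⁆ : G) : G ⧸ M) = ⁅(a : G ⧸ M), (b : G ⧸ M)⁆ :=
    fun a b => map_commutatorElement (QuotientGroup.mk' M) a b
  rw [e, e, QuotientGroup.mk_pow, comm_pow_left]
  rw [← commutatorElement_eq_one_iff_commute, ← e, ← e, QuotientGroup.eq_one_iff]
  exact h

/-- Powers and commutators modulo a normal subgroup. -/
lemma pow_comm_iff {M N : Subgroup G} [M.Normal] (hMN : M ≤ N) {u w : G}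
    (h : ⁅u, ⁅u, w⁆⁆ ∈ M) (n : ℕ) : ⁅u ^ n, w⁆ ∈ N ↔ ⁅u, w⁆ ^ n ∈ N := by
  have h1 := hMN (comm_pow_mod h n)
  constructor
  · intro h2
    have h3 := mul_mem h2 (inv_mem h1)
    have e : ⁅u ^ n, w⁆ * ((⁅u, w⁆ ^ n)⁻¹ * ⁅u ^ n, w⁆)⁻¹ = ⁅u, w⁆ ^ n := by group
    rwa [e] at h3
  · intro h2
    have h3 := mul_mem h2 h1
    rwa [mul_inv_cancel_left] at h3

lemma mul_pow_mod {M : Subgroup G} [M.Normal] {u v : G} (h : ⁅u, v⁆ ∈ M) (n : ℕ) :
    (u ^ n * v ^ n)⁻¹ * (u * v) ^ n ∈ M := by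
  rw [← QuotientGroup.eq]
  have hc : Commute (u : G ⧸ M) (v : G ⧸ M) := by
    rw [← commutatorElement_eq_one_iff_commute]
    have e : ((⁅u, v⁆ : G) : G ⧸ M) = ⁅(u : G ⧸ M), (v : G ⧸ M)⁆ :=
      map_commutatorElement (QuotientGroup.mk' M) u v
    rw [← e, QuotientGroup.eq_one_iff]
    exact h
  rw [QuotientGroup.mk_mul, QuotientGroup.mk_pow, QuotientGroup.mk_pow, QuotientGroup.mk_pow,
    QuotientGroup.mk_mul, hc.mul_pow]

lemma ring_one_sub {R : Type*} [Ring R] {p : ℕ} (hp : p.Prime) (h0 : (p : R) = 0) (S : R) :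
    (1 - S) ^ p = 1 - S ^ p := by
  obtain ⟨r, hr⟩ := (Commute.one_left (-S)).exists_add_pow_prime_eq hp
  rw [h0, zero_mul, zero_mul, zero_mul, add_zero, one_pow] at hr
  rw [sub_eq_add_neg, hr]
  rcases hp.eq_two_or_odd' with h2 | hodd
  · subst h2
    rw [neg_sq, sub_eq_add_neg]
    congr 1
    have h3 : S ^ 2 + S ^ 2 = 0 := by
      rw [← two_mul]
      have : ((2 : ℕ) : R) * S ^ 2 = 0 := by rw [h0, zero_mul]
      exact_mod_cast this
    exact eq_neg_of_add_eq_zero_left h3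
  · rw [hodd.neg_pow, sub_eq_add_neg]

/-- In an abelian group of exponent `p`, `(1 - σ)^p = 1 - σ^p`. -/
lemma iter_lemma {A : Type*} [CommGroup A] {p : ℕ} (hp : p.Prime) (hA : ∀ a : A, a ^ p = 1)
    (σ : A →* A) (τ : A → A) (hτ : ∀ a, τ a = a * (σ a)⁻¹) (a : A) :
    τ^[p] a = a * (σ^[p] a)⁻¹ := by
  let S : AddMonoid.End (Additive A) := MonoidHom.toAdditive σ
  have hS : ∀ n, ∀ b : A, (S ^ n) (Additive.ofMul b) = Additive.ofMul (σ^[n] b) := by
    intro n
    induction n with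
    | zero => intro b; rfl
    | succ n ih =>
      intro b
      rw [pow_succ, Function.iterate_succ_apply]
      exact ih (σ b)
  have hT : ∀ n, ∀ b : A, ((1 - S) ^ n) (Additive.ofMul b) = Additive.ofMul (τ^[n] b) := by
    intro n
    induction n with
    | zero => intro b; rfl
    | succ n ih =>
      intro b
      rw [pow_succ, Function.iterate_succ_apply]
      have e : (1 - S) (Additive.ofMul b) = Additive.ofMul (τ b) := by
        rw [hτ, ofMul_mul, ofMul_inv, ← sub_eq_add_neg]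
        rfl
      show ((1 - S) ^ n) ((1 - S) (Additive.ofMul b)) = _
      rw [e]
      exact ih (τ b)
  have hp0 : ((p : ℕ) : AddMonoid.End (Additive A)) = 0 := by
    apply AddMonoidHom.ext
    intro b
    have h1 := hA (Additive.toMul b)
    have h2 : p • b = 0 := h1
    have h3 := AddMonoid.End.natCast_apply p b
    rw [h2] at h3
    exact h3
  have hpow := ring_one_sub hp hp0 S
  have h1 := hT p a
  rw [hpow] at h1
  apply Additive.ofMul.injective
  rw [← h1, ofMul_mul, ofMul_inv, ← sub_eq_add_neg, ← hS p a]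
  rfl

namespace MaxClass

variable {p c : ℕ} [hp : Fact p.Prime]

/-- The `p`-th power of a uniform element is deep. -/
lemma pow_deep (h : MaxClass G p c) {x : G} {N : ℕ} (hN : N + 1 ≤ c)
    (hx : ∀ i, 2 ≤ i → i ≤ N → x ∉ tsc G i) : ∀ i, 2 ≤ i → i ≤ N + 1 → x ^ p ∈ gm G i := by
  intro i h2
  induction i, h2 using Nat.le_induction with
  | base => intro _; exact h.pow_mem_two x
  | succ i h2 ih =>
    intro hi
    by_contra hcon
    apply hx i h2 (by omega)
    apply h.mem_tsc_of h2 (by omega) (ih (by omega)) hcon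
    have e : ⁅x ^ p, x⁆ = 1 := by
      rw [commutatorElement_eq_one_iff_commute]
      exact (Commute.refl x).pow_left p
    rw [e]
    exact one_mem _

lemma comm_gm (h : MaxClass G p c) {e N : ℕ} (he : p ≤ e) (heN : e + p = N + 1)
    (hN : N + 1 ≤ c) {x : G} (hx : ∀ i, 2 ≤ i → i ≤ N → x ∉ tsc G i) :
    ⁅gm G e, gm G e⁆ ≤ gm G (e + p + 1) := by
  have hp2 := hp.out.two_le
  obtain ⟨C, hC⟩ := h.coords_of hN x (fun i h2 hi => hx i h2 (by omega))
  rcases Nat.eq_or_lt_of_le he with h1 | h1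
  · exact (diag_le C (show 2 ≤ e by omega) (by omega)).trans (gm_anti (by omega))
  · exact (gm_comm e e (by omega) (by omega)).trans (gm_anti (by omega))

/-- Sections of length `p + 1` are not of exponent `p`. -/
theorem exists_pow (h : MaxClass G p c) {e N : ℕ} (he : p ≤ e) (heN : e + p = N + 1)
    (hN : N + 1 ≤ c) {x : G} (hx : ∀ i, 2 ≤ i → i ≤ N → x ∉ tsc G i) :
    ∃ u ∈ gm G e, u ^ p ∉ gm G (e + p + 1) := by
  classical
  have hp2 := hp.out.two_le
  by_contra hcon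
  push Not at hcon
  obtain ⟨C, hC⟩ := h.coords_of hN x (fun i h2 hi => hx i h2 (by omega))
  have hcomm := h.comm_gm he heN hN hx
  have hdeep := h.pow_deep hN hx (N + 1) (by omega) le_rfl
  set H := gm G e with hH
  set K := gm G (e + p + 1) with hK
  let cg : CommGroup (H ⧸ K.subgroupOf H) :=
    { (inferInstance : Group (H ⧸ K.subgroupOf H)) with
      mul_comm := by
        intro a b
        induction a using QuotientGroup.induction_on with
        | H a =>
          induction b using QuotientGroup.induction_on with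
          | H b =>
            show ((a * b : H) : H ⧸ K.subgroupOf H) = ((b * a : H) : H ⧸ K.subgroupOf H)
            rw [QuotientGroup.eq, mem_subgroupOf]
            have h1 : ⁅(b : G)⁻¹, (a : G)⁻¹⁆ ∈ K :=
              hcomm (commutator_mem_commutator (inv_mem b.2) (inv_mem a.2))
            have e1 : (((a * b)⁻¹ * (b * a) : H) : G) = ⁅(b : G)⁻¹, (a : G)⁻¹⁆ := by
              simp [commutatorElement_def, mul_assoc]
            rw [e1]
            exact h1 }
  have hexp : ∀ a : H ⧸ K.subgroupOf H, a ^ p = 1 := by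
    intro a
    induction a using QuotientGroup.induction_on with
    | H a =>
      rw [← QuotientGroup.mk_pow, QuotientGroup.eq_one_iff, mem_subgroupOf]
      exact hcon a a.2
  let cj : H →* H := (MulAut.conjNormal x).toMonoidHom
  have hcj : ∀ a : H, ((cj a : H) : G) = x * a * x⁻¹ := fun a => MulAut.conjNormal_apply x a
  let σ : (H ⧸ K.subgroupOf H) →* (H ⧸ K.subgroupOf H) :=
    QuotientGroup.map (K.subgroupOf H) (K.subgroupOf H) cj (by
      intro a ha
      rw [mem_subgroupOf] at ha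
      rw [mem_comap, mem_subgroupOf, hcj]
      exact (gm_normal _).conj_mem _ ha x)
  have hσ : ∀ a : H, σ (a : H ⧸ K.subgroupOf H) = ((cj a : H) : H ⧸ K.subgroupOf H) := fun _ => rfl
  have hσn : ∀ n (a : H), ∃ b : H, σ^[n] (a : H ⧸ K.subgroupOf H) = (b : H ⧸ K.subgroupOf H) ∧
      (b : G) = x ^ n * a * (x ^ n)⁻¹ := by
    intro n
    induction n with
    | zero => intro a; exact ⟨a, rfl, by simp⟩
    | succ n ih =>
      intro a
      obtain ⟨b, hb1, hb2⟩ := ih a
      refine ⟨cj b, ?_, ?_⟩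
      · rw [Function.iterate_succ_apply', hb1, hσ]
      · rw [hcj, hb2, pow_succ']
        group
  let τ : (H ⧸ K.subgroupOf H) → (H ⧸ K.subgroupOf H) := fun a => a * (σ a)⁻¹
  have key := fun a => iter_lemma (A := H ⧸ K.subgroupOf H) hp.out hexp σ τ (fun _ => rfl) a
  -- the sequence
  have hy : ∀ j, j ≤ p → C.y (e + j) ∈ H := fun j hj =>
    gm_anti (by omega) (C.y_mem (e + j) (by omega) (by omega))
  have hseq : ∀ j (hj : j ≤ p), ((⟨C.y (e + j), hy j hj⟩ : H) : H ⧸ K.subgroupOf H)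
      = τ^[j] ((⟨C.y e, hy 0 (by omega)⟩ : H) : H ⧸ K.subgroupOf H) := by
    intro j
    induction j with
    | zero => intro _; rfl
    | succ j ih =>
      intro hj
      rw [Function.iterate_succ_apply', ← ih (by omega)]
      show _ = ((⟨C.y (e + j), hy j (by omega)⟩ : H) : H ⧸ K.subgroupOf H) * (σ _)⁻¹
      rw [hσ, ← QuotientGroup.mk_inv, ← QuotientGroup.mk_mul]
      congr 1
      apply Subtype.ext
      show C.y (e + j + 1) = C.y (e + j) * ((cj ⟨C.y (e + j), hy j (by omega)⟩ : H) : G)⁻¹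
      rw [hcj, C.y_succ (e + j) (by omega) (by omega), hC, commutatorElement_def]
      group
  have h1 := hseq p le_rfl
  rw [key] at h1
  obtain ⟨b, hb1, hb2⟩ := hσn p ⟨C.y e, hy 0 (by omega)⟩
  have h2 : ((⟨C.y (e + p), hy p le_rfl⟩ : H) : H ⧸ K.subgroupOf H) = 1 := by
    rw [h1, hb1, ← QuotientGroup.mk_inv, ← QuotientGroup.mk_mul, QuotientGroup.eq_one_iff,
      mem_subgroupOf]
    show (C.y e : G) * (b : G)⁻¹ ∈ K
    rw [hb2]
    show C.y e * (x ^ p * C.y e * (x ^ p)⁻¹)⁻¹ ∈ K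
    have e1 : C.y e * (x ^ p * C.y e * (x ^ p)⁻¹)⁻¹ = ⁅C.y e, x ^ p⁆ := by
      rw [commutatorElement_def]
      group
    rw [e1]
    exact gm_anti (by omega) (gm_comm (N + 1) e (by omega) (by omega)
      (commutator_mem_commutator (hy 0 (by omega)) hdeep))
  rw [QuotientGroup.eq_one_iff, mem_subgroupOf] at h2
  have h3 := (C.co_zero (e + p) (by omega) (by omega) _ (C.y_mem (e + p) (by omega) (by omega))).mpr
    h2
  rw [C.co_y (e + p) (by omega) (by omega)] at h3
  exact one_ne_zero h3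

/-- The power map moves down along the series. -/
lemma pow_down {i t : ℕ} (hi : t ≤ i) (hi1 : 1 ≤ i)
    (hpow : ∀ u ∈ gm G i, u ^ p ∈ gm G (i + t)) : ∀ u ∈ gm G (i + 1), u ^ p ∈ gm G (i + t + 1) := by
  intro u hu
  rw [gm_succ hi1] at hu
  -- generators
  have hgen : ∀ v ∈ gm G i, ∀ g : G, ⁅v, g⁆ ^ p ∈ gm G (i + t + 1) := by
    intro v hv g
    have h1 : ⁅v, ⁅v, g⁆⁆ ∈ gm G (i + (i + 1)) :=
      gm_comm (i + 1) i hi1 (by omega) (commutator_mem_commutator hv (comm_mem_succ hi1 hv g))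
    rw [← pow_comm_iff (gm_anti (show i + t + 1 ≤ i + (i + 1) by omega)) h1]
    exact comm_mem_succ (by omega) (hpow v hv) g
  have hmem : ∀ v ∈ gm G i, ∀ g : G, ⁅v, g⁆ ∈ gm G (i + 1) := fun v hv g => comm_mem_succ hi1 hv g
  refine Subgroup.closure_induction (p := fun u _ => u ∈ gm G (i + 1) ∧ u ^ p ∈ gm G (i + t + 1))
    ?_ ?_ ?_ ?_ hu |>.2
  · rintro _ ⟨v, hv, g, _, rfl⟩
    exact ⟨hmem v hv g, hgen v hv g⟩
  · exact ⟨one_mem _, by rw [one_pow]; exact one_mem _⟩
  · rintro a b _ _ ⟨ha1, ha2⟩ ⟨hb1, hb2⟩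
    refine ⟨mul_mem ha1 hb1, ?_⟩
    have h1 : ⁅a, b⁆ ∈ gm G (i + 1 + (i + 1)) :=
      gm_comm (i + 1) (i + 1) (by omega) (by omega) (commutator_mem_commutator ha1 hb1)
    have h2 := gm_anti (show i + t + 1 ≤ i + 1 + (i + 1) by omega) (mul_pow_mod h1 p)
    have h3 := mul_mem (mul_mem ha2 hb2) h2
    rwa [mul_inv_cancel_left] at h3
  · rintro a _ ⟨ha1, ha2⟩
    exact ⟨inv_mem ha1, by rw [inv_pow]; exact inv_mem ha2⟩

/-- `p`-th powers are one step deeper. -/
lemma pow_mem_succ (h : MaxClass G p c) {i : ℕ} (h2 : 2 ≤ i) (hi : i ≤ c) {u : G}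
    (hu : u ∈ gm G i) : u ^ p ∈ gm G (i + 1) := by
  obtain ⟨R⟩ := h.exists_raw
  have hpow : ∀ n : ℕ, R.r i (u ^ n) = n * R.r i u := by
    intro n
    induction n with
    | zero => simp [R.r_one h2 hi]
    | succ n ih =>
      rw [pow_succ, R.add i h2 hi _ (pow_mem hu n) _ hu, ih]
      push_cast
      ring
  rw [← R.zero i h2 hi _ (pow_mem hu p), hpow]
  simp

/-- The power map has a well defined depth on each factor. -/
theorem powT (h : MaxClass G p c) {e N : ℕ} (he : p ≤ e) (heN : e + p = N + 1)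
    (hN : N + 1 ≤ c) {x : G} (hx : ∀ i, 2 ≤ i → i ≤ N → x ∉ tsc G i) :
    ∃ t, 1 ≤ t ∧ t ≤ p ∧ (∀ u ∈ gm G e, u ^ p ∈ gm G (e + t)) ∧
      ∀ u ∈ gm G e, u ∉ gm G (e + 1) → u ^ p ∉ gm G (e + t + 1) := by
  classical
  have hp2 := hp.out.two_le
  obtain ⟨u₀, hu₀, hu₀'⟩ := h.exists_pow he heN hN hx
  have hcomm := h.comm_gm he heN hN hx
  let P : ℕ → Prop := fun t => ∀ u ∈ gm G e, u ^ p ∈ gm G (e + t)
  have hP0 : P 0 := fun u hu => pow_mem hu p
  set t := Nat.findGreatest P (p + 1) with ht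
  have hPt : P t := Nat.findGreatest_spec (P := P) (Nat.zero_le (p + 1)) hP0
  have htp : t ≤ p := by
    have h1 : t ≤ p + 1 := Nat.findGreatest_le _
    rcases Nat.eq_or_lt_of_le h1 with h2 | h2
    · exfalso
      apply hu₀'
      have := hPt u₀ hu₀
      rwa [h2] at this
    · omega
  have hPt1 : ¬ P (t + 1) := by
    intro h1
    have := Nat.le_findGreatest (P := P) (show t + 1 ≤ p + 1 by omega) h1
    omega
  have ht0 : 1 ≤ t := Nat.le_findGreatest (P := P) (by omega)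
    (fun u hu => h.pow_mem_succ (by omega) (by omega) hu)
  refine ⟨t, ht0, htp, hPt, ?_⟩
  intro u hu hu' hup
  apply hPt1
  intro w hw
  obtain ⟨R⟩ := h.exists_raw
  have h2t : 2 ≤ e + t := by omega
  have htc : e + t ≤ c := by omega
  have hdown := pow_down (G := G) (p := p) (i := e) (t := t) (by omega) (by omega) hPt
  have hadd : ∀ a ∈ gm G e, ∀ b ∈ gm G e, R.r (e + t) ((a * b) ^ p)
      = R.r (e + t) (a ^ p) + R.r (e + t) (b ^ p) := by
    intro a ha b hb
    have h1 : ⁅a, b⁆ ∈ gm G (e + p + 1) := hcomm (commutator_mem_commutator ha hb)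
    have h3 := gm_anti (show e + t + 1 ≤ e + p + 1 by omega) (mul_pow_mod h1 p)
    have h4 : (a * b) ^ p = (a ^ p * b ^ p) * ((a ^ p * b ^ p)⁻¹ * (a * b) ^ p) := by
      rw [mul_inv_cancel_left]
    rw [h4, R.add _ h2t htc _ (mul_mem (hPt a ha) (hPt b hb)) _ (gm_anti (by omega) h3),
      (R.zero _ h2t htc _ (gm_anti (by omega) h3)).mpr h3, add_zero,
      R.add _ h2t htc _ (hPt a ha) _ (hPt b hb)]
  have := kill_of_kill (gm_anti (G := G) (show e ≤ e + 1 by omega)) (r := R.r e)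
    (φ := fun w => R.r (e + t) (w ^ p)) (R.add e (by omega) (by omega))
    (R.zero e (by omega) (by omega)) hadd ?_ hu hu' ?_ hw
  · exact (R.zero _ h2t htc _ (hPt w hw)).mp this
  · intro s hs
    exact (R.zero _ h2t htc _ (gm_anti (by omega) (hdown s hs))).mpr (hdown s hs)
  · exact (R.zero _ h2t htc _ (hPt u hu)).mpr hup

end MaxClass

end Pool.TKB
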