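import Pool.Agent.TKB.CoordOf

/-!
# The first two-step centralizers coincide
-/

namespace Pool.TKB

open Subgroup
open scoped commutatorElement

/-- The algebra behind the first deviation of the two-step centralizers. -/
lemma dev_alg {F : Type*} [Field F] (α : ℕ → ℕ → F) (L : ℕ → F) (ε : F) (k c₀ : ℕ) (hk : 3 ≤ k)
    (hc : k + 1 ≤ c₀)
    (hself : ∀ a, 2 ≤ a → a + a ≤ c₀ → α a a = 0)
    (hrec : ∀ a b, 2 ≤ a → 2 ≤ b → a + b + 1 ≤ c₀ → α a b = α (a + 1) b + α a (b + 1))
    (hL : ∀ m, 2 ≤ m → m + 2 ≤ c₀ → L m = L (m + 1) + ε * α m 2)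
    (hJ : ∀ i j, 2 ≤ i → 2 ≤ j → i + j + 1 ≤ c₀ →
      α i j * L (i + j) = L i * α (i + 1) j + L j * α i (j + 1))
    (hzero : ∀ m, 2 ≤ m → m < k → L m = 0) (hne : L k ≠ 0) :
    (∃ h, k = 2 * h) ∧ (k + 2 ≤ c₀ → ∃ h : ℕ, k = 2 * h ∧ (h : F) = 0) := by
  -- relation at k - 1
  have h1 : L k + ε * α (k - 1) 2 = 0 := by
    have := hL (k - 1) (by omega) (by omega)
    rw [show k - 1 + 1 = k by omega, hzero (k - 1) (by omega) (by omega)] at this
    exact this.symm
  have hε : ε ≠ 0 := by
    rintro rfl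
    rw [zero_mul, add_zero] at h1
    exact hne h1
  have hu : α (k - 1) 2 ≠ 0 := by
    intro h0
    rw [h0, mul_zero, add_zero] at h1
    exact hne h1
  -- values up to level k vanish
  have hvan : ∀ j, 2 ≤ j → ∀ i, 2 ≤ i → i + j ≤ k → α i j = 0 := by
    intro j hj
    induction j, hj using Nat.le_induction with
    | base =>
      intro i hi hik
      have := hL i hi (by omega)
      rw [hzero i hi (by omega), hzero (i + 1) (by omega) (by omega), zero_add] at this
      exact (mul_eq_zero.mp this.symm).resolve_left hε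
    | succ j hj ih =>
      intro i hi hik
      have := hrec i j hi hj (by omega)
      rw [ih i hi (by omega), ih (i + 1) (by omega) (by omega), zero_add] at this
      exact this.symm
  -- level k + 1
  have hlev : ∀ j, 2 ≤ j → j + 2 ≤ k + 1 → α (k + 1 - j) j = (-1) ^ j * α (k - 1) 2 := by
    intro j hj
    induction j, hj using Nat.le_induction with
    | base =>
      intro _
      rw [show k + 1 - 2 = k - 1 by omega]
      ring
    | succ j hj ih =>
      intro hjk
      have h2 := hrec (k + 1 - (j + 1)) j (by omega) hj (by omega)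
      rw [hvan j hj _ (by omega) (by omega), show k + 1 - (j + 1) + 1 = k + 1 - j by omega,
        ih (by omega)] at h2
      rw [pow_succ]
      linear_combination -h2
  have heven : ∃ h, k = 2 * h := by
    rcases Nat.even_or_odd k with he | ho
    · obtain ⟨h, hh⟩ := he
      exact ⟨h, by omega⟩
    · exfalso
      obtain ⟨m, hm⟩ := ho
      have h2 := hlev (m + 1) (by omega) (by omega)
      rw [show k + 1 - (m + 1) = m + 1 by omega, hself (m + 1) (by omega) (by omega)] at h2
      have h3 : ((-1 : F)) ^ (m + 1) ≠ 0 := pow_ne_zero _ (neg_ne_zero.mpr one_ne_zero)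
      exact (mul_ne_zero h3 hu) h2.symm
  refine ⟨heven, ?_⟩
  intro hc2
  obtain ⟨h, hh⟩ := heven
  refine ⟨h, hh, ?_⟩
  -- level k + 2
  have hw : ∀ t, t + 1 ≤ h → α (k + 2 - (h + 1 - t)) (h + 1 - t)
      = (-1) ^ (h + 1 - t) * t * α (k - 1) 2 := by
    intro t
    induction t with
    | zero =>
      intro _
      rw [show k + 2 - (h + 1 - 0) = h + 1 by omega, show h + 1 - 0 = h + 1 by omega,
        hself (h + 1) (by omega) (by omega)]
      push_cast
      ring
    | succ t ih =>
      intro ht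
      have h2 := hrec (k + 1 - (h - t)) (h - t) (by omega) (by omega) (by omega)
      rw [hlev (h - t) (by omega) (by omega), show k + 1 - (h - t) + 1 = k + 2 - (h - t) by omega,
        show k + 1 - (h - t) = k + 2 - (h + 1 - t) by omega,
        show h - t + 1 = h + 1 - t by omega, ih (by omega)] at h2
      rw [show h + 1 - (t + 1) = h - t by omega]
      have h3 : ((-1 : F)) ^ (h + 1 - t) = - (-1) ^ (h - t) := by
        rw [show h + 1 - t = (h - t) + 1 by omega, pow_succ]
        ring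
      rw [h3] at h2
      push_cast
      linear_combination -h2
  have h5 := hw (h - 1) (by omega)
  rw [show h + 1 - (h - 1) = 2 by omega, show k + 2 - 2 = k by omega] at h5
  -- the value of L at k + 1
  have h6 := hL k (by omega) hc2
  have h7 := hJ (k - 1) 2 (by omega) le_rfl (by omega)
  rw [show k - 1 + 2 = k + 1 by omega, hzero (k - 1) (by omega) (by omega),
    hzero 2 le_rfl (by omega), zero_mul, zero_mul, add_zero] at h7
  have h8 := (mul_eq_zero.mp h7).resolve_left hu
  rw [h8, h5, zero_add, Nat.cast_sub (show 1 ≤ h by omega), Nat.cast_one] at h6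
  have h9 : (h : F) * L k = 0 := by
    have e : ε * α (k - 1) 2 = - L k := by linear_combination h1
    linear_combination h6 + ((h : F) - 1) * e
  exact (mul_eq_zero.mp h9).resolve_right hne

variable {G : Type*} [Group G] {p c : ℕ}

/-- The trivial leading data. -/
lemma lead_zero [hp : Fact p.Prime] {c₀ : ℕ} (C : Coords G p c₀) : Lead G c₀ 1 0 c₀ := by
  refine ⟨le_rfl, le_rfl, ?_⟩
  intro k hk
  rcases Nat.lt_or_ge c₀ (2 * k) with h | h
  · exact (gm_comm k k (by omega) (by omega)).trans (gm_anti (by omega))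
  · exact (diag_le C (by omega) h).trans (gm_anti (by omega))

section rel

variable [hp : Fact p.Prime] {c₀ : ℕ} (C : Coords G p c₀) (y : G)

/-- The action of a fixed element. -/
def Lf (m : ℕ) : ZMod p := C.co (m + 1) ⁅C.y m, y⁆

lemma co_y_act {m : ℕ} (h2 : 2 ≤ m) (hm : m + 1 ≤ c₀) {w : G} (hw : w ∈ gm G m) :
    C.co (m + 1) ⁅w, y⁆ = C.co m w * Lf C y m := by
  apply C.co_unique h2 (by omega) (fun w => C.co (m + 1) ⁅w, y⁆) _ _ hw
  · intro s hs t ht
    exact C.co_comm_mul_left (by omega) hm (comm_mem_succ (by omega) hs y)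
      (comm_mem_succ (by omega) ht y)
  · intro s hs
    have := comm_mem_succ (show 1 ≤ m + 1 by omega) hs y
    exact (C.co_zero (m + 1) (by omega) hm _ (gm_anti (by omega) this)).mpr this

lemma comm_two_mem (g k : G) : ⁅g, k⁆ ∈ gm G 2 := by
  have : g ∈ gm G 1 := by rw [gm_one]; exact mem_top g
  exact comm_mem_succ le_rfl this k

lemma Lf_rel {m : ℕ} (h2 : 2 ≤ m) (hm : m + 2 ≤ c₀) :
    Lf C y m = Lf C y (m + 1) + C.co 2 ⁅y, C.x⁆ * C.al 0 m 2 := by
  have D := lead_zero C
  have hym := C.y_mem m h2 (by omega)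
  -- first term
  have f1 : ⁅(C.y m)⁻¹, y⁆ ∈ gm G (m + 1) := comm_mem_succ (by omega) (inv_mem hym) y
  have t1 : C.co (m + 2) ⁅⁅(C.y m)⁻¹, y⁆, C.x⁆ = - Lf C y m := by
    rw [C.co_x (by omega) hm f1, co_y_act C y h2 (by omega) (inv_mem hym),
      C.co_inv h2 (by omega) hym, C.co_y m h2 (by omega)]
    ring
  have m1 : ⁅⁅(C.y m)⁻¹, y⁆, C.x⁆ ∈ gm G (m + 2) := comm_mem_succ (by omega) f1 _
  -- second term
  have hyx : ⁅C.y m, C.x⁆ ∈ gm G (m + 1) := comm_mem_succ (by omega) hym _
  have f2 : ⁅C.x⁻¹, C.y m⁆ ∈ gm G (m + 1) := comm_mem_succ' (by omega) hym _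
  have c2 : C.co (m + 1) ⁅C.x⁻¹, C.y m⁆ = 1 := by
    rw [commutatorElement_inv_left, C.co_conj' (by omega) (by omega) hyx,
      C.co_x h2 (by omega) hym, C.co_y m h2 (by omega)]
  have t2 : C.co (m + 2) ⁅⁅C.x⁻¹, C.y m⁆, y⁆ = Lf C y (m + 1) := by
    rw [co_y_act C y (by omega) hm f2, c2, one_mul]
  have m2 : ⁅⁅C.x⁻¹, C.y m⁆, y⁆ ∈ gm G (m + 2) := comm_mem_succ (by omega) f2 _
  -- third term
  have f3 : ⁅y⁻¹, C.x⁆ ∈ gm G 2 := comm_two_mem _ _
  have c3 : C.co 2 ⁅y⁻¹, C.x⁆ = - C.co 2 ⁅y, C.x⁆ := by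
    have e : ⁅y⁻¹, C.x⁆ = y⁻¹ * ⁅C.x, y⁆ * y := commutatorElement_inv_left _ _
    rw [e, C.co_conj' le_rfl (by omega) (comm_two_mem _ _), ← commutatorElement_inv y C.x,
      C.co_inv le_rfl (by omega) (comm_two_mem _ _)]
  have t3 : C.co (m + 2) ⁅⁅y⁻¹, C.x⁆, C.y m⁆ = C.co 2 ⁅y, C.x⁆ * C.al 0 m 2 := by
    have := D.pair C (show 1 < 2 by omega) (show 1 < m by omega) (by omega) f3 hym
    rw [show 2 + m + 0 = m + 2 by ring, c3, C.co_y m h2 (by omega)] at this
    rw [this, D.al_anti C (show 1 < m by omega) (show 1 < 2 by omega) (by omega)]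
    ring
  have m3 : ⁅⁅y⁻¹, C.x⁆, C.y m⁆ ∈ gm G (m + 2) := by
    have := gm_comm (G := G) m 2 (by omega) (by omega) (commutator_mem_commutator f3 hym)
    rwa [add_comm] at this
  have hw := C.hw_co (show 2 ≤ m + 2 by omega) hm m1 m2 m3
  rw [t1, t2, t3] at hw
  linear_combination -hw

lemma Lf_jac {i j : ℕ} (hi : 2 ≤ i) (hj : 2 ≤ j) (hij : i + j + 1 ≤ c₀) :
    C.al 0 i j * Lf C y (i + j) = Lf C y i * C.al 0 (i + 1) j + Lf C y j * C.al 0 i (j + 1) := by
  have D := lead_zero C
  have hyi := C.y_mem i hi (by omega)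
  have hyj := C.y_mem j hj (by omega)
  -- first term
  have f1 : ⁅(C.y i)⁻¹, C.y j⁆ ∈ gm G (i + j) :=
    gm_comm j i (by omega) (by omega) (commutator_mem_commutator (inv_mem hyi) hyj)
  have c1 : C.co (i + j) ⁅(C.y i)⁻¹, C.y j⁆ = - C.al 0 i j := by
    have := D.pair C (show 1 < i by omega) (show 1 < j by omega) (by omega) (inv_mem hyi) hyj
    rw [show i + j + 0 = i + j by ring, C.co_inv hi (by omega) hyi, C.co_y i hi (by omega),
      C.co_y j hj (by omega)] at this
    rw [this]
    ring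
  have t1 : C.co (i + j + 1) ⁅⁅(C.y i)⁻¹, C.y j⁆, y⁆ = - (C.al 0 i j * Lf C y (i + j)) := by
    rw [co_y_act C y (by omega) hij f1, c1]
    ring
  have m1 : ⁅⁅(C.y i)⁻¹, C.y j⁆, y⁆ ∈ gm G (i + j + 1) := comm_mem_succ (by omega) f1 _
  -- second term
  have hyy : ⁅C.y i, y⁆ ∈ gm G (i + 1) := comm_mem_succ (by omega) hyi _
  have f2 : ⁅y⁻¹, C.y i⁆ ∈ gm G (i + 1) := comm_mem_succ' (by omega) hyi _
  have c2 : C.co (i + 1) ⁅y⁻¹, C.y i⁆ = Lf C y i := by
    rw [commutatorElement_inv_left, C.co_conj' (by omega) (by omega) hyy]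
    rfl
  have e2 : i + 1 + j = i + j + 1 := by ring
  have t2 : C.co (i + j + 1) ⁅⁅y⁻¹, C.y i⁆, C.y j⁆ = Lf C y i * C.al 0 (i + 1) j := by
    have := D.pair C (show 1 < i + 1 by omega) (show 1 < j by omega) (by omega) f2 hyj
    rw [show i + 1 + j + 0 = i + j + 1 by ring, c2, C.co_y j hj (by omega)] at this
    rw [this]
    ring
  have m2 : ⁅⁅y⁻¹, C.y i⁆, C.y j⁆ ∈ gm G (i + j + 1) := by
    have := gm_comm (G := G) j (i + 1) (by omega) (by omega) (commutator_mem_commutator f2 hyj)
    rwa [e2] at this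
  -- third term
  have f3 : ⁅(C.y j)⁻¹, y⁆ ∈ gm G (j + 1) := comm_mem_succ (by omega) (inv_mem hyj) _
  have c3 : C.co (j + 1) ⁅(C.y j)⁻¹, y⁆ = - Lf C y j := by
    rw [co_y_act C y hj (by omega) (inv_mem hyj), C.co_inv hj (by omega) hyj,
      C.co_y j hj (by omega)]
    ring
  have e3 : j + 1 + i = i + j + 1 := by ring
  have t3 : C.co (i + j + 1) ⁅⁅(C.y j)⁻¹, y⁆, C.y i⁆ = Lf C y j * C.al 0 i (j + 1) := by
    have := D.pair C (show 1 < j + 1 by omega) (show 1 < i by omega) (by omega) f3 hyi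
    rw [show j + 1 + i + 0 = i + j + 1 by ring, c3, C.co_y i hi (by omega)] at this
    rw [this, D.al_anti C (show 1 < i by omega) (show 1 < j + 1 by omega) (by omega)]
    ring
  have m3 : ⁅⁅(C.y j)⁻¹, y⁆, C.y i⁆ ∈ gm G (i + j + 1) := by
    have := gm_comm (G := G) i (j + 1) (by omega) (by omega) (commutator_mem_commutator f3 hyi)
    rwa [e3] at this
  have hw := C.hw_co (show 2 ≤ i + j + 1 by omega) hij m1 m2 m3
  rw [t1, t2, t3] at hw
  linear_combination -hw

end rel

namespace MaxClass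

variable [hp : Fact p.Prime]

/-- The first two-step centralizers coincide. -/
theorem tsc_small (h : MaxClass G p c) (hc : 2 * p + 1 ≤ c) :
    ∀ k, 2 ≤ k → k ≤ 2 * p - 1 → tsc G 2 ≤ tsc G k := by
  classical
  have hp2 := hp.out.two_le
  intro k
  induction k using Nat.strong_induction_on with
  | _ k ih =>
    intro hk2 hkp
    rcases Nat.eq_or_lt_of_le hk2 with he | hk3
    · rw [← he]
    by_contra hcon
    obtain ⟨y, hy, hyk⟩ := SetLike.not_le_iff_exists.mp hcon
    -- common part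
    have common : ∀ c₀, k + 1 ≤ c₀ → c₀ ≤ c → ∀ x : G, x ∉ tsc G 2 →
        (∀ i, k ≤ i → i + 1 ≤ c₀ → x ∉ tsc G i) →
        (∃ h, k = 2 * h) ∧ (k + 2 ≤ c₀ → ∃ h : ℕ, k = 2 * h ∧ (h : ZMod p) = 0) := by
      intro c₀ hkc hcc x hx2 hxk
      obtain ⟨C, hCx⟩ := h.coords_of hcc x (by
        intro i h2 hi
        rcases Nat.lt_or_ge i k with hlt | hge
        · exact h.not_mem_tsc h2 (by omega) (ih i hlt h2 (by omega)) hx2
        · exact hxk i hge hi)
      have D := lead_zero C
      refine dev_alg (fun a b => C.al 0 a b) (fun m => Lf C y m) (C.co 2 ⁅y, C.x⁆) k c₀ hk3 hkc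
        ?_ ?_ ?_ ?_ ?_ ?_
      · intro a ha hac
        exact D.al_self C (show 1 < a by omega) (by omega)
      · intro a b ha hb hab
        exact D.al_rec C (show 1 < a by omega) (show 1 < b by omega) (by omega)
      · intro m h2 hm
        exact Lf_rel C y h2 hm
      · intro i j hi hj hij
        exact Lf_jac C y hi hj hij
      · intro m h2 hm
        have h1 := ih m hm h2 (by omega) hy (C.y m) (C.y_mem m h2 (by omega))
        exact (C.co_zero (m + 1) (by omega) (by omega) _ (gm_anti (by omega) h1)).mpr h1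
      · intro h0
        apply hyk
        have hym := C.y_mem k hk2 (by omega)
        have hne : C.y k ∉ gm G (k + 1) := by
          intro h'
          have h1 := (C.co_zero k hk2 (by omega) _ hym).mpr h'
          rw [C.co_y k hk2 (by omega)] at h1
          exact one_ne_zero h1
        exact h.mem_tsc_of hk2 (by omega) hym hne
          ((C.co_zero (k + 1) (by omega) (by omega) _ (comm_mem_succ (by omega) hym y)).mp h0)
    -- first use: k is even
    obtain ⟨x₁, hx₁⟩ := h.exists_avoid {2, k} (by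
      rw [Finset.card_pair (by omega)]
      exact hp2) (by
      intro i hi
      rw [Finset.mem_insert, Finset.mem_singleton] at hi
      omega)
    have hfirst := common (k + 1) le_rfl (by omega) x₁ (hx₁ 2 (by simp))
      (fun i h1 h2 => by
        have : i = k := by omega
        rw [this]
        exact hx₁ k (by simp))
    obtain ⟨m, hm⟩ := hfirst.1
    clear hfirst
    -- second use
    have hp3 : 3 ≤ p := by omega
    have hS : ∀ i ∈ ({2, k, k + 1} : Finset ℕ), 1 ≤ i ∧ i + 1 ≤ c := by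
      intro i hi
      simp only [Finset.mem_insert, Finset.mem_singleton] at hi
      omega
    obtain ⟨x₂, hx₂⟩ := h.exists_avoid {2, k, k + 1} ((Finset.card_le_three).trans hp3) hS
    have hsecond := common (k + 2) (by omega) (by omega) x₂ (hx₂ 2 (by simp))
      (fun i h1 h2 => by
        rcases Nat.eq_or_lt_of_le h1 with h3 | h3
        · rw [← h3]
          exact hx₂ k (by simp)
        · have : i = k + 1 := by omega
          rw [this]
          exact hx₂ (k + 1) (by simp))
    obtain ⟨n, hn, hn0⟩ := hsecond.2 le_rfl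
    rw [ZMod.natCast_eq_zero_iff] at hn0
    have := Nat.le_of_dvd (by omega) hn0
    omega

end MaxClass

end Pool.TKB
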