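import Pool.Agent.TKB.Exist

/-!
# Uniform elements and existence of coordinates
-/

namespace Pool.TKB

open Subgroup
open scoped commutatorElement

variable {G : Type*} [Group G]

lemma comm_mem_succ {i : ℕ} (h1 : 1 ≤ i) {w : G} (hw : w ∈ gm G i) (g : G) :
    ⁅w, g⁆ ∈ gm G (i + 1) := by
  rw [gm_succ h1]
  exact commutator_mem_commutator hw (mem_top g)

lemma comm_mem_succ' {i : ℕ} (h1 : 1 ≤ i) {w : G} (hw : w ∈ gm G i) (g : G) :
    ⁅g, w⁆ ∈ gm G (i + 1) := by
  rw [← commutatorElement_inv]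
  exact inv_mem (comm_mem_succ h1 hw g)

/-- The two-step centralizer of `γ_i / γ_(i+2)`. -/
def tsc (G : Type*) [Group G] (i : ℕ) : Subgroup G where
  carrier := {g | ∀ u ∈ gm G i, ⁅u, g⁆ ∈ gm G (i + 2)}
  mul_mem' := by
    intro g h hg hh u hu
    rw [commutatorElement_mul_right_eq_mul_conj]
    have e : ⁅u, g⁆ * g * ⁅u, h⁆ * g⁻¹ = ⁅u, g⁆ * (g * ⁅u, h⁆ * g⁻¹) := by group
    rw [e]
    exact mul_mem (hg u hu) ((gm_normal (i + 2)).conj_mem _ (hh u hu) g)
  one_mem' := by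
    intro u _
    rw [commutatorElement_one_right]
    exact one_mem _
  inv_mem' := by
    intro g hg u hu
    rw [commutatorElement_inv_right, ← commutatorElement_inv u g]
    have := (gm_normal (i + 2)).conj_mem _ (inv_mem (hg u hu)) g⁻¹
    rwa [inv_inv] at this

lemma mem_tsc {i : ℕ} {g : G} : g ∈ tsc G i ↔ ∀ u ∈ gm G i, ⁅u, g⁆ ∈ gm G (i + 2) := Iff.rfl

namespace MaxClass

variable {p c : ℕ} [hp : Fact p.Prime]

lemma tsc_ne_top (h : MaxClass G p c) {i : ℕ} (h1 : 1 ≤ i) (hc : i + 1 ≤ c) :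
    tsc G i ≠ ⊤ := by
  intro htop
  apply h.strict (show 1 ≤ i + 1 by omega) hc
  rw [gm_succ h1, commutator_le]
  intro u hu g _
  have hg : g ∈ tsc G i := by rw [htop]; exact mem_top g
  exact hg u hu

lemma tsc_card (h : MaxClass G p c) {i : ℕ} (h1 : 1 ≤ i) (hc : i + 1 ≤ c) :
    p * Nat.card (tsc G i) ≤ Nat.card G := by
  have hfin := h.finite
  obtain ⟨k, _, hk⟩ := (Nat.dvd_prime_pow hp.out).mp (h.index_dvd (tsc G i))
  have hne : (tsc G i).index ≠ 1 := by
    intro h'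
    exact h.tsc_ne_top h1 hc (Subgroup.index_eq_one.mp h')
  have hge : p ≤ (tsc G i).index := by
    rw [hk] at hne ⊢
    have hk0 : k ≠ 0 := by
      rintro rfl
      exact hne (pow_zero p)
    exact Nat.le_self_pow hk0 p
  rw [← (tsc G i).card_mul_index, mul_comm p]
  exact Nat.mul_le_mul_left _ hge

/-- There is an element outside all two-step centralizers. -/
lemma exists_uniform (h : MaxClass G p c) {c₀ : ℕ} (hc₀ : c₀ ≤ c) (hp₀ : c₀ < p) :
    ∃ x : G, ∀ i, 2 ≤ i → i + 1 ≤ c₀ → x ∉ tsc G i := by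
  classical
  have hfin := h.finite
  have := Fintype.ofFinite G
  by_contra hcon
  push Not at hcon
  have hsub : (Finset.univ : Finset G) ⊆
      (Finset.Ico 2 c₀).biUnion (fun i => Finset.univ.filter (fun g => g ∈ tsc G i)) := by
    intro x _
    obtain ⟨i, h2, hi, hx⟩ := hcon x
    rw [Finset.mem_biUnion]
    exact ⟨i, by rw [Finset.mem_Ico]; omega, by simpa using hx⟩
  have h1 := Finset.card_le_card hsub
  have h2 := h1.trans Finset.card_biUnion_le
  have h3 : ∀ i ∈ Finset.Ico 2 c₀,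
      p * (Finset.univ.filter (fun g => g ∈ tsc G i)).card ≤ Fintype.card G := by
    intro i hi
    rw [Finset.mem_Ico] at hi
    have h4 := h.tsc_card (show 1 ≤ i by omega) (by omega)
    have h5 : Nat.card (tsc G i) = (Finset.univ.filter (fun g => g ∈ tsc G i)).card := by
      rw [Nat.card_eq_fintype_card]
      exact Fintype.card_subtype _
    rw [← h5, ← Nat.card_eq_fintype_card]
    exact h4
  have h4 : p * Fintype.card G ≤ (c₀ - 2) * Fintype.card G := by
    calc p * Fintype.card G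
        ≤ p * ∑ i ∈ Finset.Ico 2 c₀, (Finset.univ.filter (fun g => g ∈ tsc G i)).card := by
          apply Nat.mul_le_mul_left
          rw [← Finset.card_univ]
          exact h2
      _ = ∑ i ∈ Finset.Ico 2 c₀, p * (Finset.univ.filter (fun g => g ∈ tsc G i)).card := by
          rw [Finset.mul_sum]
      _ ≤ ∑ _i ∈ Finset.Ico 2 c₀, Fintype.card G := Finset.sum_le_sum h3
      _ = (c₀ - 2) * Fintype.card G := by
          rw [Finset.sum_const, Nat.card_Ico, smul_eq_mul]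
  have h5 : 0 < Fintype.card G := Fintype.card_pos
  have h6 := Nat.le_of_mul_le_mul_right h4 h5
  have := hp.out.pos
  omega

/-- The iterated commutators with `x`. -/
def yy (x y : G) : ℕ → G
  | 0 => y
  | n + 1 => ⁅yy x y n, x⁆

/-- Coordinates exist up to any level `c₀ ≤ c` with `c₀ < p`. -/
theorem exists_coords (h : MaxClass G p c) {c₀ : ℕ} (hc₀ : c₀ ≤ c) (hp₀ : c₀ < p) :
    Nonempty (Coords G p c₀) := by
  classical
  -- raw coordinates
  have hraw : ∀ i, ∃ r : G → ZMod p, 2 ≤ i → i ≤ c →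
      (∀ u ∈ gm G i, ∀ v ∈ gm G i, r (u * v) = r u + r v) ∧
      (∀ u ∈ gm G i, (r u = 0 ↔ u ∈ gm G (i + 1))) := by
    intro i
    by_cases hi : 2 ≤ i ∧ i ≤ c
    · obtain ⟨r, h1, h2⟩ := raw_coord (gm G i) (gm G (i + 1)) (h.rel_eq hi.1 hi.2)
      exact ⟨r, fun _ _ => ⟨h1, h2⟩⟩
    · exact ⟨fun _ => 0, fun h1 h2 => absurd ⟨h1, h2⟩ hi⟩
  choose r hr using hraw
  obtain ⟨x, hx⟩ := h.exists_uniform hc₀ hp₀
  obtain ⟨y, hy2, hy3⟩ : ∃ y, y ∈ gm G 2 ∧ y ∉ gm G 3 := by
    by_contra hcon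
    push Not at hcon
    exact h.strict (show 1 ≤ 2 by omega) h.two_le hcon
  -- moving along the series
  have hmove : ∀ i, 2 ≤ i → i + 1 ≤ c₀ → ∀ u ∈ gm G i, u ∉ gm G (i + 1) →
      ⁅u, x⁆ ∉ gm G (i + 2) := by
    intro i h2 hi u hu hu' hux
    apply hx i h2 hi
    rw [mem_tsc]
    intro w hw
    have hri := hr i h2 (by omega)
    have hri1 := hr (i + 1) (by omega) (by omega)
    have hmem : ∀ w ∈ gm G i, ⁅w, x⁆ ∈ gm G (i + 1) := fun w hw => comm_mem_succ (by omega) hw x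
    have hconj : ∀ w ∈ gm G (i + 1), ∀ g : G, r (i + 1) (g * w * g⁻¹) = r (i + 1) w := by
      intro w hw g
      have e : g * w * g⁻¹ = ⁅g, w⁆ * w := by simp [commutatorElement_def, mul_assoc]
      have hm := comm_mem_succ' (show 1 ≤ i + 1 by omega) hw g
      rw [e, hri1.1 _ (gm_anti (by omega) hm) _ hw,
        (hri1.2 _ (gm_anti (by omega) hm)).mpr hm, zero_add]
    have := kill_of_kill (gm_anti (G := G) (show i ≤ i + 1 by omega)) (r := r i)
      (φ := fun w => r (i + 1) ⁅w, x⁆) hri.1 hri.2 ?_ ?_ hu hu' ?_ hw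
    · exact (hri1.2 _ (hmem w hw)).mp this
    · intro s hs t ht
      show r (i + 1) ⁅s * t, x⁆ = r (i + 1) ⁅s, x⁆ + r (i + 1) ⁅t, x⁆
      rw [commutatorElement_mul_left_eq_conj_mul,
        hri1.1 _ ((gm_normal (i + 1)).conj_mem _ (hmem t ht) s) _ (hmem s hs),
        hconj _ (hmem t ht), add_comm]
    · intro s hs
      have := comm_mem_succ (show 1 ≤ i + 1 by omega) hs x
      exact (hri1.2 _ (gm_anti (by omega) this)).mpr this
    · exact (hri1.2 _ (hmem u hu)).mpr hux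
  -- the chain
  have hchain : ∀ n, n + 2 ≤ c₀ ∨ n = 0 → yy x y n ∈ gm G (n + 2) ∧ yy x y n ∉ gm G (n + 3) := by
    intro n
    induction n with
    | zero => intro _; exact ⟨hy2, hy3⟩
    | succ n ih =>
      intro hn
      have hn' : n + 3 ≤ c₀ := by omega
      have h1 := ih (Or.inl (by omega))
      exact ⟨comm_mem_succ (by omega) h1.1 x, hmove (n + 2) (by omega) (by omega) _ h1.1 h1.2⟩
  have hyi : ∀ i, 2 ≤ i → i ≤ c₀ → yy x y (i - 2) ∈ gm G i ∧ yy x y (i - 2) ∉ gm G (i + 1) := by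
    intro i h2 hi
    have := hchain (i - 2) (Or.inl (by omega))
    rwa [show i - 2 + 2 = i by omega, show i - 2 + 3 = i + 1 by omega] at this
  have hne : ∀ i, 2 ≤ i → i ≤ c₀ → r i (yy x y (i - 2)) ≠ 0 := by
    intro i h2 hi h0
    have h1 := hyi i h2 hi
    exact h1.2 (((hr i h2 (by omega)).2 _ h1.1).mp h0)
  exact ⟨{
    x := x
    y := fun i => yy x y (i - 2)
    co := fun i u => r i u * (r i (yy x y (i - 2)))⁻¹
    y_mem := fun i h2 hi => (hyi i h2 hi).1
    y_succ := by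
      intro i h2 hi
      show yy x y (i + 1 - 2) = ⁅yy x y (i - 2), x⁆
      rw [show i + 1 - 2 = (i - 2) + 1 by omega]
      rfl
    co_mul := by
      intro i h2 hi u hu v hv
      show r i (u * v) * _ = r i u * _ + r i v * _
      rw [(hr i h2 (by omega)).1 u hu v hv]
      ring
    co_zero := by
      intro i h2 hi u hu
      show r i u * (r i (yy x y (i - 2)))⁻¹ = 0 ↔ _
      rw [mul_eq_zero, or_iff_left (inv_ne_zero (hne i h2 hi))]
      exact (hr i h2 (by omega)).2 u hu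
    co_y := by
      intro i h2 hi
      exact mul_inv_cancel₀ (hne i h2 hi) }⟩

/-- Commutators with `x` move an element exactly one step. -/
lemma move {c₀ : ℕ} (C : Coords G p c₀) {i : ℕ} (h2 : 2 ≤ i) (hi : i + 1 ≤ c₀) {u : G}
    (hu : u ∈ gm G i) (hu' : u ∉ gm G (i + 1)) : ⁅u, C.x⁆ ∉ gm G (i + 2) := by
  intro h
  apply hu'
  rw [← C.co_zero i h2 (by omega) u hu, ← C.co_x h2 hi hu]
  exact (C.co_zero (i + 1) (by omega) hi _ (comm_mem_succ (by omega) hu _)).mpr h

end MaxClass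

end Pool.TKB
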